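import Mathlib

/-!
The (1+1) GP* on ORDER with HVL-Prime (problem MP_3edecc_lc): definitions.
-/

set_option autoImplicit false

open scoped ENNReal

namespace Pool.Agent.Q333.GPO

/-- A literal: `(i, true)` is `x_i`, `(i, false)` is the negated `x_i`. -/
abbrev Lit (n : ℕ) := Fin n × Bool

/-- Nonempty binary trees with leaves labelled by literals. -/
inductive Tr (n : ℕ) : Type
  | leaf (l : Lit n) : Tr n
  | node (A B : Tr n) : Tr n

/-- Trees; `none` is the empty tree. -/
abbrev Tree (n : ℕ) := Option (Tr n)

variable {n : ℕ}

/-- the leaves of a nonempty tree, from left to right -/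
def lvs : Tr n → List (Lit n)
  | .leaf l => [l]
  | .node A B => lvs A ++ lvs B

/-- the leaves of a tree, from left to right -/
def leaves : Tree n → List (Lit n)
  | none => []
  | some X => lvs X

/-- the size (number of leaves) -/
def size (X : Tree n) : ℕ := (leaves X).length

/-- Variable `i` is expressed: some `x_i` occurs before which no negated `x_i` occurs. -/
def Expressed (L : List (Lit n)) (i : Fin n) : Prop :=
  ∃ L1 L2, L = L1 ++ (i, true) :: L2 ∧ (i, false) ∉ L1

open Classical in
/-- ORDER: the number of expressed variables. -/
noncomputable def fit (X : Tree n) : ℕ :=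
  (Finset.univ.filter fun i : Fin n => Expressed (leaves X) i).card

/-- All results of INS with literal `l`, one for each node and each order of the children. -/
def ins (l : Lit n) : Tr n → List (Tr n)
  | .leaf a => [.node (.leaf l) (.leaf a), .node (.leaf a) (.leaf l)]
  | .node A B =>
      [.node (.leaf l) (.node A B), .node (.node A B) (.leaf l)] ++
        ((ins l A).map (fun A' => .node A' B) ++ (ins l B).map (fun B' => .node A B'))

/-- All results of DEL, one for each leaf. -/
def del : Tr n → List (Tree n)
  | .leaf _ => [none]
  | .node A B =>
      (del A).map (fun o => some (match o with | none => B | some A' => .node A' B)) ++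
        (del B).map (fun o => some (match o with | none => A | some B' => .node A B'))

/-- All results of SUB with literal `l`, one for each node (an internal node is unchanged). -/
def sub (l : Lit n) : Tr n → List (Tr n)
  | .leaf _ => [.leaf l]
  | .node A B =>
      .node A B :: ((sub l A).map (fun A' => .node A' B) ++ (sub l B).map (fun B' => .node A B'))

theorem ins_ne (l : Lit n) (X : Tr n) : ins l X ≠ [] := by cases X <;> simp [ins]
theorem sub_ne (l : Lit n) (X : Tr n) : sub l X ≠ [] := by cases X <;> simp [sub]
theorem del_ne (X : Tr n) : del X ≠ [] := by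
  induction X with
  | leaf l => simp [del]
  | node A B hA hB => simp [del, hA]

/-- the uniform distribution on the entries of a nonempty list -/
noncomputable def unif {α : Type} (L : List α) (h : L ≠ []) : PMF α :=
  PMF.ofMultiset (L : Multiset α) (by simpa using h)

/-- One application of HVL-Prime. -/
noncomputable def hvl [NeZero n] : Tree n → PMF (Tree n)
  | none => (PMF.uniformOfFintype (Lit n)).map fun l => some (.leaf l)
  | some X => (PMF.uniformOfFintype (Fin 3)).bind fun c =>
      if c = 0 then (PMF.uniformOfFintype (Lit n)).bind fun l => (unif (ins l X) (ins_ne l X)).map some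
      else if c = 1 then unif (del X) (del_ne X)
      else (PMF.uniformOfFintype (Lit n)).bind fun l => (unif (sub l X) (sub_ne l X)).map some

/-- `k` applications of HVL-Prime. -/
noncomputable def hvlK [NeZero n] : ℕ → Tree n → PMF (Tree n)
  | 0, X => PMF.pure X
  | k + 1, X => (hvl X).bind (hvlK k)

/-- Mutation: `1 + Poisson(1)` applications of HVL-Prime. -/
noncomputable def mutate [NeZero n] (X : Tree n) : PMF (Tree n) :=
  (ProbabilityTheory.poissonPMF 1).bind fun j => hvlK (j + 1) X

open Classical in
/-- One iteration of the (1+1) GP*: the offspring is accepted iff it is strictly better. -/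
noncomputable def step [NeZero n] (X : Tree n) : PMF (Tree n) :=
  (mutate X).map fun Y => if fit X < fit Y then Y else X

open Classical in
/-- `notYet t X` is the probability that none of the trees number `0, ..., t` is optimal. -/
noncomputable def notYet [NeZero n] : ℕ → Tree n → ℝ≥0∞
  | 0, X => if fit X = n then 0 else 1
  | t + 1, X => if fit X = n then 0 else ∑' Y, step X Y * notYet t Y

/-- The expected optimization time `E T`, as the sum over `t ≥ 0` of `P(T > t)`. -/
noncomputable def expTime [NeZero n] (X : Tree n) : ℝ≥0∞ := ∑' t, notYet t X

/-! Notions of the proof. -/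

/-- expectation -/
noncomputable def E {α : Type} (p : PMF α) (φ : α → ℝ≥0∞) : ℝ≥0∞ := ∑' a, p a * φ a

/-- `i` occurs -/
def Has (i : Fin n) (L : List (Lit n)) : Prop := ∃ l ∈ L, l.1 = i

instance (i : Fin n) (L : List (Lit n)) : Decidable (Has i L) := by
  unfold Has; infer_instance

/-- the number of (node, order) pairs whose insertion point is not behind the first literal of `i` -/
def G (i : Fin n) : Tr n → ℕ
  | .leaf a => if a.1 = i then 1 else 2
  | .node A B => 1 + (if Has i (lvs A ++ lvs B) then 0 else 1) + G i A +
      (if Has i (lvs A) then 0 else G i B)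

/-- `min 2` of the number of negated `x_i` before the first `x_i` (2 if there is no `x_i`) -/
def m (i : Fin n) (L : List (Lit n)) : ℕ :=
  if (i, true) ∈ L then min 2 ((L.takeWhile (fun l => l ≠ (i, true))).count (i, false)) else 2

/-- first part of the potential -/
noncomputable def R1 (i : Fin n) : Tree n → ℝ≥0∞
  | none => 2 / n
  | some X => (G i X : ℝ≥0∞) / (n * (size (some X) + 1))

/-- second part of the potential -/
noncomputable def R2 (i : Fin n) (X : Tree n) : ℝ≥0∞ := (1 / ((size X : ℝ≥0∞) + 1)) ^ m i (leaves X)

open Classical in
/-- probability that `k` applications of HVL-Prime improve the fitness -/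
noncomputable def pimp [NeZero n] (k : ℕ) (X : Tree n) : ℝ≥0∞ :=
  E (hvlK k X) fun Y => if fit X < fit Y then 1 else 0

/-- number of unexpressed variables -/
noncomputable def U (X : Tree n) : ℕ := n - fit X

/-- the Lyapunov function with `u` unexpressed variables and size `s` -/
noncomputable def Phi (n B D u s : ℕ) : ℝ :=
  D * n * ((∑ j ∈ Finset.Icc 1 u, ((s : ℝ) + n + B * (u - j)) / (j : ℝ) ^ 2) + s + B * u)

end Pool.Agent.Q333.GPO
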