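import Pool.Agent.Q333.GPO.Defs

/-! Statements of the lemmas (blueprint). Each `TaskX` is proved in `Pool/Agent/Q333/GPO/TaskX.lean` as
`theorem taskX (deps as hypotheses) : TaskX`. -/

set_option autoImplicit false

open scoped ENNReal

namespace Pool.Agent.Q333.GPO

/-- lengths of the lists of results -/
def TaskLen : Prop := ∀ (n : ℕ) (X : Tr n), 1 ≤ (lvs X).length ∧
  (∀ l, (ins l X).length + 2 = 4 * (lvs X).length) ∧
  (∀ l, (sub l X).length + 1 = 2 * (lvs X).length) ∧ (del X).length = (lvs X).length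

/-- sizes of the results -/
def TaskSize : Prop := ∀ (n : ℕ) (X : Tr n),
  (∀ l, ∀ Y ∈ ins l X, (lvs Y).length = (lvs X).length + 1) ∧
  (∀ l, ∀ Y ∈ sub l X, (lvs Y).length = (lvs X).length) ∧
  (∀ Y ∈ del X, size Y + 1 = (lvs X).length)

/-- leaves after INS: the literal is inserted somewhere -/
def TaskInsL : Prop := ∀ (n : ℕ) (l : Lit n) (X : Tr n), ∀ Y ∈ ins l X,
  ∃ L1 L2, lvs X = L1 ++ L2 ∧ lvs Y = L1 ++ l :: L2

/-- leaves after DEL: the lists are exactly those with one entry erased -/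
def TaskDelL : Prop := ∀ (n : ℕ) (X : Tr n),
  (del X).map leaves = (List.range (lvs X).length).map fun d => (lvs X).eraseIdx d

/-- leaves after SUB: `s - 1` entries are unchanged, the others have one entry replaced -/
def TaskSubL : Prop := ∀ (n : ℕ) (l : Lit n) (X : Tr n),
  ((sub l X).map lvs).Perm (List.replicate ((lvs X).length - 1) (lvs X) ++
    (List.range (lvs X).length).map fun d => (lvs X).set d l)

/-- bounds of `G` -/
def TaskG : Prop := ∀ (n : ℕ) (i : Fin n) (X : Tr n), 1 ≤ G i X ∧ G i X + 2 ≤ 4 * (lvs X).length ∧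
  (¬ Has i (lvs X) → G i X + 2 = 4 * (lvs X).length)

/-- INS raises `G` by at most 4 -/
def TaskGIns : Prop := ∀ (n : ℕ) (i : Fin n) (l : Lit n) (X : Tr n), ∀ Y ∈ ins l X, G i Y ≤ G i X + 4

/-- `G` on trees which may be empty -/
def G' {n : ℕ} (i : Fin n) : Tree n → ℕ
  | none => 2
  | some X => G i X

/-- DEL raises `G` for at most one leaf (the first literal of `i`) -/
def TaskGDel : Prop := ∀ (n : ℕ) (i : Fin n) (X : Tr n),
  (del X).countP (fun Y => decide (G i X < G' i Y)) ≤ 2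

/-- SUB raises `G` for at most one node -/
def TaskGSub : Prop := ∀ (n : ℕ) (i : Fin n) (l : Lit n) (X : Tr n),
  (sub l X).countP (fun Y => decide (G i X < G i Y)) ≤ 1

/-- `m` at an insertion of another literal -/
def TaskMIns : Prop := ∀ (n : ℕ) (i : Fin n) (l : Lit n) (L1 L2 : List (Lit n)), l ≠ (i, true) →
  m i (L1 ++ L2) ≤ m i (L1 ++ l :: L2)

/-- `m` at a deletion -/
def TaskMDel : Prop := ∀ (n : ℕ) (i : Fin n) (L : List (Lit n)),
  (∀ d, m i L ≤ m i (L.eraseIdx d) + 1) ∧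
  (List.range L.length).countP (fun d => decide (m i (L.eraseIdx d) < m i L)) ≤ 2

/-- `m` at a substitution -/
def TaskMSet : Prop := ∀ (n : ℕ) (i : Fin n) (l : Lit n) (L : List (Lit n)), l ≠ (i, true) →
  (∀ d, m i L ≤ m i (L.set d l) + 1) ∧
  (List.range L.length).countP (fun d => decide (m i (L.set d l) < m i L)) ≤ 2

/-- `m = 0` iff expressed; `m ≤ 2` -/
def TaskM : Prop := ∀ (n : ℕ) (i : Fin n) (L : List (Lit n)), m i L ≤ 2 ∧ (m i L = 0 ↔ Expressed L i)

/-- good insertions are counted by `G` -/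
def TaskGood : Prop := ∀ (n : ℕ) (i : Fin n) (X : Tr n), m i (lvs X) ≠ 0 →
  (ins (i, true) X).countP (fun Y => decide (m i (lvs Y) = 0)) = G i X

/-- good substitutions are at most `G` -/
def TaskGoodSub : Prop := ∀ (n : ℕ) (i : Fin n) (X : Tr n), m i (lvs X) ≠ 0 →
  (sub (i, true) X).countP (fun Y => decide (m i (lvs Y) = 0)) ≤ G i X

/-- an insertion of `x_i` which makes `i` expressed improves the fitness -/
def TaskFitIns : Prop := ∀ (n : ℕ) (i : Fin n) (X Y : Tr n), Y ∈ ins (i, true) X →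
  m i (lvs X) ≠ 0 → m i (lvs Y) = 0 → fit (some X) < fit (some Y)

open Classical in
/-- the number of improving deletions is at least the number of variables with one blocker -/
def TaskFitDel : Prop := ∀ (n : ℕ) (X : Tr n),
  (Finset.univ.filter fun i : Fin n => m i (lvs X) = 1).card ≤
    (del X).countP fun Y => decide (fit (some X) < fit Y)

/-- the number of variables not expressed is `U` -/
def TaskU : Prop := ∀ (n : ℕ) (X : Tree n), U X + fit X = n ∧
  U X = (Finset.univ.filter fun i : Fin n => m i (leaves X) ≠ 0).card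

/-- the sum of the `G i` over the unexpressed variables -/
def TaskSumG : Prop := ∀ (n : ℕ) (X : Tr n),
  (U (some X) : ℝ≥0∞) ^ 2 / (16 * n * ((lvs X).length + n)) ≤
    ∑ i ∈ Finset.univ.filter (fun i : Fin n => m i (lvs X) ≠ 0),
      (G i X : ℝ≥0∞) / (n * ((lvs X).length + 1))

/-- expectation of `unif` -/
def TaskUnif : Prop := ∀ (α : Type) (L : List α) (h : L ≠ []) (φ : α → ℝ≥0∞),
  E (unif L h) φ = (L.map φ).sum / L.length

/-- expectation and bind, map, pure -/
def TaskEBind : Prop := (∀ (α β : Type) (p : PMF α) (f : α → PMF β) (φ : β → ℝ≥0∞),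
    E (p.bind f) φ = E p fun a => E (f a) φ) ∧
  (∀ (α β : Type) (p : PMF α) (f : α → β) (φ : β → ℝ≥0∞), E (p.map f) φ = E p fun a => φ (f a)) ∧
  (∀ (α : Type) (a : α) (φ : α → ℝ≥0∞), E (PMF.pure a) φ = φ a)

/-- the expectation after one application of HVL-Prime -/
def TaskHvl : Prop := ∀ (n : ℕ) [NeZero n] (X : Tr n) (φ : Tree n → ℝ≥0∞),
  E (hvl (some X)) φ = 3⁻¹ *
    ((∑ l : Lit n, ((ins l X).map fun Y => φ (some Y)).sum / (ins l X).length) / (2 * n) +
      ((del X).map φ).sum / (del X).length +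
      (∑ l : Lit n, ((sub l X).map fun Y => φ (some Y)).sum / (sub l X).length) / (2 * n))

/-- the expectation after HVL-Prime on the empty tree -/
def TaskHvl0 : Prop := ∀ (n : ℕ) [NeZero n] (φ : Tree n → ℝ≥0∞),
  E (hvl none) φ = (∑ l : Lit n, φ (some (.leaf l))) / (2 * n)

/-- one step multiplies `R1` by at most 100 (in expectation) -/
def TaskR1 : Prop := ∀ (n : ℕ) [NeZero n] (i : Fin n) (X : Tree n),
  E (hvl X) (R1 i) ≤ 100 * R1 i X

/-- one step and `R2` -/
def TaskR2 : Prop := ∀ (n : ℕ) [NeZero n] (i : Fin n) (X : Tree n),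
  E (hvl X) (R2 i) ≤ 100 * (R1 i X + R2 i X)

/-- `k` steps -/
def TaskRk : Prop := ∀ (n : ℕ) [NeZero n] (i : Fin n) (k : ℕ) (X : Tree n),
  E (hvlK k X) (fun Y => R1 i Y + R2 i Y) ≤ 200 ^ k * (R1 i X + R2 i X)

/-- improving in `k` steps needs a new expressed variable -/
def TaskUnion : Prop := ∀ (n : ℕ) [NeZero n] (k : ℕ) (X : Tree n),
  pimp k X ≤ ∑ i ∈ Finset.univ.filter (fun i : Fin n => m i (leaves X) ≠ 0),
    200 ^ k * (R1 i X + R2 i X)

/-- the probability of an improving step, small trees -/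
def TaskSmall : Prop := ∀ (n : ℕ) [NeZero n] (X : Tree n), fit X < n → 2 * size X < n ∨ size X = 0 →
  1 / 12 ≤ pimp 1 X

/-- the probability of an improving step, large trees, insertions -/
def TaskBigIns : Prop := ∀ (n : ℕ) [NeZero n] (X : Tr n),
  ∑ i ∈ Finset.univ.filter (fun i : Fin n => m i (lvs X) ≠ 0), R1 i (some X) ≤
    100 * pimp 1 (some X)

/-- the probability of an improving step, deletions -/
def TaskBigDel : Prop := ∀ (n : ℕ) [NeZero n] (X : Tr n),
  ∑ i ∈ Finset.univ.filter (fun i : Fin n => m i (lvs X) = 1), R2 i (some X) ≤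
    100 * pimp 1 (some X)

/-- large trees: the second part with `m = 2` is dominated by the first part -/
def TaskTwo : Prop := ∀ (n : ℕ) (X : Tr n) (i : Fin n), n ≤ 2 * (lvs X).length →
  m i (lvs X) = 2 → R2 i (some X) ≤ 2 * R1 i (some X)

/-- improving in `k` steps against improving in one step -/
def TaskP : Prop := ∀ (n : ℕ) [NeZero n] (k : ℕ) (X : Tree n), fit X < n →
  pimp k X ≤ 1000 * 200 ^ k * pimp 1 X

/-- lower bound of the probability of an improving step -/
def TaskLow : Prop := ∀ (n : ℕ) [NeZero n] (X : Tree n), fit X < n →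
  (U X : ℝ≥0∞) ^ 2 / (1600 * n * (size X + n)) ≤ pimp 1 X

/-- the size grows by at most one per application -/
def TaskGrow : Prop := ∀ (n : ℕ) [NeZero n] (k : ℕ) (X Y : Tree n), hvlK k X Y ≠ 0 →
  size Y ≤ size X + k

/-- the Lyapunov function decreases at an improvement -/
def TaskPhi : Prop := ∀ (n B D u u' s s' k : ℕ), 1 ≤ n → u' < u → u ≤ n → s' ≤ s + k →
  Phi n B D u' s' + D * n * (((s : ℝ) + n) / u ^ 2 + B) ≤ Phi n B D u s + 3 * D * n * k

/-- bounds of the Lyapunov function -/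
def TaskPhiB : Prop := ∀ (n B D u s : ℕ), u ≤ n →
  0 ≤ Phi n B D u s ∧ Phi n B D u s ≤ D * (3 * B + 3) * ((n : ℝ) ^ 2 + n * s)

/-- the series over the number of applications -/
def TaskSeries : Prop := ∃ M : ℕ, ∑' j : ℕ, ProbabilityTheory.poissonPMF 1 j *
  ((j + 1 : ℝ≥0∞) * (1000 * 200 ^ (j + 1))) ≤ M

/-- Lyapunov -/
def TaskLyap : Prop := ∀ (n : ℕ) [NeZero n] (φ : Tree n → ℝ≥0∞),
  (∀ X : Tree n, fit X < n → 1 + E (step X) φ ≤ φ X) → ∀ X, expTime X ≤ φ X

/-- the expectation after one iteration -/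
def TaskStep : Prop := ∀ (n : ℕ) [NeZero n] (X : Tree n) (φ : Tree n → ℝ≥0∞),
  E (step X) φ = ∑' j : ℕ, ProbabilityTheory.poissonPMF 1 j *
    (E (hvlK (j + 1) X) (fun Y => if fit X < fit Y then φ Y else 0) + (1 - pimp (j + 1) X) * φ X)

/-- the drift -/
def TaskDrift : Prop := ∃ B D : ℕ, ∀ (n : ℕ) [NeZero n] (X : Tree n), fit X < n →
  1 + E (step X) (fun Y => ENNReal.ofReal (Phi n B D (U Y) (size Y))) ≤
    ENNReal.ofReal (Phi n B D (U X) (size X))

/-- the theorem -/
def TaskMain : Prop := ∃ C : ℕ, ∀ (n : ℕ) [NeZero n] (X : Tree n),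
  expTime X ≤ C * ((n : ℝ≥0∞) ^ 2 + n * size X)

end Pool.Agent.Q333.GPO
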