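import Pool.Agent.Q333.GPO.Stmts

set_option autoImplicit false

open scoped ENNReal

namespace Pool.Agent.Q333.GPO

private theorem taskBigDel_sum {α : Type} (L : List α) (p : α → Bool) :
    (L.map fun Y => if p Y = true then (1 : ℝ≥0∞) else 0).sum = ((L.countP p : ℕ) : ℝ≥0∞) := by
  induction L with
  | nil => simp
  | cons a L ih =>
    rw [List.map_cons, List.sum_cons, ih, List.countP_cons]
    by_cases h : p a = true
    · simp [h, add_comm]
    · simp [h]

theorem taskBigDel (hH : TaskHvl) (hE : TaskEBind) (hL : TaskLen) (hF : TaskFitDel) :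
    TaskBigDel := by
  intro n _ X
  obtain ⟨e1, _, e3⟩ := hE
  obtain ⟨l1, _, _, l4⟩ := hL n X
  have hp : pimp 1 (some X) =
      E (hvl (some X)) fun Y => if fit (some X) < fit Y then (1 : ℝ≥0∞) else 0 := by
    unfold pimp
    show E ((hvl (some X)).bind (hvlK 0)) _ = _
    rw [e1]
    congr 1
    funext Y
    show E (PMF.pure Y) _ = _
    rw [e3]
  have hd : ((del X).map fun Y => if fit (some X) < fit Y then (1 : ℝ≥0∞) else 0).sum =
      (((del X).countP fun Y => decide (fit (some X) < fit Y) : ℕ) : ℝ≥0∞) := by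
    rw [← taskBigDel_sum]
    congr 1
    apply List.map_congr_left
    intro Y _
    simp
  have hc := hF n X
  have hR : ∑ i ∈ Finset.univ.filter (fun i : Fin n => m i (lvs X) = 1), R2 i (some X) =
      ((Finset.univ.filter fun i : Fin n => m i (lvs X) = 1).card : ℝ≥0∞) *
        (1 / (((lvs X).length : ℝ≥0∞) + 1)) := by
    rw [← nsmul_eq_mul, ← Finset.sum_const]
    apply Finset.sum_congr rfl
    intro i hi
    have hi' := (Finset.mem_filter.1 hi).2
    unfold R2
    have : m i (leaves (some X)) = 1 := hi'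
    rw [this, pow_one]
    rfl
  rw [hR, hp, hH, hd, l4]
  generalize hcc : (Finset.univ.filter fun i : Fin n => m i (lvs X) = 1).card = c at hc ⊢
  generalize hPP : (del X).countP (fun Y => decide (fit (some X) < fit Y)) = P at hc ⊢
  have h1 : (c : ℝ≥0∞) * (1 / (((lvs X).length : ℝ≥0∞) + 1)) ≤ (P : ℝ≥0∞) / (lvs X).length := by
    rw [one_div, ← div_eq_mul_inv]
    exact ENNReal.div_le_div (by exact_mod_cast hc) le_self_add
  refine h1.trans ?_
  have h100 : (1 : ℝ≥0∞) ≤ 100 * 3⁻¹ := by
    rw [← div_eq_mul_inv, ENNReal.le_div_iff_mul_le (by norm_num) (by norm_num)]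
    norm_num
  calc (P : ℝ≥0∞) / (lvs X).length = 1 * ((P : ℝ≥0∞) / (lvs X).length) := (one_mul _).symm
    _ ≤ (100 * 3⁻¹) * ((P : ℝ≥0∞) / (lvs X).length) := by gcongr
    _ ≤ (100 * 3⁻¹) * ((∑ l : Lit n, ((ins l X).map fun Y =>
        if fit (some X) < fit (some Y) then (1 : ℝ≥0∞) else 0).sum / (ins l X).length) / (2 * n) +
      (P : ℝ≥0∞) / (lvs X).length +
      (∑ l : Lit n, ((sub l X).map fun Y =>
        if fit (some X) < fit (some Y) then (1 : ℝ≥0∞) else 0).sum / (sub l X).length) /
          (2 * n)) := by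
        gcongr
        exact le_add_right le_add_self
    _ = _ := by rw [mul_assoc]

end Pool.Agent.Q333.GPO
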