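import Pool.Agent.Q333.GPO.Stmts

set_option autoImplicit false

open scoped ENNReal

namespace Pool.Agent.Q333.GPO

private theorem taskBigIns_count {α : Type} (p : α → Bool) (ψ : α → ℝ≥0∞) :
    ∀ L : List α, (∀ Y ∈ L, p Y = true → 1 ≤ ψ Y) → (L.countP p : ℝ≥0∞) ≤ (L.map ψ).sum
  | [], _ => by simp
  | a :: L, h => by
    have ih := taskBigIns_count p ψ L fun Y hY => h Y (List.mem_cons_of_mem _ hY)
    rw [List.map_cons, List.sum_cons]
    by_cases ha : p a = true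
    · rw [List.countP_cons_of_pos ha, Nat.cast_add, Nat.cast_one, add_comm]
      exact add_le_add (h a List.mem_cons_self ha) ih
    · rw [List.countP_cons_of_neg ha]
      exact ih.trans le_add_self

private theorem taskBigIns_const : (1 : ℝ≥0∞) ≤ 100 * (3⁻¹ * (4⁻¹ * 2⁻¹)) := by
  have h24 : (3⁻¹ * (4⁻¹ * 2⁻¹) : ℝ≥0∞) = 24⁻¹ := by
    rw [← ENNReal.mul_inv (Or.inl (by norm_num)) (Or.inl (by norm_num)),
      ← ENNReal.mul_inv (Or.inl (by norm_num)) (Or.inl (by norm_num))]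
    norm_num
  rw [h24]
  calc (1 : ℝ≥0∞) = 24 * 24⁻¹ := (ENNReal.mul_inv_cancel (by norm_num) (by norm_num)).symm
    _ ≤ 100 * 24⁻¹ := mul_le_mul_left (by norm_num) _

private theorem taskBigIns_term (g : ℝ≥0∞) (n s : ℕ) :
    g / ((n : ℝ≥0∞) * ((s : ℝ≥0∞) + 1)) ≤
      100 * (3⁻¹ * ((g / (4 * ((s : ℝ≥0∞) + 1))) / (2 * (n : ℝ≥0∞)))) := by
  have hy : ((s : ℝ≥0∞) + 1) ≠ ∞ := by exact_mod_cast ENNReal.natCast_ne_top (s + 1)
  have hy0 : ((s : ℝ≥0∞) + 1) ≠ 0 := by exact_mod_cast Nat.succ_ne_zero s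
  rw [div_eq_mul_inv, div_eq_mul_inv, div_eq_mul_inv,
    ENNReal.mul_inv (Or.inr hy) (Or.inr hy0),
    ENNReal.mul_inv (Or.inl (by norm_num)) (Or.inl (by norm_num)),
    ENNReal.mul_inv (Or.inl (by norm_num)) (Or.inl (by norm_num))]
  calc g * ((n : ℝ≥0∞)⁻¹ * ((s : ℝ≥0∞) + 1)⁻¹)
      = 1 * (g * ((n : ℝ≥0∞)⁻¹ * ((s : ℝ≥0∞) + 1)⁻¹)) := (one_mul _).symm
    _ ≤ (100 * (3⁻¹ * (4⁻¹ * 2⁻¹))) * (g * ((n : ℝ≥0∞)⁻¹ * ((s : ℝ≥0∞) + 1)⁻¹)) :=
        mul_le_mul_left taskBigIns_const _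
    _ = _ := by ring

theorem taskBigIns (hH : TaskHvl) (hE : TaskEBind) (hL : TaskLen) (hG : TaskGood)
    (hF : TaskFitIns) : TaskBigIns := by
  intro n _ X
  set s := (lvs X).length with hs
  have h0 : pimp 1 (some X) = E (hvl (some X))
      (fun Y => if fit (some X) < fit Y then (1 : ℝ≥0∞) else 0) := by
    unfold pimp
    have h1 := hE.1 _ _ (hvl (some X)) (hvlK 0)
      (fun Y => if fit (some X) < fit Y then (1 : ℝ≥0∞) else 0)
    have h2 : ∀ a : Tree n, E (hvlK 0 a)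
        (fun Y => if fit (some X) < fit Y then (1 : ℝ≥0∞) else 0) =
        (fun Y => if fit (some X) < fit Y then (1 : ℝ≥0∞) else 0) a := fun a => hE.2.2 _ a _
    simp_rw [h2] at h1
    exact h1
  rw [h0, hH n X]
  set φ : Tree n → ℝ≥0∞ := fun Y => if fit (some X) < fit Y then (1 : ℝ≥0∞) else 0 with hφ
  have hterm : ∀ i ∈ Finset.univ.filter (fun i : Fin n => m i (lvs X) ≠ 0),
      (G i X : ℝ≥0∞) / (4 * ((s : ℝ≥0∞) + 1)) ≤
        ((ins (i, true) X).map fun Y => φ (some Y)).sum / (ins (i, true) X).length := by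
    intro i hi
    have hi' : m i (lvs X) ≠ 0 := (Finset.mem_filter.mp hi).2
    refine ENNReal.div_le_div ?_ ?_
    · rw [← hG n i X hi']
      refine taskBigIns_count _ (fun Y => φ (some Y)) _ fun Y hY hd => ?_
      have h1 : fit (some X) < fit (some Y) := hF n i X Y hY hi' (of_decide_eq_true hd)
      simp only [hφ, if_pos h1, le_refl]
    · have h1 := (hL n X).2.1 (i, true)
      have h2 : (ins (i, true) X).length ≤ 4 * (s + 1) := by omega
      exact_mod_cast h2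
  have hA : ∑ i ∈ Finset.univ.filter (fun i : Fin n => m i (lvs X) ≠ 0),
      (G i X : ℝ≥0∞) / (4 * ((s : ℝ≥0∞) + 1)) ≤
      ∑ l : Lit n, ((ins l X).map fun Y => φ (some Y)).sum / (ins l X).length := by
    refine (Finset.sum_le_sum hterm).trans ?_
    refine (Finset.sum_le_sum_of_subset (Finset.subset_univ _)).trans ?_
    rw [Fintype.sum_prod_type]
    refine Finset.sum_le_sum fun i _ => ?_
    exact Finset.single_le_sum
      (f := fun b => ((ins (i, b) X).map fun Y => φ (some Y)).sum / (ins (i, b) X).length)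
      (fun _ _ => bot_le) (Finset.mem_univ true)
  calc ∑ i ∈ Finset.univ.filter (fun i : Fin n => m i (lvs X) ≠ 0), R1 i (some X)
      ≤ ∑ i ∈ Finset.univ.filter (fun i : Fin n => m i (lvs X) ≠ 0),
        100 * (3⁻¹ * (((G i X : ℝ≥0∞) / (4 * ((s : ℝ≥0∞) + 1))) / (2 * (n : ℝ≥0∞)))) :=
        Finset.sum_le_sum fun i _ => taskBigIns_term _ n s
    _ = 100 * (3⁻¹ * ((∑ i ∈ Finset.univ.filter (fun i : Fin n => m i (lvs X) ≠ 0),
        (G i X : ℝ≥0∞) / (4 * ((s : ℝ≥0∞) + 1))) / (2 * (n : ℝ≥0∞)))) := by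
        rw [← Finset.mul_sum, ← Finset.mul_sum]
        congr 2
        rw [div_eq_mul_inv, Finset.sum_mul]
        exact Finset.sum_congr rfl fun i _ => div_eq_mul_inv _ _
    _ ≤ _ := by
        gcongr
        exact (ENNReal.div_le_div_right hA _).trans (le_add_right le_self_add)

end Pool.Agent.Q333.GPO
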