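import Pool.Agent.Q333.GPO.Stmts

set_option autoImplicit false

namespace Pool.Agent.Q333.GPO

theorem taskDelL : TaskDelL := by
  intro n X
  induction X with
  | leaf l => simp [del, lvs, leaves]
  | node A B hA hB =>
    have h1 : ∀ o : Tree n, leaves (some (match o with | none => B | some A' => .node A' B)) =
        leaves o ++ lvs B := by
      intro o; rcases o with _ | A' <;> simp [leaves, lvs]
    have h2 : ∀ o : Tree n, leaves (some (match o with | none => A | some B' => .node A B')) =
        lvs A ++ leaves o := by
      intro o; rcases o with _ | B' <;> simp [leaves, lvs]
    have e1 : (del (Tr.node A B)).map leaves =
        ((del A).map leaves).map (· ++ lvs B) ++ ((del B).map leaves).map (lvs A ++ ·) := by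
      rw [del, List.map_append, List.map_map, List.map_map, List.map_map, List.map_map]
      congr 1
      · apply List.map_congr_left
        intro o _
        exact h1 o
      · apply List.map_congr_left
        intro o _
        exact h2 o
    rw [e1, hA, hB, lvs, List.length_append, List.range_add, List.map_append, List.map_map,
      List.map_map, List.map_map]
    congr 1
    · apply List.map_congr_left
      intro d hd
      simp only [Function.comp]
      rw [List.eraseIdx_append_of_lt_length (List.mem_range.1 hd)]
    · apply List.map_congr_left
      intro d _
      simp only [Function.comp]
      rw [List.eraseIdx_append_of_length_le (by omega)]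
      congr 2
      omega

end Pool.Agent.Q333.GPO
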