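import Pool.Agent.Q333.GPO.Stmts

set_option autoImplicit false

open scoped ENNReal

namespace Pool.Agent.Q333.GPO

private theorem tsum_w : ∑' j : ℕ, ProbabilityTheory.poissonPMF 1 j = 1 :=
  PMF.tsum_coe _

private theorem w0 : (3 : ℝ≥0∞)⁻¹ ≤ ProbabilityTheory.poissonPMF 1 0 := by
  have h : ProbabilityTheory.poissonPMF 1 0 = ENNReal.ofReal (ProbabilityTheory.poissonPMFReal 1 0) := rfl
  rw [h]
  have h1 : ProbabilityTheory.poissonPMFReal 1 0 = Real.exp (-1) := by
    simp [ProbabilityTheory.poissonPMFReal]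
  rw [h1]
  have h2 : (3 : ℝ)⁻¹ ≤ Real.exp (-1) := by
    rw [Real.exp_neg]
    apply inv_anti₀ (Real.exp_pos 1)
    have := Real.exp_one_lt_d9
    linarith
  have h3 : (3 : ℝ≥0∞)⁻¹ = ENNReal.ofReal (3 : ℝ)⁻¹ := by
    rw [ENNReal.ofReal_inv_of_pos (by norm_num)]
    norm_num
  rw [h3]
  exact ENNReal.ofReal_le_ofReal h2

theorem taskDrift (hP : TaskP) (hL : TaskLow) (hG : TaskGrow) (hPhi : TaskPhi) (hPB : TaskPhiB)
    (hS : TaskSeries) (hSt : TaskStep) (hU : TaskU) : TaskDrift := by
  obtain ⟨M, hM⟩ := hS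
  refine ⟨9 * M, 4800, ?_⟩
  intro n _ X hX
  have hn : 1 ≤ n := Nat.one_le_iff_ne_zero.mpr (NeZero.ne n)
  set B : ℕ := 9 * M with hB
  set D : ℕ := 4800 with hD
  have hUX := (hU n X).1
  have hu1 : 1 ≤ U X := by omega
  have hun : U X ≤ n := by omega
  set a : ℝ≥0∞ := ENNReal.ofReal (Phi n B D (U X) (size X)) with ha
  set φ : Tree n → ℝ≥0∞ := fun Y => ENNReal.ofReal (Phi n B D (U Y) (size Y)) with hφ
  set g : ℝ := D * n * (((size X : ℝ) + n) / (U X : ℝ) ^ 2 + B) with hg
  have hg0 : 0 ≤ g := by positivity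
  set p : ℝ≥0∞ := pimp 1 X with hp
  -- one term
  have hterm : ∀ j : ℕ, E (hvlK (j + 1) X) (fun Y => if fit X < fit Y then φ Y else 0) +
      pimp (j + 1) X * ENNReal.ofReal g ≤
      pimp (j + 1) X * (a + ENNReal.ofReal (3 * D * n * (j + 1 : ℕ))) := by
    intro j
    unfold pimp E
    rw [← ENNReal.tsum_mul_right, ← ENNReal.tsum_mul_right, ← ENNReal.tsum_add]
    apply ENNReal.tsum_le_tsum
    intro Y
    by_cases hY : hvlK (j + 1) X Y = 0
    · simp [hY]
    by_cases hf : fit X < fit Y
    · simp only [hf, if_true, mul_one]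
      rw [← mul_add]
      apply mul_le_mul_right
      have hUY := (hU n Y).1
      have h1 := hPhi n B D (U X) (U Y) (size X) (size Y) (j + 1) hn (by omega) hun (hG n (j + 1) X Y hY)
      have h2 := (hPB n B D (U Y) (size Y) (by omega)).1
      have h3 := (hPB n B D (U X) (size X) hun).1
      rw [hφ, ha, ← ENNReal.ofReal_add h2 hg0, ← ENNReal.ofReal_add h3 (by positivity)]
      exact ENNReal.ofReal_le_ofReal h1
    · simp [hf]
  have hpi : ∀ k, pimp k X ≤ 1 := by
    intro k
    unfold pimp E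
    calc ∑' Y, hvlK k X Y * (if fit X < fit Y then 1 else 0) ≤ ∑' Y, hvlK k X Y := by
          apply ENNReal.tsum_le_tsum
          intro Y
          split_ifs <;> simp
      _ = 1 := PMF.tsum_coe _
  have hafin : a ≠ ⊤ := ENNReal.ofReal_ne_top
  -- the sum
  have hsum : E (step X) φ + ∑' j : ℕ, ProbabilityTheory.poissonPMF 1 j *
      (pimp (j + 1) X * ENNReal.ofReal g) ≤
      a + ENNReal.ofReal (3 * D * n) * (M * p) := by
    rw [hSt n X φ, ← ENNReal.tsum_add]
    calc ∑' j : ℕ, (ProbabilityTheory.poissonPMF 1 j *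
          (E (hvlK (j + 1) X) (fun Y => if fit X < fit Y then φ Y else 0) +
            (1 - pimp (j + 1) X) * φ X) +
          ProbabilityTheory.poissonPMF 1 j * (pimp (j + 1) X * ENNReal.ofReal g))
        ≤ ∑' j : ℕ, (ProbabilityTheory.poissonPMF 1 j * a + ENNReal.ofReal (3 * D * n) *
            (ProbabilityTheory.poissonPMF 1 j *
            ((j + 1 : ℝ≥0∞) * (1000 * 200 ^ (j + 1))) * p)) := by
          apply ENNReal.tsum_le_tsum
          intro j
          rw [← mul_add]
          have e1 : ENNReal.ofReal (3 * D * n) *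
            (ProbabilityTheory.poissonPMF 1 j *
            ((j + 1 : ℝ≥0∞) * (1000 * 200 ^ (j + 1))) * p) = ProbabilityTheory.poissonPMF 1 j *
            (ENNReal.ofReal (3 * D * n) * (j + 1 : ℝ≥0∞) * (1000 * 200 ^ (j + 1) * p)) := by ring
          rw [e1, ← mul_add]
          apply mul_le_mul_right
          have h1 := hterm j
          have h2 := hP n (j + 1) X hX
          calc E (hvlK (j + 1) X) (fun Y => if fit X < fit Y then φ Y else 0) +
                (1 - pimp (j + 1) X) * φ X + pimp (j + 1) X * ENNReal.ofReal g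
              = (E (hvlK (j + 1) X) (fun Y => if fit X < fit Y then φ Y else 0) +
                pimp (j + 1) X * ENNReal.ofReal g) + (1 - pimp (j + 1) X) * a := by
                rw [add_right_comm]
            _ ≤ pimp (j + 1) X * (a + ENNReal.ofReal (3 * D * n * (j + 1 : ℕ))) +
                (1 - pimp (j + 1) X) * a := by gcongr
            _ = (pimp (j + 1) X + (1 - pimp (j + 1) X)) * a +
                pimp (j + 1) X * ENNReal.ofReal (3 * D * n * (j + 1 : ℕ)) := by ring
            _ = a + pimp (j + 1) X * ENNReal.ofReal (3 * D * n * (j + 1 : ℕ)) := by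
                rw [add_tsub_cancel_of_le (hpi (j + 1)), one_mul]
            _ ≤ a + (1000 * 200 ^ (j + 1) * p) * ENNReal.ofReal (3 * D * n * (j + 1 : ℕ)) := by
                gcongr
            _ = a + ENNReal.ofReal (3 * D * n) * (j + 1 : ℝ≥0∞) * (1000 * 200 ^ (j + 1) * p) := by
                rw [ENNReal.ofReal_mul (by positivity), ENNReal.ofReal_natCast]
                push_cast
                ring
      _ = a + ENNReal.ofReal (3 * D * n) * ((∑' j : ℕ, ProbabilityTheory.poissonPMF 1 j *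
            ((j + 1 : ℝ≥0∞) * (1000 * 200 ^ (j + 1)))) * p) := by
          rw [ENNReal.tsum_add, ENNReal.tsum_mul_right, tsum_w, one_mul, ENNReal.tsum_mul_left,
            ENNReal.tsum_mul_right]
      _ ≤ a + ENNReal.ofReal (3 * D * n) * (M * p) := by gcongr
  -- the gain
  have hgain : 1 + ENNReal.ofReal (3 * D * n) * (M * p) ≤ ∑' j : ℕ,
      ProbabilityTheory.poissonPMF 1 j * (pimp (j + 1) X * ENNReal.ofReal g) := by
    refine le_trans ?_ (ENNReal.le_tsum 0)
    have h0 : (3 : ℝ≥0∞)⁻¹ * (p * ENNReal.ofReal g) ≤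
        ProbabilityTheory.poissonPMF 1 0 * (pimp (0 + 1) X * ENNReal.ofReal g) := by
      exact mul_le_mul' w0 le_rfl
    refine le_trans ?_ h0
    have hpfin : p ≠ ⊤ := ne_top_of_le_ne_top ENNReal.one_ne_top (hpi 1)
    have hlow := hL n X hX
    -- to real numbers
    have hpr : p = ENNReal.ofReal p.toReal := (ENNReal.ofReal_toReal hpfin).symm
    have hup : (0 : ℝ) < (U X : ℝ) := by exact_mod_cast hu1
    have hnp : (0 : ℝ) < (n : ℝ) := by exact_mod_cast hn
    have hlow' : (U X : ℝ) ^ 2 / (1600 * n * (size X + n)) ≤ p.toReal := by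
      have h1 := ENNReal.toReal_mono hpfin hlow
      refine le_trans (le_of_eq ?_) h1
      rw [ENNReal.toReal_div]
      simp [ENNReal.toReal_mul, ENNReal.toReal_add]
    have hreal : 1 + (3 * D * n) * (M * p.toReal) ≤ 3⁻¹ * (p.toReal * g) := by
      have h1 : 1 ≤ 3⁻¹ * (p.toReal * (D * n * (((size X : ℝ) + n) / (U X : ℝ) ^ 2))) := by
        have h2 : 3⁻¹ * ((U X : ℝ) ^ 2 / (1600 * n * (size X + n)) *
            (D * n * (((size X : ℝ) + n) / (U X : ℝ) ^ 2))) = 1 := by
          have : (0 : ℝ) < (size X : ℝ) + n := by positivity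
          rw [hD]
          field_simp
          norm_num
        calc (1 : ℝ) = _ := h2.symm
          _ ≤ _ := by gcongr
      have h3 : 3⁻¹ * (p.toReal * (D * n * (B : ℝ))) = (3 * D * n) * (M * p.toReal) := by
        rw [hB]
        push_cast
        ring
      calc 1 + (3 * D * n) * (M * p.toReal) ≤
          3⁻¹ * (p.toReal * (D * n * (((size X : ℝ) + n) / (U X : ℝ) ^ 2))) +
          3⁻¹ * (p.toReal * (D * n * (B : ℝ))) := by rw [h3]; gcongr
        _ = 3⁻¹ * (p.toReal * g) := by rw [hg]; ring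
    have hfin := ENNReal.ofReal_le_ofReal hreal
    have hp0 : 0 ≤ p.toReal := ENNReal.toReal_nonneg
    have e1 : ENNReal.ofReal (1 + (3 * D * n) * (M * p.toReal)) =
        1 + ENNReal.ofReal (3 * D * n) * (M * p) := by
      rw [ENNReal.ofReal_add (by norm_num) (by positivity), ENNReal.ofReal_mul (by positivity),
        ENNReal.ofReal_mul (by positivity : (0 : ℝ) ≤ (M : ℝ)), ← hpr, ENNReal.ofReal_one,
        ENNReal.ofReal_natCast]
    have e2 : ENNReal.ofReal (3⁻¹ * (p.toReal * g)) = 3⁻¹ * (p * ENNReal.ofReal g) := by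
      rw [ENNReal.ofReal_mul (by norm_num), ENNReal.ofReal_mul hp0, ← hpr,
        ENNReal.ofReal_inv_of_pos (by norm_num)]
      norm_num
    rw [e1, e2] at hfin
    exact hfin
  have hfin : ENNReal.ofReal (3 * D * n) * (M * p) ≠ ⊤ := by
    apply ENNReal.mul_ne_top ENNReal.ofReal_ne_top
    apply ENNReal.mul_ne_top (ENNReal.natCast_ne_top M)
    exact ne_top_of_le_ne_top ENNReal.one_ne_top (hpi 1)
  have hall : (1 + E (step X) φ) + ENNReal.ofReal (3 * D * n) * (M * p) ≤
      a + ENNReal.ofReal (3 * D * n) * (M * p) := by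
    calc (1 + E (step X) φ) + ENNReal.ofReal (3 * D * n) * (M * p)
        = E (step X) φ + (1 + ENNReal.ofReal (3 * D * n) * (M * p)) := by ring
      _ ≤ E (step X) φ + _ := by gcongr
      _ ≤ _ := hsum
  exact (ENNReal.add_le_add_iff_right hfin).mp hall

end Pool.Agent.Q333.GPO
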