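import Pool.Agent.Q333.GPO.Stmts

/-! # `TaskEBind` -/

set_option autoImplicit false

open scoped ENNReal

namespace Pool.Agent.Q333.GPO

private theorem taskEBind_bind (α β : Type) (p : PMF α) (f : α → PMF β) (φ : β → ℝ≥0∞) :
    E (p.bind f) φ = E p fun a => E (f a) φ := by
  unfold E
  simp only [PMF.bind_apply]
  have h1 : ∀ b, (∑' a, p a * f a b) * φ b = ∑' a, p a * f a b * φ b := fun b =>
    ENNReal.tsum_mul_right.symm
  simp only [h1]
  rw [ENNReal.tsum_comm]
  refine tsum_congr fun a => ?_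
  rw [← ENNReal.tsum_mul_left]
  refine tsum_congr fun b => ?_
  rw [mul_assoc]

private theorem taskEBind_pure (α : Type) (a : α) (φ : α → ℝ≥0∞) : E (PMF.pure a) φ = φ a := by
  unfold E
  rw [tsum_eq_single a]
  · rw [PMF.pure_apply, if_pos rfl, one_mul]
  · intro b hb
    rw [PMF.pure_apply, if_neg hb, zero_mul]

theorem taskEBind : TaskEBind := by
  refine ⟨taskEBind_bind, ?_, taskEBind_pure⟩
  intro α β p f φ
  change E (p.bind (PMF.pure ∘ f)) φ = _
  rw [taskEBind_bind]
  unfold E
  refine tsum_congr fun a => ?_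
  congr 1
  exact taskEBind_pure β (f a) φ

end Pool.Agent.Q333.GPO
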