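import Pool.Agent.Q333.GPO.Stmts

set_option autoImplicit false

open scoped ENNReal

namespace Pool.Agent.Q333.GPO

private theorem taskFitDel_expr {n : ℕ} (L : List (Lit n)) (d : ℕ) (i j : Fin n)
    (hd : L[d]? = some (i, false)) (hj : Expressed L j) : Expressed (L.eraseIdx d) j := by
  obtain ⟨L1, L2, rfl, h⟩ := hj
  rcases lt_trichotomy d L1.length with h1 | h1 | h1
  · refine ⟨L1.eraseIdx d, L2, ?_, fun hh => h (List.mem_of_mem_eraseIdx hh)⟩
    rw [List.eraseIdx_append_of_lt_length h1]
  · subst h1
    simp at hd
  · refine ⟨L1, L2.eraseIdx (d - L1.length - 1), ?_, h⟩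
    rw [List.eraseIdx_append_of_length_le (by omega)]
    obtain ⟨k, hk⟩ : ∃ k, d - L1.length = k + 1 := ⟨d - L1.length - 1, by omega⟩
    rw [hk, List.eraseIdx_cons_succ]
    simp

private theorem taskFitDel_idx {n : ℕ} (L : List (Lit n)) (i : Fin n) (h : m i L = 1) :
    ∃ d, L[d]? = some (i, false) ∧ Expressed (L.eraseIdx d) i := by
  unfold m at h
  split_ifs at h with h1
  swap
  · omega
  obtain ⟨A, B, rfl, hA⟩ := List.eq_append_cons_of_mem h1
  have htake : (A ++ (i, true) :: B).takeWhile (fun l => decide (l ≠ (i, true))) = A := by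
    rw [List.takeWhile_append_of_pos]
    · simp
    · intro a ha
      simp only [decide_eq_true_eq]
      rintro rfl
      exact hA ha
  rw [htake] at h
  have hc : A.count (i, false) = 1 := by omega
  have hmem : (i, false) ∈ A := List.count_pos_iff.1 (by omega)
  obtain ⟨A1, A2, rfl, hA1⟩ := List.eq_append_cons_of_mem hmem
  rw [List.count_append, List.count_cons_self] at hc
  have hA2 : (i, false) ∉ A2 := fun hh => by
    have := List.count_pos_iff.2 hh
    omega
  refine ⟨A1.length, by simp, A1 ++ A2, B, ?_, ?_⟩
  · rw [List.append_assoc, List.eraseIdx_append_of_length_le (by omega)]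
    simp
  · simp [hA1, hA2]

open Classical in
theorem taskFitDel (hD : TaskDelL) (hM : TaskM) : TaskFitDel := by
  intro n X
  set L := lvs X with hL
  let fitL : List (Lit n) → ℕ := fun L => (Finset.univ.filter fun i : Fin n => Expressed L i).card
  have hcount : ((del X).countP fun Y => decide (fit (some X) < fit Y)) =
      (List.range L.length).countP (fun d => decide (fitL L < fitL (L.eraseIdx d))) := by
    have := congrArg (List.countP (fun M => decide (fitL L < fitL M))) (hD n X)
    rw [List.countP_map, List.countP_map] at this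
    exact this
  rw [hcount, List.countP_eq_length_filter,
    ← List.toFinset_card_of_nodup (List.Nodup.filter _ List.nodup_range)]
  have hex : ∀ i : Fin n, ∃ d : ℕ, m i L = 1 → (L[d]? = some (i, false) ∧ Expressed (L.eraseIdx d) i) := by
    intro i
    by_cases h : m i L = 1
    · obtain ⟨d, hd⟩ := taskFitDel_idx L i h
      exact ⟨d, fun _ => hd⟩
    · exact ⟨0, fun h' => absurd h' h⟩
  choose f hf using hex
  apply Finset.card_le_card_of_injOn f
  · intro i hi
    have hi1 : m i L = 1 := by simpa using hi
    obtain ⟨h1, h2⟩ := hf i hi1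
    have hlt : f i < L.length := by
      by_contra hge
      rw [List.getElem?_eq_none (by omega)] at h1
      cases h1
    simp only [List.coe_toFinset, Set.mem_setOf_eq, List.mem_filter, List.mem_range, decide_eq_true_eq]
    refine ⟨hlt, ?_⟩
    apply Finset.card_lt_card
    rw [Finset.ssubset_iff_of_subset]
    · refine ⟨i, by simpa using h2, ?_⟩
      simp only [Finset.mem_filter, Finset.mem_univ, true_and]
      intro hE
      have := ((hM n i L).2).2 hE
      omega
    · intro j hj
      simp only [Finset.mem_filter, Finset.mem_univ, true_and] at hj ⊢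
      exact taskFitDel_expr L (f i) i j h1 hj
  · intro i hi j hj hij
    have hi1 : m i L = 1 := by simpa using hi
    have hj1 : m j L = 1 := by simpa using hj
    have h1 := (hf i hi1).1
    have h2 := (hf j hj1).1
    rw [hij, h2] at h1
    simp only [Option.some.injEq, Prod.mk.injEq, and_true] at h1
    exact h1.symm

end Pool.Agent.Q333.GPO
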