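import Pool.Agent.Q333.GPO.Stmts

set_option autoImplicit false

namespace Pool.Agent.Q333.GPO

private theorem taskFitIns_mono {n : ℕ} (i j : Fin n) (L1 L2 : List (Lit n))
    (h : Expressed (L1 ++ L2) j) : Expressed (L1 ++ (i, true) :: L2) j := by
  obtain ⟨P, Q, hPQ, hP⟩ := h
  rcases List.append_eq_append_iff.1 hPQ with ⟨a, ha, hb⟩ | ⟨c, hc, hd⟩
  · refine ⟨L1 ++ (i, true) :: a, Q, ?_, ?_⟩
    · rw [hb]; simp
    · rw [ha] at hP
      simp only [List.mem_append, List.mem_cons, not_or] at hP ⊢
      refine ⟨hP.1, ?_, hP.2⟩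
      intro h
      simp at h
  · cases c with
    | nil =>
      simp only [List.nil_append] at hd
      simp only [List.append_nil] at hc
      refine ⟨P ++ [(i, true)], Q, ?_, ?_⟩
      · rw [hc, ← hd]; simp
      · simp only [List.mem_append, List.mem_cons, not_or]
        refine ⟨hP, ?_, by simp⟩
        intro h
        simp at h
    | cons x c' =>
      simp only [List.cons_append, List.cons.injEq] at hd
      refine ⟨P, c' ++ (i, true) :: L2, ?_, hP⟩
      rw [hc, ← hd.1]
      simp

theorem taskFitIns (hI : TaskInsL) (hM : TaskM) : TaskFitIns := by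
  classical
  intro n i X Y hY hX0 hY0
  obtain ⟨L1, L2, h1, h2⟩ := hI n (i, true) X Y hY
  have hnX : ¬ Expressed (lvs X) i := fun h => hX0 ((hM n i (lvs X)).2.2 h)
  have hYe : Expressed (lvs Y) i := (hM n i (lvs Y)).2.1 hY0
  unfold fit
  apply Finset.card_lt_card
  rw [Finset.ssubset_iff_of_subset]
  · refine ⟨i, ?_, ?_⟩
    · simp only [Finset.mem_filter, Finset.mem_univ, true_and]
      exact hYe
    · simp only [Finset.mem_filter, Finset.mem_univ, true_and]
      exact hnX
  · intro j hj
    simp only [Finset.mem_filter, Finset.mem_univ, true_and] at hj ⊢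
    show Expressed (lvs Y) j
    have hj' : Expressed (lvs X) j := hj
    rw [h2]
    rw [h1] at hj'
    exact taskFitIns_mono i j L1 L2 hj'

end Pool.Agent.Q333.GPO
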