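import Pool.Agent.Q333.GPO.Stmts

set_option autoImplicit false

namespace Pool.Agent.Q333.GPO

private theorem taskG_has {n : ℕ} (i : Fin n) (L L' : List (Lit n)) :
    Has i (L ++ L') ↔ Has i L ∨ Has i L' := by
  constructor
  · rintro ⟨l, hl, h⟩
    rcases List.mem_append.1 hl with h1 | h1
    · exact Or.inl ⟨l, h1, h⟩
    · exact Or.inr ⟨l, h1, h⟩
  · rintro (⟨l, hl, h⟩ | ⟨l, hl, h⟩)
    · exact ⟨l, List.mem_append.2 (Or.inl hl), h⟩
    · exact ⟨l, List.mem_append.2 (Or.inr hl), h⟩

theorem taskG : TaskG := by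
  intro n i X
  induction X with
  | leaf a =>
    have h1 : Has i (lvs (.leaf a)) ↔ a.1 = i := by
      constructor
      · rintro ⟨l, hl, h⟩
        have h2 : l = a := by simpa [lvs] using hl
        rw [← h2]
        exact h
      · intro h
        exact ⟨a, by simp [lvs], h⟩
    rw [h1]
    have h2 : (lvs (.leaf a)).length = 1 := by simp [lvs]
    rw [h2]
    by_cases h : a.1 = i
    · simp [G, h]
    · simp [G, h]
  | node A B hA hB =>
    obtain ⟨a1, a2, a3⟩ := hA
    obtain ⟨b1, b2, b3⟩ := hB
    have hlen : (lvs (.node A B)).length = (lvs A).length + (lvs B).length := by simp [lvs]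
    have hlv : lvs (.node A B) = lvs A ++ lvs B := rfl
    have hG : G i (.node A B) = 1 + (if Has i (lvs A ++ lvs B) then 0 else 1) + G i A +
      (if Has i (lvs A) then 0 else G i B) := rfl
    rw [hlen, hlv, hG]
    by_cases hA' : Has i (lvs A)
    · have h5 : Has i (lvs A ++ lvs B) := (taskG_has i _ _).2 (Or.inl hA')
      rw [if_pos h5, if_pos hA']
      exact ⟨by omega, by omega, fun h => absurd h5 h⟩
    · by_cases hB' : Has i (lvs B)
      · have h5 : Has i (lvs A ++ lvs B) := (taskG_has i _ _).2 (Or.inr hB')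
        rw [if_pos h5, if_neg hA']
        exact ⟨by omega, by omega, fun h => absurd h5 h⟩
      · have h5 : ¬ Has i (lvs A ++ lvs B) := fun h =>
          ((taskG_has i _ _).1 h).elim hA' hB'
        have a4 := a3 hA'
        have b4 := b3 hB'
        rw [if_neg h5, if_neg hA']
        exact ⟨by omega, by omega, fun _ => by omega⟩

end Pool.Agent.Q333.GPO
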