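import Pool.Agent.Q333.GPO.Stmts

set_option autoImplicit false

namespace Pool.Agent.Q333.GPO

variable {n : ℕ}

private def bad (i : Fin n) (X : Tr n) (Y : Tree n) : Prop :=
  G i X < G' i Y ∨ (Has i (lvs X) ∧ ¬ Has i (leaves Y))

private instance (i : Fin n) (X : Tr n) (Y : Tree n) : Decidable (bad i X Y) := by
  unfold bad; infer_instance

private theorem has_append (i : Fin n) (L1 L2 : List (Lit n)) :
    Has i (L1 ++ L2) ↔ Has i L1 ∨ Has i L2 := by
  unfold Has
  simp only [List.mem_append]
  constructor
  · rintro ⟨l, h | h, e⟩
    · exact Or.inl ⟨l, h, e⟩
    · exact Or.inr ⟨l, h, e⟩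
  · rintro (⟨l, h, e⟩ | ⟨l, h, e⟩)
    · exact ⟨l, Or.inl h, e⟩
    · exact ⟨l, Or.inr h, e⟩

private theorem has_nil (i : Fin n) : ¬ Has i ([] : List (Lit n)) := by
  rintro ⟨l, h, -⟩
  simp at h

private theorem badA (i : Fin n) (A B : Tr n) (o : Tree n)
    (h : bad i (.node A B) (some (match o with | none => B | some A' => .node A' B))) :
    bad i A o := by
  unfold bad at h ⊢
  by_contra hn
  rw [not_or, not_lt, not_and, not_not] at hn
  obtain ⟨h1, h2⟩ := hn
  cases o with
  | none =>
    have hA : ¬ Has i (lvs A) := fun h3 => has_nil i (h2 h3)
    simp only [G', leaves, lvs, G, has_append, hA, false_or, if_false] at h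
    rcases h with h | h
    · omega
    · exact h.2 h.1
  | some A' =>
    simp only [G', leaves] at h1 h2
    simp only [G', leaves, lvs, G, has_append] at h
    by_cases a : Has i (lvs A) <;> by_cases b : Has i (lvs B) <;>
      by_cases a' : Has i (lvs A') <;> simp [a, b, a'] at h h1 h2 <;> omega

private theorem badB (i : Fin n) (A B : Tr n) (o : Tree n)
    (h : bad i (.node A B) (some (match o with | none => A | some B' => .node A B'))) :
    ¬ Has i (lvs A) ∧ bad i B o := by
  unfold bad at h ⊢
  by_contra hn
  rw [not_and, not_or, not_lt, not_and, not_not] at hn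
  by_cases hA : Has i (lvs A)
  · cases o with
    | none =>
      simp only [G', leaves, lvs, G, has_append, hA, true_or, if_true, not_true,
        and_false, or_false] at h
      omega
    | some B' =>
      simp only [G', leaves, lvs, G, has_append, hA, true_or, if_true, not_true,
        and_false, or_false] at h
      omega
  · obtain ⟨h1, h2⟩ := hn hA
    cases o with
    | none =>
      have hB : ¬ Has i (lvs B) := fun h3 => has_nil i (h2 h3)
      simp only [G', leaves, lvs, G, has_append, hA, hB, or_false, if_false, false_and] at h
      omega
    | some B' =>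
      simp only [G', leaves] at h1 h2
      simp only [G', leaves, lvs, G, has_append] at h
      by_cases b : Has i (lvs B) <;>
        by_cases b' : Has i (lvs B') <;> simp [hA, b, b'] at h h1 h2 <;> omega

private theorem key (i : Fin n) (X : Tr n) :
    (del X).countP (fun Y => decide (bad i X Y)) ≤ if Has i (lvs X) then 1 else 0 := by
  induction X with
  | leaf a =>
    by_cases h : a.1 = i
    · have : Has i (lvs (.leaf a)) := ⟨a, by simp [lvs], h⟩
      rw [if_pos this]
      exact (List.countP_le_length).trans (by simp [del])
    · have : ¬ Has i (lvs (.leaf a)) := by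
        rintro ⟨l, hl, e⟩
        simp [lvs] at hl
        rw [hl] at e
        exact h e
      rw [if_neg this]
      simp [del, bad, G, G', this, h]
  | node A B hA hB =>
    have h1 : (del (.node A B)).countP (fun Y => decide (bad i (.node A B) Y)) ≤
        (del A).countP (fun Y => decide (bad i A Y)) +
          (if Has i (lvs A) then 0 else (del B).countP (fun Y => decide (bad i B Y))) := by
      rw [del, List.countP_append, List.countP_map, List.countP_map]
      refine Nat.add_le_add ?_ ?_
      · refine List.countP_mono_left fun o _ ho => ?_
        simp only [Function.comp, decide_eq_true_eq] at ho ⊢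
        exact badA i A B o ho
      · split_ifs with hc
        · rw [Nat.le_zero, List.countP_eq_zero]
          intro o _ ho
          simp only [Function.comp, decide_eq_true_eq] at ho
          exact (badB i A B o ho).1 hc
        · refine List.countP_mono_left fun o _ ho => ?_
          simp only [Function.comp, decide_eq_true_eq] at ho ⊢
          exact (badB i A B o ho).2
    refine h1.trans ?_
    simp only [lvs, has_append]
    by_cases a : Has i (lvs A) <;> by_cases b : Has i (lvs B) <;>
      simp only [a, b, if_true, if_false, or_true, true_or, or_self] at hA hB ⊢ <;> omega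

theorem taskGDel : TaskGDel := by
  intro n i X
  have h1 := key i X
  have h2 : (del X).countP (fun Y => decide (G i X < G' i Y)) ≤
      (del X).countP (fun Y => decide (bad i X Y)) := by
    refine List.countP_mono_left fun o _ ho => ?_
    simp only [decide_eq_true_eq] at ho ⊢
    exact Or.inl ho
  refine (h2.trans h1).trans ?_
  split_ifs <;> omega

end Pool.Agent.Q333.GPO
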