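import Pool.Agent.Q333.GPO.Stmts

set_option autoImplicit false

namespace Pool.Agent.Q333.GPO

private theorem taskGIns_has {n : ℕ} (i : Fin n) (L1 L2 : List (Lit n)) :
    Has i (L1 ++ L2) ↔ Has i L1 ∨ Has i L2 := by
  unfold Has
  constructor
  · rintro ⟨l, hl, h⟩
    rcases List.mem_append.1 hl with h1 | h1
    · exact Or.inl ⟨l, h1, h⟩
    · exact Or.inr ⟨l, h1, h⟩
  · rintro (⟨l, hl, h⟩ | ⟨l, hl, h⟩)
    · exact ⟨l, List.mem_append_left _ hl, h⟩
    · exact ⟨l, List.mem_append_right _ hl, h⟩

private theorem taskGIns_leaf {n : ℕ} (i : Fin n) (l : Lit n) : G i (.leaf l) ≤ 2 := by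
  unfold G
  split_ifs <;> omega

private theorem taskGIns_aux {n : ℕ} (i : Fin n) (l : Lit n) (X : Tr n) :
    ∀ Y ∈ ins l X, G i Y ≤ G i X + 4 ∧ (Has i (lvs X) → Has i (lvs Y)) := by
  have node : ∀ A B : Tr n, G i (.node A B) = 1 + (if Has i (lvs A ++ lvs B) then 0 else 1) +
      G i A + (if Has i (lvs A) then 0 else G i B) := fun A B => rfl
  have hll := taskGIns_leaf i l
  have top : ∀ X : Tr n, ∀ Y, Y = .node (.leaf l) X ∨ Y = .node X (.leaf l) →
      G i Y ≤ G i X + 4 ∧ (Has i (lvs X) → Has i (lvs Y)) := by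
    intro X Y hY
    rcases hY with rfl | rfl
    · refine ⟨?_, fun h => ?_⟩
      · rw [node]
        split_ifs <;> omega
      · exact (taskGIns_has i _ _).2 (Or.inr h)
    · refine ⟨?_, fun h => ?_⟩
      · rw [node]
        split_ifs <;> omega
      · exact (taskGIns_has i _ _).2 (Or.inl h)
  induction X with
  | leaf a =>
    intro Y hY
    refine top _ Y ?_
    simpa [ins] using hY
  | node A B hA hB =>
    intro Y hY
    have hY' : (Y = .node (.leaf l) (.node A B) ∨ Y = .node (.node A B) (.leaf l)) ∨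
        (∃ A' ∈ ins l A, Tr.node A' B = Y) ∨ ∃ B' ∈ ins l B, Tr.node A B' = Y := by
      simpa [ins, or_assoc] using hY
    rcases hY' with h | ⟨A', hA', rfl⟩ | ⟨B', hB', rfl⟩
    · exact top _ Y h
    · obtain ⟨g, hh⟩ := hA A' hA'
      have e1 := taskGIns_has i (lvs A) (lvs B)
      have e2 := taskGIns_has i (lvs A') (lvs B)
      refine ⟨?_, fun h => ?_⟩
      · rw [node, node]
        by_cases c1 : Has i (lvs A)
        · have c2 := hh c1
          rw [if_pos (e2.2 (Or.inl c2)), if_pos (e1.2 (Or.inl c1)), if_pos c1, if_pos c2]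
          omega
        · by_cases c3 : Has i (lvs B)
          · rw [if_pos (e2.2 (Or.inr c3)), if_pos (e1.2 (Or.inr c3)), if_neg c1]
            split_ifs <;> omega
          · have c4 : ¬ Has i (lvs A ++ lvs B) := fun h => (e1.1 h).elim c1 c3
            rw [if_neg c4, if_neg c1]
            split_ifs <;> omega
      · rcases e1.1 h with h1 | h1
        · exact e2.2 (Or.inl (hh h1))
        · exact e2.2 (Or.inr h1)
    · obtain ⟨g, hh⟩ := hB B' hB'
      have e1 := taskGIns_has i (lvs A) (lvs B)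
      have e2 := taskGIns_has i (lvs A) (lvs B')
      refine ⟨?_, fun h => ?_⟩
      · rw [node, node]
        by_cases c1 : Has i (lvs A)
        · rw [if_pos (e2.2 (Or.inl c1)), if_pos (e1.2 (Or.inl c1)), if_pos c1, if_pos c1]
          omega
        · by_cases c3 : Has i (lvs B)
          · rw [if_pos (e2.2 (Or.inr (hh c3))), if_pos (e1.2 (Or.inr c3)), if_neg c1, if_neg c1]
            omega
          · have c4 : ¬ Has i (lvs A ++ lvs B) := fun h => (e1.1 h).elim c1 c3
            rw [if_neg c4, if_neg c1, if_neg c1]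
            split_ifs <;> omega
      · rcases e1.1 h with h1 | h1
        · exact e2.2 (Or.inl h1)
        · exact e2.2 (Or.inr (hh h1))

theorem taskGIns : TaskGIns := fun _ i l X Y hY => (taskGIns_aux i l X Y hY).1

end Pool.Agent.Q333.GPO
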