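import Pool.Agent.Q333.GPO.Stmts

set_option autoImplicit false

open scoped ENNReal

namespace Pool.Agent.Q333.GPO

private theorem has_append {n : ℕ} (i : Fin n) (L M : List (Lit n)) :
    Has i (L ++ M) ↔ Has i L ∨ Has i M := by
  unfold Has
  constructor
  · rintro ⟨l, hl, h⟩
    rcases List.mem_append.1 hl with h1 | h1
    · exact Or.inl ⟨l, h1, h⟩
    · exact Or.inr ⟨l, h1, h⟩
  · rintro (⟨l, hl, h⟩ | ⟨l, hl, h⟩)
    · exact ⟨l, List.mem_append.2 (Or.inl hl), h⟩
    · exact ⟨l, List.mem_append.2 (Or.inr hl), h⟩

private theorem gsub_facts {n : ℕ} (i : Fin n) (X : Tr n) : 1 ≤ (lvs X).length ∧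
    (Has i (lvs X) → G i X + 3 ≤ 4 * (lvs X).length) ∧
    (¬ Has i (lvs X) → G i X + 2 = 4 * (lvs X).length) := by
  induction X with
  | leaf a =>
    refine ⟨by simp [lvs], ?_, ?_⟩
    · rintro ⟨l, hl, h⟩
      simp only [lvs, List.mem_singleton] at hl
      subst hl
      simp [G, lvs, h]
    · intro h
      have : ¬ a.1 = i := fun h' => h ⟨a, by simp [lvs], h'⟩
      simp [G, lvs, this]
  | node A B hA hB =>
    obtain ⟨a1, a2, a3⟩ := hA
    obtain ⟨b1, b2, b3⟩ := hB
    have hl : (lvs (Tr.node A B)).length = (lvs A).length + (lvs B).length := by
      simp [lvs]
    refine ⟨by omega, ?_, ?_⟩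
    · intro h
      have h' : Has i (lvs A ++ lvs B) := h
      rw [hl]
      by_cases hA' : Has i (lvs A)
      · have := a2 hA'
        simp only [G, if_pos h', if_pos hA']
        omega
      · have hB' : Has i (lvs B) := by
          rcases (has_append i _ _).1 h' with h1 | h1
          · exact absurd h1 hA'
          · exact h1
        have h1 := a3 hA'
        have h2 := b2 hB'
        simp only [G, if_pos h', if_neg hA']
        omega
    · intro h
      have h' : ¬ Has i (lvs A ++ lvs B) := h
      rw [hl]
      have hA' : ¬ Has i (lvs A) := fun h1 => h' ((has_append i _ _).2 (Or.inl h1))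
      have hB' : ¬ Has i (lvs B) := fun h1 => h' ((has_append i _ _).2 (Or.inr h1))
      have h1 := a3 hA'
      have h2 := b3 hB'
      simp only [G, if_neg h', if_neg hA']
      omega

private theorem gsub_len {n : ℕ} (l : Lit n) (X : Tr n) :
    ∀ Y ∈ sub l X, (lvs Y).length = (lvs X).length := by
  induction X with
  | leaf a =>
    intro Y hY
    simp only [sub, List.mem_singleton] at hY
    subst hY
    simp [lvs]
  | node A B hA hB =>
    intro Y hY
    simp only [sub, List.mem_cons, List.mem_append, List.mem_map] at hY
    rcases hY with rfl | ⟨A', hA', rfl⟩ | ⟨B', hB', rfl⟩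
    · rfl
    · simp [lvs, hA A' hA']
    · simp [lvs, hB B' hB']

theorem taskGSub : TaskGSub := by
  intro n i l X
  induction X with
  | leaf a =>
    simp only [sub]
    exact (List.countP_le_length).trans (by simp)
  | node A B hA hB =>
    simp only [sub, List.countP_cons, List.countP_append, List.countP_map]
    have e0 : decide (G i (Tr.node A B) < G i (Tr.node A B)) = false := by simp
    rw [e0]
    simp only [Bool.false_eq_true, if_false, add_zero]
    obtain ⟨fa1, fa2, fa3⟩ := gsub_facts i A
    obtain ⟨fb1, fb2, fb3⟩ := gsub_facts i B
    by_cases h : Has i (lvs A)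
    · -- the second part is not counted
      have e1 : (sub l B).countP ((fun Y => decide (G i (Tr.node A B) < G i Y)) ∘
          fun B' => Tr.node A B') = 0 := by
        rw [List.countP_eq_zero]
        intro B' _
        have h1 : Has i (lvs A ++ lvs B) := (has_append i _ _).2 (Or.inl h)
        have h2 : Has i (lvs A ++ lvs B') := (has_append i _ _).2 (Or.inl h)
        simp only [Function.comp, G, if_pos h1, if_pos h2, if_pos h]
        simp
      have e2 : (sub l A).countP ((fun Y => decide (G i (Tr.node A B) < G i Y)) ∘
          fun A' => Tr.node A' B) ≤ (sub l A).countP (fun A' => decide (G i A < G i A')) := by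
        apply List.countP_mono_left
        intro A' hA' hc
        have hlen := gsub_len l A A' hA'
        obtain ⟨c1, c2, c3⟩ := gsub_facts i A'
        have h1 : Has i (lvs A ++ lvs B) := (has_append i _ _).2 (Or.inl h)
        simp only [Function.comp, decide_eq_true_eq] at hc ⊢
        by_cases h2 : Has i (lvs A')
        · have h3 : Has i (lvs A' ++ lvs B) := (has_append i _ _).2 (Or.inl h2)
          simp only [G, if_pos h1, if_pos h3, if_pos h, if_pos h2] at hc
          omega
        · have := c3 h2
          have := fa2 h
          omega
      omega
    · have e1 : (sub l A).countP ((fun Y => decide (G i (Tr.node A B) < G i Y)) ∘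
          fun A' => Tr.node A' B) = 0 := by
        rw [List.countP_eq_zero]
        intro A' hA'
        have hlen := gsub_len l A A' hA'
        obtain ⟨c1, c2, c3⟩ := gsub_facts i A'
        have g1 := fa3 h
        simp only [Function.comp, decide_eq_true_eq, not_lt]
        by_cases h2 : Has i (lvs A')
        · have h3 : Has i (lvs A' ++ lvs B) := (has_append i _ _).2 (Or.inl h2)
          have := c2 h2
          simp only [G, if_pos h3, if_neg h, if_pos h2]
          omega
        · have := c3 h2
          have h5 : Has i (lvs A ++ lvs B) ↔ Has i (lvs A' ++ lvs B) := by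
            rw [has_append, has_append]
            constructor
            · rintro (h6 | h6)
              · exact absurd h6 h
              · exact Or.inr h6
            · rintro (h6 | h6)
              · exact absurd h6 h2
              · exact Or.inr h6
          by_cases h6 : Has i (lvs A ++ lvs B)
          · have h7 := h5.1 h6
            simp only [G, if_pos h6, if_pos h7, if_neg h, if_neg h2]
            omega
          · have h7 : ¬ Has i (lvs A' ++ lvs B) := fun h8 => h6 (h5.2 h8)
            simp only [G, if_neg h6, if_neg h7, if_neg h, if_neg h2]
            omega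
      have e2 : (sub l B).countP ((fun Y => decide (G i (Tr.node A B) < G i Y)) ∘
          fun B' => Tr.node A B') ≤ (sub l B).countP (fun B' => decide (G i B < G i B')) := by
        apply List.countP_mono_left
        intro B' hB' hc
        have hlen := gsub_len l B B' hB'
        obtain ⟨c1, c2, c3⟩ := gsub_facts i B'
        simp only [Function.comp, decide_eq_true_eq] at hc ⊢
        by_cases h1 : Has i (lvs B) <;> by_cases h2 : Has i (lvs B')
        · have h3 : Has i (lvs A ++ lvs B) := (has_append i _ _).2 (Or.inr h1)
          have h4 : Has i (lvs A ++ lvs B') := (has_append i _ _).2 (Or.inr h2)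
          simp only [G, if_pos h3, if_pos h4, if_neg h] at hc
          omega
        · have := c3 h2
          have := fb2 h1
          omega
        · exfalso
          have h3 : ¬ Has i (lvs A ++ lvs B) := fun h6 => by
            rcases (has_append i _ _).1 h6 with h7 | h7
            · exact h h7
            · exact h1 h7
          have h4 : Has i (lvs A ++ lvs B') := (has_append i _ _).2 (Or.inr h2)
          have := c2 h2
          have := fb3 h1
          simp only [G, if_neg h3, if_pos h4, if_neg h] at hc
          omega
        · exfalso
          have h3 : ¬ Has i (lvs A ++ lvs B) := fun h6 => by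
            rcases (has_append i _ _).1 h6 with h7 | h7
            · exact h h7
            · exact h1 h7
          have h4 : ¬ Has i (lvs A ++ lvs B') := fun h6 => by
            rcases (has_append i _ _).1 h6 with h7 | h7
            · exact h h7
            · exact h2 h7
          have := c3 h2
          have := fb3 h1
          simp only [G, if_neg h3, if_neg h4, if_neg h] at hc
          omega
      omega

end Pool.Agent.Q333.GPO
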