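import Pool.Agent.Q333.GPO.Stmts

set_option autoImplicit false

namespace Pool.Agent.Q333.GPO

private theorem taskGood_K {n : ℕ} (i : Fin n) (L : List (Lit n)) :
    m i L = 0 ↔ L.find? (fun l => decide (l.1 = i)) = some (i, true) := by
  have h0 : m i L = 0 ↔ (i, true) ∈ L ∧
      (i, false) ∉ L.takeWhile (fun l => l ≠ (i, true)) := by
    unfold m
    by_cases h : (i, true) ∈ L
    · rw [if_pos h]
      constructor
      · intro h1
        refine ⟨h, fun h2 => ?_⟩
        have h3 := List.count_pos_iff.2 h2
        omega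
      · rintro ⟨_, h2⟩
        rw [List.count_eq_zero.2 h2]
        rfl
    · rw [if_neg h]
      simp [h]
  rw [h0]
  clear h0
  induction L with
  | nil => simp
  | cons a L ih =>
    obtain ⟨j, b⟩ := a
    by_cases hj : j = i
    · subst hj
      cases b
      · simp
      · simp
    · have h1 : ((j, b) : Lit n) ≠ (i, true) := fun h => hj (congrArg Prod.fst h)
      have h2 : ((j, b) : Lit n) ≠ (i, false) := fun h => hj (congrArg Prod.fst h)
      have h3 : ((j, b) :: L).find? (fun l => decide (l.1 = i)) =
          L.find? (fun l => decide (l.1 = i)) := by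
        rw [List.find?_cons_of_neg]
        simpa using hj
      rw [h3]
      refine Iff.trans ?_ ih
      have h4 : ((j, b) :: L).takeWhile (fun l => decide (l ≠ (i, true))) =
          (j, b) :: L.takeWhile (fun l => decide (l ≠ (i, true))) :=
        List.takeWhile_cons_of_pos (decide_eq_true h1)
      rw [h4]
      simp only [List.mem_cons, h1.symm, h2.symm, false_or]

private theorem taskGood_has {n : ℕ} (i : Fin n) (L : List (Lit n)) :
    ¬ Has i L ↔ L.find? (fun l => decide (l.1 = i)) = none := by
  rw [List.find?_eq_none]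
  simp only [Has, decide_eq_true_eq, not_exists, not_and]

private theorem taskGood_B {n : ℕ} (i : Fin n) (P Q Q' : List (Lit n)) (hP : Has i P)
    (h : m i (P ++ Q) ≠ 0) : m i (P ++ Q') ≠ 0 := by
  rw [Ne, taskGood_K, List.find?_append] at h ⊢
  have h1 : P.find? (fun l => decide (l.1 = i)) ≠ none := fun h2 => (taskGood_has i P).2 h2 hP
  obtain ⟨x, hx⟩ := Option.ne_none_iff_exists'.1 h1
  rw [hx] at h ⊢
  simpa using h

private theorem taskGood_N {n : ℕ} (i : Fin n) (P Q : List (Lit n)) (hP : ¬ Has i P) :
    m i (P ++ (i, true) :: Q) = 0 := by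
  rw [taskGood_K, List.find?_append, (taskGood_has i P).1 hP]
  simp

private theorem taskGood_happ {n : ℕ} (i : Fin n) (P Q : List (Lit n)) :
    Has i (P ++ Q) ↔ Has i P ∨ Has i Q := by
  simp only [Has, List.mem_append]
  constructor
  · rintro ⟨l, h | h, h2⟩
    · exact Or.inl ⟨l, h, h2⟩
    · exact Or.inr ⟨l, h, h2⟩
  · rintro (⟨l, h, h2⟩ | ⟨l, h, h2⟩)
    · exact ⟨l, Or.inl h, h2⟩
    · exact ⟨l, Or.inr h, h2⟩

private theorem taskGood_A {n : ℕ} (i : Fin n) (X : Tr n) : ∀ P S : List (Lit n),
    m i (P ++ (lvs X ++ S)) ≠ 0 → ¬ Has i P →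
    (ins (i, true) X).countP (fun Y => decide (m i (P ++ (lvs Y ++ S)) = 0)) = G i X := by
  induction X with
  | leaf a =>
    intro P S h hP
    have h1 : m i (P ++ ((i, true) :: (a :: S))) = 0 := taskGood_N i P _ hP
    by_cases ha : a.1 = i
    · have h2 : m i (P ++ (a :: ((i, true) :: S))) ≠ 0 := by
        have h3 : P ++ (a :: ((i, true) :: S)) = (P ++ [a]) ++ ((i, true) :: S) := by simp
        rw [h3]
        refine taskGood_B i (P ++ [a]) S _ ?_ ?_
        · rw [taskGood_happ]
          exact Or.inr ⟨a, by simp, ha⟩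
        · simpa [lvs] using h
      simp [ins, lvs, G, h1, h2, ha]
    · have h2 : m i (P ++ (a :: ((i, true) :: S))) = 0 := by
        have h3 : P ++ (a :: ((i, true) :: S)) = (P ++ [a]) ++ ((i, true) :: S) := by simp
        rw [h3]
        refine taskGood_N i _ _ ?_
        rw [taskGood_happ]
        rintro (h4 | ⟨l, h4, h5⟩)
        · exact hP h4
        · rw [List.mem_singleton] at h4
          exact ha (h4 ▸ h5)
      simp [ins, lvs, G, h1, h2, ha]
  | node A B ihA ihB =>
    intro P S h hP
    have h1 : m i (P ++ ((i, true) :: (lvs A ++ (lvs B ++ S)))) = 0 := taskGood_N i P _ hP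
    have hAc : ((ins (i, true) A).map (fun A' => Tr.node A' B)).countP
        (fun Y => decide (m i (P ++ (lvs Y ++ S)) = 0)) = G i A := by
      rw [List.countP_map, ← ihA P (lvs B ++ S) (by simpa [lvs] using h) hP]
      refine List.countP_congr fun Y _ => ?_
      simp [lvs]
    have hBc : ((ins (i, true) B).map (fun B' => Tr.node A B')).countP
        (fun Y => decide (m i (P ++ (lvs Y ++ S)) = 0)) = if Has i (lvs A) then 0 else G i B := by
      rw [List.countP_map]
      by_cases hA : Has i (lvs A)
      · rw [if_pos hA, List.countP_eq_zero]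
        intro Y _
        have h3 : m i ((P ++ lvs A) ++ (lvs Y ++ S)) ≠ 0 := by
          refine taskGood_B i (P ++ lvs A) (lvs B ++ S) _ ?_ ?_
          · rw [taskGood_happ]
            exact Or.inr hA
          · simpa [lvs] using h
        simpa [lvs] using h3
      · rw [if_neg hA, ← ihB (P ++ lvs A) S (by simpa [lvs] using h) (by
          rw [taskGood_happ]
          rintro (h4 | h4)
          · exact hP h4
          · exact hA h4)]
        refine List.countP_congr fun Y _ => ?_
        simp [lvs]
    have h2 : m i (P ++ (lvs A ++ (lvs B ++ ((i, true) :: S)))) = 0 ↔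
        ¬ Has i (lvs A ++ lvs B) := by
      have h3 : P ++ (lvs A ++ (lvs B ++ ((i, true) :: S))) =
          (P ++ (lvs A ++ lvs B)) ++ ((i, true) :: S) := by simp
      rw [h3]
      constructor
      · intro h4 h5
        refine taskGood_B i (P ++ (lvs A ++ lvs B)) S _ ?_ ?_ h4
        · rw [taskGood_happ]
          exact Or.inr h5
        · simpa [lvs] using h
      · intro h4
        refine taskGood_N i _ _ ?_
        rw [taskGood_happ]
        rintro (h5 | h5)
        · exact hP h5
        · exact h4 h5
    unfold ins G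
    rw [List.countP_append, List.countP_append, hAc, hBc]
    by_cases hH : Has i (lvs A ++ lvs B)
    · have h4 : ¬ m i (P ++ (lvs A ++ (lvs B ++ ((i, true) :: S)))) = 0 := fun h5 => h2.1 h5 hH
      rw [if_pos hH]
      simp [lvs, h1, h4]
      omega
    · have h4 := h2.2 hH
      rw [if_neg hH]
      simp [lvs, h1, h4]
      omega

theorem taskGood : TaskGood := by
  intro n i X h
  have h1 := taskGood_A i X [] [] (by simpa using h) (by simp [Has])
  rw [← h1]
  refine List.countP_congr fun Y _ => ?_
  simp

end Pool.Agent.Q333.GPO
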