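import Pool.Agent.Q333.GPO.Stmts

set_option autoImplicit false

namespace Pool.Agent.Q333.GPO

private theorem taskGoodSub_mem {n : ℕ} (l : Lit n) (X : Tr n) :
    ∀ Y ∈ sub l X, lvs Y = lvs X ∨ l ∈ lvs Y := by
  induction X with
  | leaf a =>
    intro Y hY
    simp only [sub, List.mem_singleton] at hY
    subst hY
    right
    simp [lvs]
  | node A B hA hB =>
    intro Y hY
    simp only [sub, List.mem_cons, List.mem_append, List.mem_map] at hY
    rcases hY with rfl | ⟨A', hA', rfl⟩ | ⟨B', hB', rfl⟩
    · left; rfl
    · rcases hA A' hA' with h | h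
      · left; simp only [lvs, h]
      · right; simp only [lvs, List.mem_append]; exact Or.inl h
    · rcases hB B' hB' with h | h
      · left; simp only [lvs, h]
      · right; simp only [lvs, List.mem_append]; exact Or.inr h

private theorem taskGoodSub_left {n : ℕ} {i : Fin n} {L1 : List (Lit n)} (L2 : List (Lit n))
    (h : Expressed L1 i) : Expressed (L1 ++ L2) i := by
  obtain ⟨M1, M2, rfl, h2⟩ := h
  exact ⟨M1, M2 ++ L2, by simp, h2⟩

private theorem taskGoodSub_right {n : ℕ} {i : Fin n} {L1 L2 : List (Lit n)}
    (h0 : ¬ Has i L1) (h : Expressed L2 i) : Expressed (L1 ++ L2) i := by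
  obtain ⟨M1, M2, rfl, h2⟩ := h
  refine ⟨L1 ++ M1, M2, by simp, ?_⟩
  rw [List.mem_append]
  rintro (h3 | h3)
  · exact h0 ⟨_, h3, rfl⟩
  · exact h2 h3

private theorem taskGoodSub_noFalse {n : ℕ} {i : Fin n} {L1 : List (Lit n)}
    (h0 : (i, false) ∉ L1) (h : Has i L1) : Expressed L1 i := by
  obtain ⟨l, hl, h1⟩ := h
  have h2 : (i, true) ∈ L1 := by
    obtain ⟨a, b⟩ := l
    cases b
    · simp only at h1
      subst h1
      exact absurd hl h0
    · simp only at h1
      subst h1
      exact hl
  obtain ⟨M1, M2, h3⟩ := List.append_of_mem h2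
  refine ⟨M1, M2, h3, fun h4 => h0 ?_⟩
  rw [h3, List.mem_append]
  exact Or.inl h4

private theorem taskGoodSub_app {n : ℕ} {i : Fin n} {L1 L2 : List (Lit n)}
    (h : Expressed (L1 ++ L2) i) : Expressed L1 i ∨ (¬ Has i L1 ∧ Expressed L2 i) := by
  by_cases hE : Expressed L1 i
  · exact Or.inl hE
  right
  obtain ⟨M1, M2, h1, h2⟩ := h
  rcases List.append_eq_append_iff.1 h1 with ⟨as, h3, h4⟩ | ⟨as, h3, h4⟩
  · -- M1 = L1 ++ as
    have h5 : (i, false) ∉ L1 := fun h => h2 (by rw [h3, List.mem_append]; exact Or.inl h)
    refine ⟨fun hH => hE (taskGoodSub_noFalse h5 hH), as, M2, h4, fun h => h2 ?_⟩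
    rw [h3, List.mem_append]
    exact Or.inr h
  · -- L1 = M1 ++ as
    cases as with
    | nil =>
      rw [List.append_nil] at h3
      rw [List.nil_append] at h4
      subst h3
      refine ⟨fun hH => hE (taskGoodSub_noFalse h2 hH), [], M2, ?_, by simp⟩
      rw [← h4]; rfl
    | cons a as' =>
      rw [List.cons_append, List.cons.injEq] at h4
      exact absurd ⟨M1, as', by rw [h3, h4.1], h2⟩ hE

private theorem taskGoodSub_aux (hM : TaskM) (n : ℕ) (i : Fin n) (X : Tr n) :
    ¬ Expressed (lvs X) i →
      (sub (i, true) X).countP (fun Y => decide (m i (lvs Y) = 0)) ≤ G i X := by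
  have hM' : ∀ L : List (Lit n), m i L = 0 ↔ Expressed L i := fun L => (hM n i L).2
  induction X with
  | leaf a =>
    intro _
    refine (List.countP_le_length).trans ?_
    simp only [sub, List.length_singleton, G]
    split_ifs <;> omega
  | node A B hA hB =>
    intro hX
    have hX' : ¬ Expressed (lvs A ++ lvs B) i := hX
    have nA : ¬ Expressed (lvs A) i := fun h => hX' (taskGoodSub_left _ h)
    have e1 : (sub (i, true) A).countP
        ((fun Y => decide (m i (lvs Y) = 0)) ∘ fun A' => Tr.node A' B) =
        (sub (i, true) A).countP (fun Y => decide (m i (lvs Y) = 0)) := by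
      refine List.countP_congr fun A' hA' => ?_
      show (decide (m i (lvs A' ++ lvs B) = 0) = true) ↔ (decide (m i (lvs A') = 0) = true)
      rw [decide_eq_true_iff, decide_eq_true_iff, hM', hM']
      constructor
      · intro h
        rcases taskGoodSub_app h with h | ⟨h, h'⟩
        · exact h
        · rcases taskGoodSub_mem _ _ A' hA' with h3 | h3
          · rw [h3] at h
            exact absurd (taskGoodSub_right h h') hX'
          · exact absurd ⟨_, h3, rfl⟩ h
      · intro h
        exact taskGoodSub_left _ h
    have e2 : (sub (i, true) B).countP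
        ((fun Y => decide (m i (lvs Y) = 0)) ∘ fun B' => Tr.node A B') ≤
        if Has i (lvs A) then 0 else G i B := by
      split_ifs with hH
      · rw [Nat.le_zero, List.countP_eq_zero]
        intro B' _
        show ¬ (decide (m i (lvs A ++ lvs B') = 0) = true)
        rw [decide_eq_true_iff, hM']
        intro h
        rcases taskGoodSub_app h with h | ⟨h, -⟩
        · exact nA h
        · exact h hH
      · have nB : ¬ Expressed (lvs B) i := fun h => hX' (taskGoodSub_right hH h)
        refine le_trans (le_of_eq ?_) (hB nB)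
        refine List.countP_congr fun B' _ => ?_
        show (decide (m i (lvs A ++ lvs B') = 0) = true) ↔ (decide (m i (lvs B') = 0) = true)
        rw [decide_eq_true_iff, decide_eq_true_iff, hM', hM']
        constructor
        · intro h
          rcases taskGoodSub_app h with h | ⟨-, h⟩
          · exact absurd h nA
          · exact h
        · intro h
          exact taskGoodSub_right hH h
    have e0 : ¬ ((fun Y => decide (m i (lvs Y) = 0)) (Tr.node A B) = true) := by
      show ¬ (decide (m i (lvs (Tr.node A B)) = 0) = true)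
      rw [decide_eq_true_iff, hM']
      exact hX
    simp only [sub, G]
    rw [List.countP_cons_of_neg (p := fun Y => decide (m i (lvs Y) = 0)) e0, List.countP_append, List.countP_map, List.countP_map, e1]
    have := hA nA
    omega

theorem taskGoodSub (hM : TaskM) : TaskGoodSub := by
  intro n i X h
  exact taskGoodSub_aux hM n i X fun h2 => h ((hM n i (lvs X)).2.2 h2)

end Pool.Agent.Q333.GPO
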