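import Pool.Agent.Q333.GPO.Stmts

set_option autoImplicit false

open scoped ENNReal

namespace Pool.Agent.Q333.GPO

private theorem taskGrow_unif {α : Type} {L : List α} {h : L ≠ []} {a : α}
    (ha : unif L h a ≠ 0) : a ∈ L := by
  classical
  have h1 : a ∈ (unif L h).support := (PMF.mem_support_iff _ _).2 ha
  unfold unif at h1
  rw [PMF.mem_support_ofMultiset_iff] at h1
  simpa using h1

private theorem taskGrow_hvl (hsize : TaskSize) {n : ℕ} [NeZero n] (X Z : Tree n)
    (h : hvl X Z ≠ 0) : size Z ≤ size X + 1 := by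
  have h1 : Z ∈ (hvl X).support := (PMF.mem_support_iff _ _).2 h
  cases X with
  | none =>
    have h2 : hvl (none : Tree n) =
      (PMF.uniformOfFintype (Lit n)).map fun l => some (.leaf l) := rfl
    rw [h2, PMF.mem_support_map_iff] at h1
    obtain ⟨l, -, rfl⟩ := h1
    show 1 ≤ 0 + 1
    omega
  | some X =>
    have h2 : hvl (some X) = (PMF.uniformOfFintype (Fin 3)).bind fun c =>
      if c = 0 then (PMF.uniformOfFintype (Lit n)).bind fun l => (unif (ins l X) (ins_ne l X)).map some
      else if c = 1 then unif (del X) (del_ne X)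
      else (PMF.uniformOfFintype (Lit n)).bind fun l => (unif (sub l X) (sub_ne l X)).map some := rfl
    rw [h2, PMF.mem_support_bind_iff] at h1
    obtain ⟨c, -, hc⟩ := h1
    obtain ⟨s1, s2, s3⟩ := hsize n X
    have hX : size (some X) = (lvs X).length := rfl
    split_ifs at hc with c0 c1
    · rw [PMF.mem_support_bind_iff] at hc
      obtain ⟨l, -, hl⟩ := hc
      rw [PMF.mem_support_map_iff] at hl
      obtain ⟨Y, hY, rfl⟩ := hl
      have h3 := s1 l Y (taskGrow_unif ((PMF.mem_support_iff _ _).1 hY))
      have h4 : size (some Y) = (lvs Y).length := rfl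
      omega
    · have h3 := s3 Z (taskGrow_unif ((PMF.mem_support_iff _ _).1 hc))
      omega
    · rw [PMF.mem_support_bind_iff] at hc
      obtain ⟨l, -, hl⟩ := hc
      rw [PMF.mem_support_map_iff] at hl
      obtain ⟨Y, hY, rfl⟩ := hl
      have h3 := s2 l Y (taskGrow_unif ((PMF.mem_support_iff _ _).1 hY))
      have h4 : size (some Y) = (lvs Y).length := rfl
      omega

theorem taskGrow (_hlen : TaskLen) (hsize : TaskSize) : TaskGrow := by
  intro n _ k
  induction k with
  | zero =>
    intro X Y h
    have h1 : Y ∈ (PMF.pure X).support := (PMF.mem_support_iff _ _).2 h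
    rw [PMF.mem_support_pure_iff] at h1
    rw [h1]
    omega
  | succ k ih =>
    intro X Y h
    have h1 : Y ∈ ((hvl X).bind (hvlK k)).support := (PMF.mem_support_iff _ _).2 h
    rw [PMF.mem_support_bind_iff] at h1
    obtain ⟨Z, hZ, hY⟩ := h1
    have h2 := taskGrow_hvl hsize X Z ((PMF.mem_support_iff _ _).1 hZ)
    have h3 := ih Z Y ((PMF.mem_support_iff _ _).1 hY)
    omega

end Pool.Agent.Q333.GPO
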