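import Pool.Agent.Q333.GPO.Stmts

/-! Proof of `TaskHvl` (blueprint of helper333), by helper59. -/

set_option autoImplicit false

open scoped ENNReal

namespace Pool.Agent.Q333.GPO

private theorem taskHvl_unif (α : Type) [Fintype α] [Nonempty α] (ψ : α → ℝ≥0∞) :
    E (PMF.uniformOfFintype α) ψ = (∑ a, ψ a) / Fintype.card α := by
  classical
  unfold E
  rw [tsum_fintype]
  simp only [PMF.uniformOfFintype_apply]
  rw [← Finset.mul_sum, ENNReal.div_eq_inv_mul]

theorem taskHvl (h1 : TaskUnif) (h2 : TaskEBind) : TaskHvl := by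
  intro n _ X φ
  obtain ⟨hb, hm, hp⟩ := h2
  have hc : ((Fintype.card (Lit n) : ℕ) : ℝ≥0∞) = 2 * n := by
    rw [Fintype.card_prod, Fintype.card_fin, Fintype.card_bool]
    push_cast
    ring
  have hi : E ((PMF.uniformOfFintype (Lit n)).bind
      fun l => (unif (ins l X) (ins_ne l X)).map some) φ =
      (∑ l : Lit n, ((ins l X).map fun Y => φ (some Y)).sum / (ins l X).length) / (2 * n) := by
    rw [hb, taskHvl_unif, hc]
    congr 1
    apply Finset.sum_congr rfl
    intro l _
    rw [hm, h1]
  have hs : E ((PMF.uniformOfFintype (Lit n)).bind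
      fun l => (unif (sub l X) (sub_ne l X)).map some) φ =
      (∑ l : Lit n, ((sub l X).map fun Y => φ (some Y)).sum / (sub l X).length) / (2 * n) := by
    rw [hb, taskHvl_unif, hc]
    congr 1
    apply Finset.sum_congr rfl
    intro l _
    rw [hm, h1]
  have hd : E (unif (del X) (del_ne X)) φ = ((del X).map φ).sum / (del X).length := h1 _ _ _ _
  unfold hvl
  rw [hb, taskHvl_unif, Fin.sum_univ_three]
  simp only [if_true, one_ne_zero, if_false, Fin.reduceEq, Fintype.card_fin]
  rw [hi, hs, hd, ENNReal.div_eq_inv_mul]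
  norm_cast

end Pool.Agent.Q333.GPO
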