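import Pool.Agent.Q333.GPO.Stmts

/-!
# The expectation after one application of HVL-Prime to the empty tree
-/

set_option autoImplicit false

open scoped ENNReal

namespace Pool.Agent.Q333.GPO

private theorem taskHvl0_map {α β : Type} (p : PMF α) (f : α → β) (φ : β → ℝ≥0∞) :
    E (p.map f) φ = E p fun a => φ (f a) := by
  classical
  unfold E
  simp_rw [PMF.map_apply, ← ENNReal.tsum_mul_right]
  rw [ENNReal.tsum_comm]
  refine tsum_congr fun a => ?_
  rw [tsum_eq_single (f a)]
  · simp
  · intro b hb
    simp [hb]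

theorem taskHvl0 : TaskHvl0 := by
  intro n _ φ
  unfold hvl
  rw [taskHvl0_map]
  unfold E
  rw [tsum_fintype]
  have hcard : (Fintype.card (Lit n) : ℝ≥0∞) = 2 * n := by
    simp [Lit, Fintype.card_prod, mul_comm]
  simp_rw [PMF.uniformOfFintype_apply, hcard]
  rw [← Finset.mul_sum, ENNReal.div_eq_inv_mul]

end Pool.Agent.Q333.GPO
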