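import Pool.Agent.Q333.GPO.Stmts

set_option autoImplicit false

namespace Pool.Agent.Q333.GPO

theorem taskInsL : TaskInsL := by
  intro n l X
  induction X with
  | leaf a =>
    intro Y hY
    simp only [ins, List.mem_cons, List.not_mem_nil, or_false] at hY
    rcases hY with rfl | rfl
    · exact ⟨[], [a], by simp [lvs], by simp [lvs]⟩
    · exact ⟨[a], [], by simp [lvs], by simp [lvs]⟩
  | node A B ihA ihB =>
    intro Y hY
    simp only [ins, List.mem_append, List.mem_cons, List.not_mem_nil, or_false, List.mem_map] at hY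
    rcases hY with (rfl | rfl) | ⟨A', hA', rfl⟩ | ⟨B', hB', rfl⟩
    · exact ⟨[], lvs A ++ lvs B, by simp [lvs], by simp [lvs]⟩
    · exact ⟨lvs A ++ lvs B, [], by simp [lvs], by simp [lvs]⟩
    · obtain ⟨L1, L2, h1, h2⟩ := ihA A' hA'
      refine ⟨L1, L2 ++ lvs B, ?_, ?_⟩
      · simp only [lvs, h1, List.append_assoc]
      · simp only [lvs, h2, List.append_assoc, List.cons_append]
    · obtain ⟨L1, L2, h1, h2⟩ := ihB B' hB'
      refine ⟨lvs A ++ L1, L2, ?_, ?_⟩
      · simp only [lvs, h1, List.append_assoc]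
      · simp only [lvs, h2, List.append_assoc]

end Pool.Agent.Q333.GPO
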