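import Pool.Agent.Q333.GPO.Stmts

set_option autoImplicit false

namespace Pool.Agent.Q333.GPO

theorem taskLen : TaskLen := by
  intro n X
  induction X with
  | leaf a => simp [lvs, ins, sub, del]
  | node A B hA hB =>
    obtain ⟨a1, a2, a3, a4⟩ := hA
    obtain ⟨b1, b2, b3, b4⟩ := hB
    refine ⟨?_, fun l => ?_, fun l => ?_, ?_⟩
    · simp only [lvs, List.length_append]
      omega
    · have h1 := a2 l
      have h2 := b2 l
      simp only [lvs, ins, List.length_append, List.length_cons, List.length_nil, List.length_map]
      omega
    · have h1 := a3 l
      have h2 := b3 l
      simp only [lvs, sub, List.length_append, List.length_cons, List.length_map]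
      omega
    · simp only [lvs, del, List.length_append, List.length_map]
      omega

end Pool.Agent.Q333.GPO
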