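import Pool.Agent.Q333.GPO.Stmts

set_option autoImplicit false

open scoped ENNReal

namespace Pool.Agent.Q333.GPO

private theorem taskLow_num : (1 : ℝ≥0∞) ≤ 1 / 12 * 1600 := by
  have h : (1 : ℝ≥0∞) / 12 * 1600 = 1600 / 12 := by
    rw [one_div, mul_comm, ← div_eq_mul_inv]
  rw [h, ENNReal.le_div_iff_mul_le (Or.inl (by norm_num)) (Or.inl (by norm_num))]
  norm_num

theorem taskLow (hSumG : TaskSumG) (hBig : TaskBigIns) (hSmall : TaskSmall) (_hU : TaskU) :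
    TaskLow := by
  intro n _ X hX
  cases X with
  | none =>
    have h0 : size (none : Tree n) = 0 := rfl
    refine le_trans ?_ (hSmall n none hX (Or.inr h0))
    rw [h0]
    apply ENNReal.div_le_of_le_mul
    have hU : U (none : Tree n) ≤ n := Nat.sub_le _ _
    have hU' : ((U (none : Tree n) : ℕ) : ℝ≥0∞) ≤ (n : ℝ≥0∞) := by exact_mod_cast hU
    calc ((U (none : Tree n) : ℕ) : ℝ≥0∞) ^ 2 ≤ (n : ℝ≥0∞) ^ 2 := pow_le_pow_left' hU' 2
      _ = 1 * ((n : ℝ≥0∞) ^ 2) := (one_mul _).symm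
      _ ≤ (1 / 12 * 1600) * ((n : ℝ≥0∞) ^ 2) := mul_le_mul_left taskLow_num _
      _ = 1 / 12 * (1600 * (n : ℝ≥0∞) * (((0 : ℕ) : ℝ≥0∞) + n)) := by
        rw [Nat.cast_zero, zero_add]; ring
  | some Y =>
    have h1 := hSumG n Y
    have h2 := hBig n Y
    have h3 : ∑ i ∈ Finset.univ.filter (fun i : Fin n => m i (lvs Y) ≠ 0),
        (G i Y : ℝ≥0∞) / (n * ((lvs Y).length + 1)) =
        ∑ i ∈ Finset.univ.filter (fun i : Fin n => m i (lvs Y) ≠ 0), R1 i (some Y) := rfl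
    rw [h3] at h1
    have h4 := h1.trans h2
    have h5 : (size (some Y) : ℝ≥0∞) = ((lvs Y).length : ℝ≥0∞) := rfl
    rw [h5]
    have h6 : (1600 : ℝ≥0∞) * n * (((lvs Y).length : ℝ≥0∞) + n) =
        100 * (16 * n * (((lvs Y).length : ℝ≥0∞) + n)) := by ring
    rw [h6, div_eq_mul_inv, ENNReal.mul_inv (Or.inl (by norm_num)) (Or.inl (by norm_num))]
    calc ((U (some Y) : ℕ) : ℝ≥0∞) ^ 2 * (100⁻¹ * (16 * n * (((lvs Y).length : ℝ≥0∞) + n))⁻¹) =
        (((U (some Y) : ℕ) : ℝ≥0∞) ^ 2 / (16 * n * (((lvs Y).length : ℝ≥0∞) + n))) / 100 := by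
          rw [div_eq_mul_inv, div_eq_mul_inv]; ring
      _ ≤ pimp 1 (some Y) := ENNReal.div_le_of_le_mul (le_trans h4 (le_of_eq (mul_comm _ _)))

end Pool.Agent.Q333.GPO
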