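import Pool.Agent.Q333.GPO.Stmts

set_option autoImplicit false

open scoped ENNReal

namespace Pool.Agent.Q333.GPO

theorem taskLyap_fit {n : ℕ} (X : Tree n) : fit X ≤ n := by
  classical
  unfold fit
  refine (Finset.card_filter_le _ _).trans ?_
  simp

theorem taskLyap_partial {n : ℕ} [NeZero n] (φ : Tree n → ℝ≥0∞)
    (h : ∀ X : Tree n, fit X < n → 1 + E (step X) φ ≤ φ X) (T : ℕ) :
    ∀ X : Tree n, ∑ s ∈ Finset.range T, notYet s X ≤ φ X := by
  induction T with
  | zero => intro X; simp
  | succ T ih =>
    intro X
    rw [Finset.sum_range_succ']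
    by_cases hX : fit X = n
    · have h1 : ∀ s, notYet (s + 1) X = 0 := fun s => by simp [notYet, hX]
      have h2 : notYet 0 X = 0 := by simp [notYet, hX]
      simp [h1, h2]
    · have hlt : fit X < n := lt_of_le_of_ne (taskLyap_fit X) hX
      have h1 : ∀ s, notYet (s + 1) X = ∑' Y, step X Y * notYet s Y := fun s => by
        simp [notYet, hX]
      have h2 : notYet 0 X = 1 := by simp [notYet, hX]
      have h3 : ∑ s ∈ Finset.range T, notYet (s + 1) X ≤ E (step X) φ := by
        calc ∑ s ∈ Finset.range T, notYet (s + 1) X
            = ∑ s ∈ Finset.range T, ∑' Y, step X Y * notYet s Y := by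
              exact Finset.sum_congr rfl fun s _ => h1 s
          _ = ∑' Y, ∑ s ∈ Finset.range T, step X Y * notYet s Y :=
              (Summable.tsum_finsetSum fun _ _ => ENNReal.summable).symm
          _ ≤ ∑' Y, step X Y * φ Y := by
              refine ENNReal.tsum_le_tsum fun Y => ?_
              rw [← Finset.mul_sum]
              exact mul_le_mul_right (ih Y) _
          _ = E (step X) φ := rfl
      rw [h2, add_comm]
      exact (add_le_add_right h3 1).trans (h X hlt)

theorem taskLyap : TaskLyap := by
  intro n _ φ h X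
  unfold expTime
  rw [ENNReal.tsum_eq_iSup_nat]
  exact iSup_le fun T => taskLyap_partial φ h T X

end Pool.Agent.Q333.GPO
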