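import Pool.Agent.Q333.GPO.Stmts

set_option autoImplicit false

namespace Pool.Agent.Q333.GPO

private theorem taskM_sub {n : ℕ} (i : Fin n) (L1 L2 : List (Lit n)) :
    ∀ a ∈ (L1 ++ (i, true) :: L2).takeWhile (fun l => decide (l ≠ (i, true))), a ∈ L1 := by
  induction L1 with
  | nil => intro a ha; simp at ha
  | cons b L1 ih =>
    intro a ha
    rw [List.cons_append, List.takeWhile_cons] at ha
    split at ha
    · rcases List.mem_cons.1 ha with h | h
      · rw [h]; exact List.mem_cons_self
      · exact List.mem_cons_of_mem _ (ih a h)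
    · simp at ha

private theorem taskM_eq {n : ℕ} (i : Fin n) (L1 L2 : List (Lit n)) (h1 : (i, true) ∉ L1) :
    (L1 ++ (i, true) :: L2).takeWhile (fun l => decide (l ≠ (i, true))) = L1 := by
  induction L1 with
  | nil => simp
  | cons b L1 ih =>
    have hb : b ≠ (i, true) := by
      rintro rfl
      exact h1 List.mem_cons_self
    rw [List.cons_append, List.takeWhile_cons_of_pos (by simpa using hb),
      ih (fun h => h1 (List.mem_cons_of_mem _ h))]

theorem taskM : TaskM := by
  intro n i L
  unfold m
  by_cases h : (i, true) ∈ L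
  · rw [if_pos h]
    refine ⟨min_le_left _ _, ?_⟩
    constructor
    · intro h0
      obtain ⟨L1, L2, rfl, h1⟩ := List.eq_append_cons_of_mem h
      refine ⟨L1, L2, rfl, ?_⟩
      rw [taskM_eq i L1 L2 h1] at h0
      have h2 : L1.count (i, false) = 0 := by omega
      exact List.count_eq_zero.1 h2
    · rintro ⟨L1, L2, rfl, h1⟩
      have h2 : ((L1 ++ (i, true) :: L2).takeWhile (fun l => decide (l ≠ (i, true)))).count (i, false) = 0 :=
        List.count_eq_zero.2 fun h3 => h1 (taskM_sub i L1 L2 _ h3)
      rw [h2]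
      rfl
  · rw [if_neg h]
    refine ⟨le_rfl, ⟨fun h0 => by omega, ?_⟩⟩
    rintro ⟨L1, L2, rfl, -⟩
    exact absurd (by simp) h

end Pool.Agent.Q333.GPO
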