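import Pool.Agent.Q333.GPO.Stmts

/-! MP_3edecc_lc: task MDel. -/

set_option autoImplicit false

open scoped ENNReal

namespace Pool.Agent.Q333.GPO

theorem taskMDel_nil {n : ℕ} (i : Fin n) : m i [] = 2 := by
  simp [m]

theorem taskMDel_T {n : ℕ} (i : Fin n) (L : List (Lit n)) : m i ((i, true) :: L) = 0 := by
  simp [m]

theorem taskMDel_F {n : ℕ} (i : Fin n) (L : List (Lit n)) :
    m i ((i, false) :: L) = min 2 (m i L + 1) := by
  unfold m
  by_cases h : (i, true) ∈ L
  · have h' : (i, true) ∈ (i, false) :: L := List.mem_cons_of_mem _ h
    rw [if_pos h, if_pos h', List.takeWhile_cons, if_pos (by simp), List.count_cons_self]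
    omega
  · have h' : (i, true) ∉ (i, false) :: L := by
      simp [h]
    rw [if_neg h, if_neg h']
    rfl

theorem taskMDel_X {n : ℕ} (i : Fin n) (x : Lit n) (L : List (Lit n)) (h1 : x ≠ (i, true))
    (h2 : x ≠ (i, false)) : m i (x :: L) = m i L := by
  unfold m
  by_cases h : (i, true) ∈ L
  · have h' : (i, true) ∈ x :: L := List.mem_cons_of_mem _ h
    rw [if_pos h, if_pos h', List.takeWhile_cons, if_pos (by simpa using h1),
      List.count_cons_of_ne h2]
  · have h' : (i, true) ∉ x :: L := by
      rw [List.mem_cons, not_or]
      exact ⟨fun h3 => h1 h3.symm, h⟩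
    rw [if_neg h, if_neg h']

theorem taskMDel_one {n : ℕ} (i : Fin n) (L : List (Lit n)) :
    ∀ d, m i L ≤ m i (L.eraseIdx d) + 1 := by
  induction L with
  | nil => intro d; simp
  | cons x L ih =>
    intro d
    by_cases h1 : x = (i, true)
    · subst h1
      rw [taskMDel_T]
      exact Nat.zero_le _
    by_cases h2 : x = (i, false)
    · subst h2
      cases d with
      | zero =>
        rw [List.eraseIdx_cons_zero, taskMDel_F]
        omega
      | succ d =>
        rw [List.eraseIdx_cons_succ, taskMDel_F, taskMDel_F]
        have := ih d
        omega
    · cases d with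
      | zero =>
        rw [List.eraseIdx_cons_zero, taskMDel_X i x L h1 h2]
        omega
      | succ d =>
        rw [List.eraseIdx_cons_succ, taskMDel_X i x L h1 h2, taskMDel_X i x _ h1 h2]
        exact ih d

theorem taskMDel_two {n : ℕ} (i : Fin n) (L : List (Lit n)) :
    (List.range L.length).countP (fun d => decide (m i (L.eraseIdx d) < m i L)) ≤ m i L := by
  induction L with
  | nil => simp
  | cons x L ih =>
    rw [List.length_cons, List.range_succ_eq_map, List.countP_cons, List.countP_map]
    by_cases h1 : x = (i, true)
    · subst h1
      simp [taskMDel_T]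
    by_cases h2 : x = (i, false)
    · subst h2
      by_cases hm : m i L ≤ 1
      · have e1 : (List.range L.length).countP
            ((fun d => decide (m i (((i, false) :: L).eraseIdx d) < m i ((i, false) :: L))) ∘
              Nat.succ) ≤ (List.range L.length).countP
            (fun d => decide (m i (L.eraseIdx d) < m i L)) := by
          apply List.countP_mono_left
          intro d _ hd
          simp only [Function.comp, Nat.succ_eq_add_one, List.eraseIdx_cons_succ, taskMDel_F,
            decide_eq_true_eq] at hd ⊢
          omega
        have e2 : (if decide (m i (((i, false) :: L).eraseIdx 0) < m i ((i, false) :: L)) = true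
            then 1 else 0) ≤ 1 := by split_ifs <;> omega
        rw [taskMDel_F i L] at e1 e2 ⊢
        omega
      · have e1 : (List.range L.length).countP
            ((fun d => decide (m i (((i, false) :: L).eraseIdx d) < m i ((i, false) :: L))) ∘
              Nat.succ) = 0 := by
          rw [List.countP_eq_zero]
          intro d _ hd
          simp only [Function.comp, Nat.succ_eq_add_one, List.eraseIdx_cons_succ, taskMDel_F,
            decide_eq_true_eq] at hd
          have := taskMDel_one i L d
          omega
        have e2 : (if decide (m i (((i, false) :: L).eraseIdx 0) < m i ((i, false) :: L)) = true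
            then 1 else 0) ≤ 1 := by split_ifs <;> omega
        rw [taskMDel_F i L] at e1 e2 ⊢
        omega
    · have e1 : (List.range L.length).countP
          ((fun d => decide (m i ((x :: L).eraseIdx d) < m i (x :: L))) ∘ Nat.succ) =
          (List.range L.length).countP (fun d => decide (m i (L.eraseIdx d) < m i L)) := by
        apply List.countP_congr
        intro d _
        simp only [Function.comp, Nat.succ_eq_add_one, List.eraseIdx_cons_succ,
          taskMDel_X i x _ h1 h2]
      have e2 : (if decide (m i ((x :: L).eraseIdx 0) < m i (x :: L)) = true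
          then 1 else 0) = 0 := by
        rw [List.eraseIdx_cons_zero, taskMDel_X i x L h1 h2]
        simp
      rw [e1, e2, taskMDel_X i x L h1 h2]
      omega

theorem taskMDel_le {n : ℕ} (i : Fin n) (L : List (Lit n)) : m i L ≤ 2 := by
  unfold m
  split_ifs
  · exact min_le_left _ _
  · exact le_rfl

theorem taskMDel : TaskMDel := by
  intro n i L
  exact ⟨taskMDel_one i L, (taskMDel_two i L).trans (taskMDel_le i L)⟩

end Pool.Agent.Q333.GPO
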