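import Pool.Agent.Q333.GPO.Stmts

set_option autoImplicit false

namespace Pool.Agent.Q333.GPO

private theorem taskMIns_sub {α : Type} (p : α → Bool) (l : α) (hl : p l = true) (L1 L2 : List α) :
    ((L1 ++ L2).takeWhile p).Sublist ((L1 ++ l :: L2).takeWhile p) := by
  induction L1 with
  | nil =>
    rw [List.nil_append, List.nil_append, List.takeWhile_cons_of_pos hl]
    exact List.sublist_cons_self _ _
  | cons a L1 ih =>
    rw [List.cons_append, List.cons_append]
    by_cases ha : p a = true
    · rw [List.takeWhile_cons_of_pos ha, List.takeWhile_cons_of_pos ha]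
      exact ih.cons_cons a
    · rw [List.takeWhile_cons_of_neg ha, List.takeWhile_cons_of_neg ha]

theorem taskMIns : TaskMIns := by
  intro n i l L1 L2 hl
  have h1 : (i, true) ∈ L1 ++ l :: L2 ↔ (i, true) ∈ L1 ++ L2 := by
    rw [List.mem_append, List.mem_append, List.mem_cons]
    constructor
    · rintro (h | h | h)
      · exact Or.inl h
      · exact absurd h.symm hl
      · exact Or.inr h
    · rintro (h | h)
      · exact Or.inl h
      · exact Or.inr (Or.inr h)
  unfold m
  simp only [h1]
  split_ifs with h
  · exact min_le_min_left 2 ((taskMIns_sub _ l (by simpa using hl) L1 L2).count_le _)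
  · exact le_rfl

end Pool.Agent.Q333.GPO
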