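import Pool.Agent.Q333.GPO.Stmts

set_option autoImplicit false

open scoped ENNReal

namespace Pool.Agent.Q333.GPO

private theorem mset_nil {n : ℕ} (i : Fin n) : m i ([] : List (Lit n)) = 2 := by simp [m]

private theorem mset_T {n : ℕ} (i : Fin n) (L : List (Lit n)) : m i ((i, true) :: L) = 0 := by
  simp [m]

private theorem mset_F {n : ℕ} (i : Fin n) (L : List (Lit n)) :
    m i ((i, false) :: L) = min 2 (m i L + 1) := by
  unfold m
  by_cases hT : ((i, true) : Lit n) ∈ L
  · have h1 : ((i, true) : Lit n) ∈ ((i, false) : Lit n) :: L := List.mem_cons_of_mem _ hT
    rw [if_pos h1, if_pos hT, List.takeWhile_cons_of_pos (by simp), List.count_cons_self]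
    omega
  · have h1 : ((i, true) : Lit n) ∉ ((i, false) : Lit n) :: L := by
      intro h
      rcases List.mem_cons.1 h with h | h
      · simp at h
      · exact hT h
    rw [if_neg h1, if_neg hT]
    omega

private theorem mset_o {n : ℕ} (i : Fin n) (a : Lit n) (L : List (Lit n)) (h1 : a ≠ (i, true))
    (h2 : a ≠ (i, false)) : m i (a :: L) = m i L := by
  unfold m
  by_cases hT : ((i, true) : Lit n) ∈ L
  · have h3 : ((i, true) : Lit n) ∈ a :: L := List.mem_cons_of_mem _ hT
    rw [if_pos h3, if_pos hT, List.takeWhile_cons_of_pos (by simpa using h1),
      List.count_cons_of_ne h2]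
  · have h3 : ((i, true) : Lit n) ∉ a :: L := by
      intro h
      rcases List.mem_cons.1 h with h | h
      · exact h1 h.symm
      · exact hT h
    rw [if_neg h3, if_neg hT]

private theorem mset_le {n : ℕ} (i : Fin n) (L : List (Lit n)) : m i L ≤ 2 := by
  unfold m
  split_ifs
  · exact min_le_left _ _
  · exact le_refl _

private theorem mset_ge {n : ℕ} (i : Fin n) (l : Lit n) (L : List (Lit n)) (h1 : l ≠ (i, true)) :
    m i L ≤ m i (l :: L) := by
  by_cases h2 : l = (i, false)
  · subst h2
    rw [mset_F]
    have := mset_le i L
    omega
  · rw [mset_o i l L h1 h2]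

private theorem mset_one {n : ℕ} (i : Fin n) (l : Lit n) (hl : l ≠ (i, true)) :
    ∀ (L : List (Lit n)) (d : ℕ), m i L ≤ m i (L.set d l) + 1 := by
  intro L
  induction L with
  | nil => intro d; simp
  | cons a L ih =>
    intro d
    by_cases ha : a = (i, true)
    · subst ha; rw [mset_T]; omega
    cases d with
    | zero =>
      rw [List.set_cons_zero]
      have h1 := mset_ge i l L hl
      by_cases ha2 : a = (i, false)
      · subst ha2; rw [mset_F]; omega
      · rw [mset_o i a L ha ha2]; omega
    | succ d =>
      rw [List.set_cons_succ]
      have h1 := ih d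
      by_cases ha2 : a = (i, false)
      · subst ha2; rw [mset_F, mset_F]; omega
      · rw [mset_o i a L ha ha2, mset_o i a _ ha ha2]; omega

private theorem mset_cnt {n : ℕ} (i : Fin n) (l : Lit n) (hl : l ≠ (i, true)) :
    ∀ (L : List (Lit n)),
      (List.range L.length).countP (fun d => decide (m i (L.set d l) < m i L)) ≤ m i L := by
  intro L
  induction L with
  | nil => simp
  | cons a L ih =>
    by_cases ha : a = (i, true)
    · subst ha
      rw [mset_T]
      simp
    rw [List.length_cons, List.range_succ_eq_map, List.countP_cons, List.countP_map]
    have h1 := mset_ge i l L hl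
    have h2 := mset_le i L
    by_cases ha2 : a = (i, false)
    · subst ha2
      have e1 : ((fun d => decide (m i ((((i, false) : Lit n) :: L).set d l) <
          m i (((i, false) : Lit n) :: L))) ∘ Nat.succ) =
          fun d => decide (min 2 (m i (L.set d l) + 1) < min 2 (m i L + 1)) := by
        funext d
        simp only [Function.comp, Nat.succ_eq_add_one, List.set_cons_succ, mset_F]
      rw [e1, List.set_cons_zero, mset_F]
      by_cases h0 : m i L = 0
      · have e2 : (List.range L.length).countP
            (fun d => decide (min 2 (m i (L.set d l) + 1) < min 2 (m i L + 1))) = 0 := by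
          rw [List.countP_eq_zero]
          intro d _
          simp only [decide_eq_true_eq, not_lt]
          omega
        rw [e2, h0]
        split_ifs <;> simp
      · by_cases h3 : m i L = 1
        · have e2 : (List.range L.length).countP
            (fun d => decide (min 2 (m i (L.set d l) + 1) < min 2 (m i L + 1))) ≤
              (List.range L.length).countP (fun d => decide (m i (L.set d l) < m i L)) := by
            apply List.countP_mono_left
            intro d _ hd
            simp only [decide_eq_true_eq] at hd ⊢
            omega
          have e3 : min 2 (m i L + 1) = 2 := by omega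
          rw [e3] at e2 ⊢
          split_ifs <;> omega
        · have h4 : m i L = 2 := by omega
          have e2 : (List.range L.length).countP
              (fun d => decide (min 2 (m i (L.set d l) + 1) < min 2 (m i L + 1))) = 0 := by
            rw [List.countP_eq_zero]
            intro d _
            have := mset_one i l hl L d
            simp only [decide_eq_true_eq, not_lt]
            omega
          rw [e2]
          split_ifs <;> omega
    · have e1 : ((fun d => decide (m i ((a :: L).set d l) < m i (a :: L))) ∘ Nat.succ) =
          fun d => decide (m i (L.set d l) < m i L) := by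
        funext d
        simp only [Function.comp, Nat.succ_eq_add_one, List.set_cons_succ, mset_o i a _ ha ha2]
      rw [e1, List.set_cons_zero, mset_o i a L ha ha2]
      have e3 : ¬ (m i (l :: L) < m i L) := by omega
      simp only [e3, decide_false, Bool.false_eq_true, if_false, add_zero]
      exact ih

theorem taskMSet : TaskMSet := by
  intro n i l L hl
  exact ⟨fun d => mset_one i l hl L d, (mset_cnt i l hl L).trans (mset_le i L)⟩

end Pool.Agent.Q333.GPO
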