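import Pool.Agent.Q333.GPO.Stmts

set_option autoImplicit false

open scoped ENNReal

namespace Pool.Agent.Q333.GPO

theorem taskMain (hLy : TaskLyap) (hD : TaskDrift) (hPB : TaskPhiB) (hU : TaskU) : TaskMain := by
  obtain ⟨B, D, h⟩ := hD
  refine ⟨D * (3 * B + 3), ?_⟩
  intro n _ X
  refine (hLy n _ (h n) X).trans ?_
  have hUX := (hU n X).1
  have h2 := (hPB n B D (U X) (size X) (by omega)).2
  refine (ENNReal.ofReal_le_ofReal h2).trans (le_of_eq ?_)
  rw [ENNReal.ofReal_mul (by positivity), ENNReal.ofReal_mul (by positivity),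
    ENNReal.ofReal_add (by positivity) (by positivity), ENNReal.ofReal_add (by positivity) (by positivity),
    ENNReal.ofReal_mul (by positivity), ENNReal.ofReal_mul (by positivity),
    ENNReal.ofReal_pow (by positivity)]
  simp only [ENNReal.ofReal_natCast]
  norm_num
end Pool.Agent.Q333.GPO
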