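import Pool.Agent.Q333.GPO.Stmts

set_option autoImplicit false

open scoped ENNReal

namespace Pool.Agent.Q333.GPO

private theorem taskP_le_one {n : ℕ} [NeZero n] (k : ℕ) (X : Tree n) : pimp k X ≤ 1 := by
  classical
  unfold pimp E
  calc ∑' a, hvlK k X a * (if fit X < fit a then (1 : ℝ≥0∞) else 0)
      ≤ ∑' a, hvlK k X a := by
        refine ENNReal.tsum_le_tsum fun a => ?_
        split_ifs
        · rw [mul_one]
        · rw [mul_zero]; exact bot_le
    _ = 1 := (hvlK k X).tsum_coe

theorem taskP (hU : TaskUnion) (hS : TaskSmall) (hI : TaskBigIns) (hD : TaskBigDel)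
    (hT : TaskTwo) (hM : TaskM) : TaskP := by
  classical
  intro n _ k X hX
  by_cases hsm : 2 * size X < n ∨ size X = 0
  · have h1 := hS n X hX hsm
    have h2 : (1 : ℝ≥0∞) ≤ 200 ^ k := one_le_pow₀ (by norm_num)
    have h12 : (1 : ℝ≥0∞) ≤ 1000 * (1 / 12) := by
      rw [one_div, ← div_eq_mul_inv, ENNReal.le_div_iff_mul_le (Or.inl (by norm_num)) (Or.inl (by norm_num))]
      norm_num
    calc pimp k X ≤ 1 := taskP_le_one k X
      _ ≤ 1000 * (1 / 12) := h12
      _ = 1000 * 1 * (1 / 12) := by rw [mul_one]
      _ ≤ 1000 * 200 ^ k * pimp 1 X := by gcongr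
  · push Not at hsm
    obtain ⟨hs1, hs2⟩ := hsm
    cases X with
    | none => exact absurd rfl hs2
    | some X =>
      have hu := hU n k (some X)
      have hlen : n ≤ 2 * (lvs X).length := hs1
      set F := Finset.univ.filter (fun i : Fin n => m i (lvs X) ≠ 0) with hF
      have hR1 := hI n X
      have hR2 := hD n X
      have hsplit : ∑ i ∈ F, R2 i (some X) ≤ 300 * pimp 1 (some X) := by
        have e1 : ∑ i ∈ F, R2 i (some X) =
            ∑ i ∈ F.filter (fun i => m i (lvs X) = 1), R2 i (some X) +
            ∑ i ∈ F.filter (fun i => ¬ m i (lvs X) = 1), R2 i (some X) :=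
          (Finset.sum_filter_add_sum_filter_not _ _ _).symm
        have e2 : ∑ i ∈ F.filter (fun i => m i (lvs X) = 1), R2 i (some X) ≤
            100 * pimp 1 (some X) := by
          refine le_trans (Finset.sum_le_sum_of_subset ?_) hR2
          intro i hi
          rw [Finset.mem_filter] at hi ⊢
          exact ⟨Finset.mem_univ _, hi.2⟩
        have e3 : ∑ i ∈ F.filter (fun i => ¬ m i (lvs X) = 1), R2 i (some X) ≤
            2 * (100 * pimp 1 (some X)) := by
          refine le_trans ?_ (mul_le_mul_right hR1 2)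
          rw [Finset.mul_sum]
          refine le_trans (Finset.sum_le_sum fun i hi => ?_)
            (Finset.sum_le_sum_of_subset (Finset.filter_subset _ _))
          rw [Finset.mem_filter, hF, Finset.mem_filter] at hi
          have h2 := (hM n i (lvs X)).1
          refine hT n X i hlen ?_
          omega
        rw [e1]
        calc _ ≤ 100 * pimp 1 (some X) + 2 * (100 * pimp 1 (some X)) := add_le_add e2 e3
          _ = 300 * pimp 1 (some X) := by ring
      have hu' : pimp k (some X) ≤ ∑ i ∈ F, 200 ^ k * (R1 i (some X) + R2 i (some X)) := hu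
      rw [← Finset.mul_sum, Finset.sum_add_distrib] at hu'
      calc pimp k (some X) ≤ 200 ^ k * (∑ i ∈ F, R1 i (some X) + ∑ i ∈ F, R2 i (some X)) := hu'
        _ ≤ 200 ^ k * (100 * pimp 1 (some X) + 300 * pimp 1 (some X)) := by gcongr
        _ = 400 * 200 ^ k * pimp 1 (some X) := by ring
        _ ≤ 1000 * 200 ^ k * pimp 1 (some X) := by
            gcongr
            norm_num

end Pool.Agent.Q333.GPO
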