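import Pool.Agent.Q333.GPO.Stmts

/-! TaskPhi (helper135). -/

set_option autoImplicit false

namespace Pool.Agent.Q333.GPO

private lemma taskPhi_sq (m : ℕ) :
    ∑ j ∈ Finset.Icc 1 (m + 1), (1 : ℝ) / (j : ℝ) ^ 2 ≤ 2 - 1 / ((m : ℝ) + 1) := by
  induction m with
  | zero => norm_num
  | succ m ih =>
    rw [Finset.sum_Icc_succ_top (by omega)]
    have h : (1 : ℝ) / ((m + 1 + 1 : ℕ) : ℝ) ^ 2 ≤ 1 / ((m : ℝ) + 1) - 1 / (((m + 1 : ℕ) : ℝ) + 1) := by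
      push_cast
      rw [div_sub_div _ _ (by positivity) (by positivity), div_le_div_iff₀ (by positivity)
        (by positivity)]
      nlinarith [sq_nonneg ((m : ℝ) + 1)]
    linarith

private lemma taskPhi_sq2 (m : ℕ) : ∑ j ∈ Finset.Icc 1 m, (1 : ℝ) / (j : ℝ) ^ 2 ≤ 2 := by
  rcases m with _ | m
  · simp
  · have h1 := taskPhi_sq m
    have h2 : (0 : ℝ) < 1 / ((m : ℝ) + 1) := by positivity
    linarith

theorem taskPhi : TaskPhi := by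
  intro n B D u u' s s' k hn hu hun hs
  obtain ⟨v, rfl⟩ : ∃ v, u = v + 1 := ⟨u - 1, by omega⟩
  have hsR : (s' : ℝ) ≤ s + k := by exact_mod_cast hs
  have huR : (u' : ℝ) + 1 ≤ ((v + 1 : ℕ) : ℝ) := by exact_mod_cast hu
  have hk0 : (0 : ℝ) ≤ k := Nat.cast_nonneg k
  have hB0 : (0 : ℝ) ≤ B := Nat.cast_nonneg B
  have hDn : (0 : ℝ) ≤ D * n := by positivity
  -- the sums
  have h1 : ∑ j ∈ Finset.Icc 1 u', ((s' : ℝ) + n + B * ((u' : ℝ) - j)) / (j : ℝ) ^ 2 ≤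
      ∑ j ∈ Finset.Icc 1 u', (((s : ℝ) + n + B * (((v + 1 : ℕ) : ℝ) - j)) / (j : ℝ) ^ 2 +
        k * (1 / (j : ℝ) ^ 2)) := by
    refine Finset.sum_le_sum fun j hj => ?_
    have hj1 : (0 : ℝ) < (j : ℝ) ^ 2 := by
      have : 1 ≤ j := (Finset.mem_Icc.1 hj).1
      positivity
    rw [mul_one_div, ← add_div]
    refine div_le_div_of_nonneg_right ?_ hj1.le
    have : (B : ℝ) * ((u' : ℝ) - j) ≤ B * (((v + 1 : ℕ) : ℝ) - j) :=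
      mul_le_mul_of_nonneg_left (by linarith) hB0
    linarith
  have h2 : ∑ j ∈ Finset.Icc 1 u', ((s : ℝ) + n + B * (((v + 1 : ℕ) : ℝ) - j)) / (j : ℝ) ^ 2 ≤
      ∑ j ∈ Finset.Icc 1 v, ((s : ℝ) + n + B * (((v + 1 : ℕ) : ℝ) - j)) / (j : ℝ) ^ 2 := by
    refine Finset.sum_le_sum_of_subset_of_nonneg (Finset.Icc_subset_Icc_right (by omega)) ?_
    intro j hj _
    have hj2 : (j : ℝ) ≤ ((v + 1 : ℕ) : ℝ) := by
      exact_mod_cast (Finset.mem_Icc.1 hj).2.trans (Nat.le_succ v)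
    have : (0 : ℝ) ≤ B * (((v + 1 : ℕ) : ℝ) - j) := mul_nonneg hB0 (by linarith)
    positivity
  have h3 : ∑ j ∈ Finset.Icc 1 (v + 1), ((s : ℝ) + n + B * (((v + 1 : ℕ) : ℝ) - j)) / (j : ℝ) ^ 2 =
      ∑ j ∈ Finset.Icc 1 v, ((s : ℝ) + n + B * (((v + 1 : ℕ) : ℝ) - j)) / (j : ℝ) ^ 2 +
        ((s : ℝ) + n) / ((v + 1 : ℕ) : ℝ) ^ 2 := by
    rw [Finset.sum_Icc_succ_top (by omega), sub_self, mul_zero, add_zero]
  rw [Finset.sum_add_distrib, ← Finset.mul_sum] at h1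
  have h4 := mul_le_mul_of_nonneg_left (taskPhi_sq2 u') hk0
  have h5 : (B : ℝ) * u' + B ≤ B * ((v + 1 : ℕ) : ℝ) := by
    have := mul_le_mul_of_nonneg_left huR hB0
    linarith
  unfold Phi
  rw [h3]
  have h6 : (∑ j ∈ Finset.Icc 1 u', ((s' : ℝ) + n + B * ((u' : ℝ) - j)) / (j : ℝ) ^ 2 + s' + B * u') +
      (((s : ℝ) + n) / ((v + 1 : ℕ) : ℝ) ^ 2 + B) ≤
      (∑ j ∈ Finset.Icc 1 v, ((s : ℝ) + n + B * (((v + 1 : ℕ) : ℝ) - j)) / (j : ℝ) ^ 2 +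
        ((s : ℝ) + n) / ((v + 1 : ℕ) : ℝ) ^ 2 + s + B * ((v + 1 : ℕ) : ℝ)) + 3 * k := by
    linarith
  have h7 := mul_le_mul_of_nonneg_left h6 hDn
  linarith

end Pool.Agent.Q333.GPO
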