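import Pool.Agent.Q333.GPO.Stmts

set_option autoImplicit false

namespace Pool.Agent.Q333.GPO

private theorem taskPhiB_sum (u : ℕ) : ∑ j ∈ Finset.Icc 1 u, ((j : ℝ) ^ 2)⁻¹ ≤ 2 := by
  have h := sum_Ioo_inv_sq_le (α := ℝ) 0 (u + 1)
  have e : Finset.Ioo 0 (u + 1) = Finset.Icc 1 u := by
    ext x
    simp only [Finset.mem_Ioo, Finset.mem_Icc]
    omega
  rw [e] at h
  simpa using h

theorem taskPhiB : TaskPhiB := by
  intro n B D u s hu
  unfold Phi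
  have hn : (0 : ℝ) ≤ n := Nat.cast_nonneg n
  have hB : (0 : ℝ) ≤ B := Nat.cast_nonneg B
  have hD : (0 : ℝ) ≤ D := Nat.cast_nonneg D
  have hu0 : (0 : ℝ) ≤ u := Nat.cast_nonneg u
  have hs : (0 : ℝ) ≤ s := Nat.cast_nonneg s
  have hun : (u : ℝ) ≤ n := by exact_mod_cast hu
  have hDn : (0 : ℝ) ≤ D * n := mul_nonneg hD hn
  have h0 : (0 : ℝ) ≤ ∑ j ∈ Finset.Icc 1 u, ((s : ℝ) + n + B * (u - j)) / (j : ℝ) ^ 2 := by
    apply Finset.sum_nonneg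
    intro j hj
    have hj2 : (j : ℝ) ≤ u := by exact_mod_cast (Finset.mem_Icc.1 hj).2
    have : (0 : ℝ) ≤ B * (u - j) := mul_nonneg hB (by linarith)
    positivity
  have h1 : ∑ j ∈ Finset.Icc 1 u, ((s : ℝ) + n + B * (u - j)) / (j : ℝ) ^ 2 ≤
      (s + n + B * n) * 2 := by
    calc ∑ j ∈ Finset.Icc 1 u, ((s : ℝ) + n + B * (u - j)) / (j : ℝ) ^ 2
        ≤ ∑ j ∈ Finset.Icc 1 u, ((s : ℝ) + n + B * n) * ((j : ℝ) ^ 2)⁻¹ := by
          apply Finset.sum_le_sum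
          intro j hj
          rw [div_eq_mul_inv]
          apply mul_le_mul_of_nonneg_right _ (by positivity)
          have hj0 : (0 : ℝ) ≤ j := Nat.cast_nonneg j
          have : (B : ℝ) * (u - j) ≤ B * n := mul_le_mul_of_nonneg_left (by linarith) hB
          linarith
      _ = (s + n + B * n) * ∑ j ∈ Finset.Icc 1 u, ((j : ℝ) ^ 2)⁻¹ := by rw [Finset.mul_sum]
      _ ≤ (s + n + B * n) * 2 := mul_le_mul_of_nonneg_left (taskPhiB_sum u) (by positivity)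
  have h2 : (B : ℝ) * u ≤ B * n := mul_le_mul_of_nonneg_left hun hB
  have h3 : (0 : ℝ) ≤ B * u := mul_nonneg hB hu0
  refine ⟨mul_nonneg hDn (by linarith), ?_⟩
  have h4 : (∑ j ∈ Finset.Icc 1 u, ((s : ℝ) + n + B * (u - j)) / (j : ℝ) ^ 2) + s + B * u ≤
      (3 * B + 3) * (n + s) := by
    have : (0 : ℝ) ≤ B * s := mul_nonneg hB hs
    nlinarith
  calc (D : ℝ) * n * ((∑ j ∈ Finset.Icc 1 u, ((s : ℝ) + n + B * (u - j)) / (j : ℝ) ^ 2) + s + B * u)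
      ≤ D * n * ((3 * B + 3) * (n + s)) := mul_le_mul_of_nonneg_left h4 hDn
    _ = D * (3 * B + 3) * ((n : ℝ) ^ 2 + n * s) := by ring

end Pool.Agent.Q333.GPO
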