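import Pool.Agent.Q333.GPO.Stmts

/-! One step multiplies `R1` by at most 100 (in expectation). -/

set_option autoImplicit false

open scoped ENNReal

namespace Pool.Agent.Q333.GPO

private theorem r1_sum {α : Type} (L : List α) (φ : α → ℝ≥0∞) (p : α → Bool) (a b : ℝ≥0∞)
    (h1 : ∀ Y ∈ L, p Y = false → φ Y ≤ a) (h2 : ∀ Y ∈ L, φ Y ≤ b) :
    (L.map φ).sum ≤ (L.length : ℝ≥0∞) * a + (L.countP p : ℝ≥0∞) * b := by
  induction L with
  | nil => simp
  | cons x L ih =>
    have ih := ih (fun Y hY => h1 Y (List.mem_cons_of_mem _ hY))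
      (fun Y hY => h2 Y (List.mem_cons_of_mem _ hY))
    rw [List.map_cons, List.sum_cons, List.length_cons]
    rcases hp : p x with _ | _
    · rw [List.countP_cons_of_neg (by simp [hp])]
      calc φ x + (L.map φ).sum ≤ a + ((L.length : ℝ≥0∞) * a + (L.countP p : ℝ≥0∞) * b) :=
            add_le_add (h1 x List.mem_cons_self hp) ih
        _ = _ := by push_cast; ring
    · rw [List.countP_cons_of_pos (by simp [hp])]
      calc φ x + (L.map φ).sum ≤ b + ((L.length : ℝ≥0∞) * a + (L.countP p : ℝ≥0∞) * b) :=
            add_le_add (h2 x List.mem_cons_self) ih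
        _ ≤ b + ((L.length : ℝ≥0∞) * a + (L.countP p : ℝ≥0∞) * b) + a := le_self_add
        _ = _ := by push_cast; ring

private theorem r1_div (a b c d K : ℕ) (hb : 0 < b) (hd : 0 < d) (h : a * d ≤ K * c * b) :
    (a : ℝ≥0∞) / (b : ℝ≥0∞) ≤ K * ((c : ℝ≥0∞) / (d : ℝ≥0∞)) := by
  have hb0 : (b : ℝ≥0∞) ≠ 0 := by exact_mod_cast hb.ne'
  have hd0 : (d : ℝ≥0∞) ≠ 0 := by exact_mod_cast hd.ne'
  rw [ENNReal.div_le_iff hb0 (ENNReal.natCast_ne_top b)]
  have : (K : ℝ≥0∞) * ((c : ℝ≥0∞) / d) * b = (K * c * b) / d := by
    simp only [div_eq_mul_inv]; ring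
  rw [this, ENNReal.le_div_iff_mul_le (Or.inl hd0) (Or.inl (ENNReal.natCast_ne_top d))]
  exact_mod_cast h

private theorem r1_eq {n : ℕ} (i : Fin n) (Y : Tree n) :
    R1 i Y = (G' i Y : ℝ≥0∞) / ((n * (size Y + 1) : ℕ) : ℝ≥0∞) := by
  cases Y with
  | none => simp [R1, G', size, leaves]
  | some Y => simp [R1, G']

theorem taskR1 (hHvl : TaskHvl) (hHvl0 : TaskHvl0) (hLen : TaskLen) (hSize : TaskSize)
    (hG : TaskG) (hGIns : TaskGIns) (hGDel : TaskGDel) (hGSub : TaskGSub) : TaskR1 := by
  intro n _ i X
  have hn : 0 < n := Nat.pos_of_ne_zero (NeZero.ne n)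
  have hn0 : (n : ℝ≥0∞) ≠ 0 := by exact_mod_cast hn.ne'
  have h2n0 : (2 * n : ℝ≥0∞) ≠ 0 := by simp [hn0]
  have h2nt : (2 * n : ℝ≥0∞) ≠ ⊤ := ENNReal.mul_ne_top (by simp) (ENNReal.natCast_ne_top n)
  have hcard : (Finset.univ : Finset (Lit n)).card = 2 * n := by
    simp [Fintype.card_prod, mul_comm]
  cases X with
  | none =>
    rw [hHvl0]
    have h1 : ∀ l : Lit n, R1 i (some (.leaf l)) ≤ (1 : ℕ) * R1 i none := by
      intro l
      rw [r1_eq, r1_eq]
      apply r1_div
      · positivity
      · positivity
      · have : G' i (some (Tr.leaf l)) ≤ 2 := by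
          simp only [G', G]; split_ifs <;> norm_num
        simp only [size, leaves, lvs, List.length_singleton, List.length_nil]
        have h2 : G' i (none : Tree n) = 2 := rfl
        rw [h2]
        nlinarith
    have h2 : ∑ l : Lit n, R1 i (some (.leaf l)) ≤ (2 * n : ℝ≥0∞) * R1 i none := by
      calc ∑ l : Lit n, R1 i (some (.leaf l)) ≤ (Finset.univ : Finset (Lit n)).card • R1 i none := by
            apply Finset.sum_le_card_nsmul
            intro l _
            simpa using h1 l
        _ = (2 * n : ℝ≥0∞) * R1 i none := by rw [hcard, nsmul_eq_mul]; push_cast; ring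
    calc (∑ l : Lit n, R1 i (some (.leaf l))) / (2 * n) ≤ R1 i none := by
          rw [ENNReal.div_le_iff h2n0 h2nt, mul_comm]; exact h2
      _ ≤ 100 * R1 i none := by
          calc R1 i none = 1 * R1 i none := (one_mul _).symm
            _ ≤ 100 * R1 i none := by gcongr; norm_num
  | some X =>
    rw [hHvl]
    set s := (lvs X).length with hs
    have hs1 : 1 ≤ s := (hLen n X).1
    have hG1 : 1 ≤ G i X := (hG n i X).1
    set r := R1 i (some X) with hr
    have hsz : size (some X) = s := rfl
    have hre : r = (G i X : ℝ≥0∞) / ((n * (s + 1) : ℕ) : ℝ≥0∞) := by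
      rw [hr, r1_eq, hsz]; rfl
    have hd : 0 < n * (s + 1) := by positivity
    have key : ∀ (Y : Tree n) (K : ℕ),
        G' i Y * (s + 1) ≤ K * G i X * (size Y + 1) → R1 i Y ≤ K * r := by
      intro Y K h
      rw [r1_eq, hre]
      apply r1_div _ _ _ _ _ (by positivity) hd
      calc G' i Y * (n * (s + 1)) = n * (G' i Y * (s + 1)) := by ring
        _ ≤ n * (K * G i X * (size Y + 1)) := Nat.mul_le_mul_left _ h
        _ = K * G i X * (n * (size Y + 1)) := by ring
    -- INS
    have I1 : ∀ l : Lit n, ((ins l X).map fun Y => R1 i (some Y)).sum / (ins l X).length ≤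
        5 * r := by
      intro l
      have hlen := (hLen n X).2.1 l
      have hlen0 : ((ins l X).length : ℝ≥0∞) ≠ 0 := by
        have : (ins l X).length ≠ 0 := by omega
        exact_mod_cast this
      rw [ENNReal.div_le_iff hlen0 (ENNReal.natCast_ne_top _), mul_comm]
      have := r1_sum (ins l X) (fun Y => R1 i (some Y)) (fun _ => false) (5 * r) (5 * r)
        (fun Y hY _ => ?_) (fun Y hY => ?_)
      · simpa using this
      all_goals
        have a1 := hGIns n i l X Y hY
        have a2 : size (some Y) = s + 1 := (hSize n X).1 l Y hY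
        have := key (some Y) 5 (by
          rw [a2]
          have : G' i (some Y) = G i Y := rfl
          rw [this]
          nlinarith)
        simpa using this
    have I2 : (∑ l : Lit n, ((ins l X).map fun Y => R1 i (some Y)).sum / (ins l X).length) / (2 * n) ≤
        5 * r := by
      rw [ENNReal.div_le_iff h2n0 h2nt]
      calc ∑ l : Lit n, ((ins l X).map fun Y => R1 i (some Y)).sum / (ins l X).length ≤
            (Finset.univ : Finset (Lit n)).card • (5 * r) :=
            Finset.sum_le_card_nsmul _ _ _ (fun l _ => I1 l)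
        _ = 5 * r * (2 * n) := by rw [hcard, nsmul_eq_mul]; push_cast; ring
    -- DEL
    have D1 : ((del X).map (R1 i)).sum / (del X).length ≤ 18 * r := by
      have hlen : (del X).length = s := (hLen n X).2.2.2
      have hs0 : (s : ℝ≥0∞) ≠ 0 := by
        have : s ≠ 0 := by omega
        exact_mod_cast this
      rw [hlen, ENNReal.div_le_iff hs0 (ENNReal.natCast_ne_top _)]
      have := r1_sum (del X) (R1 i) (fun Y => decide (G i X < G' i Y)) (2 * r) (8 * s * r)
        (fun Y hY hp => ?_) (fun Y hY => ?_)
      · refine this.trans ?_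
        have hc : ((del X).countP (fun Y => decide (G i X < G' i Y)) : ℝ≥0∞) ≤ 2 := by
          exact_mod_cast hGDel n i X
        rw [hlen]
        calc (s : ℝ≥0∞) * (2 * r) + ((del X).countP (fun Y => decide (G i X < G' i Y)) : ℝ≥0∞) *
              (8 * s * r) ≤ (s : ℝ≥0∞) * (2 * r) + 2 * (8 * s * r) := by gcongr
          _ = 18 * r * s := by ring
      · have a1 : G' i Y ≤ G i X := by simpa using hp
        have a2 : size Y + 1 = s := (hSize n X).2.2 Y hY
        have := key Y 2 (by rw [a2]; nlinarith)
        simpa using this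
      · have a2 : size Y + 1 = s := (hSize n X).2.2 Y hY
        have a3 : G' i Y ≤ 4 * s := by
          cases Y with
          | none => have : G' i (none : Tree n) = 2 := rfl
                    omega
          | some Z =>
            have h1 := (hG n i Z).2.1
            have h2 : size (some Z) = (lvs Z).length := rfl
            have h3 : G' i (some Z) = G i Z := rfl
            omega
        have := key Y (8 * s) (by
          rw [a2]
          have b1 : G' i Y * (s + 1) ≤ 4 * s * (2 * s) := Nat.mul_le_mul a3 (by omega)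
          have b2 : 8 * s * 1 * s ≤ 8 * s * G i X * s :=
            Nat.mul_le_mul_right _ (Nat.mul_le_mul_left _ hG1)
          calc G' i Y * (s + 1) ≤ 4 * s * (2 * s) := b1
            _ = 8 * s * 1 * s := by ring
            _ ≤ _ := b2)
        simpa using this
    -- SUB
    have S1 : ∀ l : Lit n, ((sub l X).map fun Y => R1 i (some Y)).sum / (sub l X).length ≤
        5 * r := by
      intro l
      have hlen := (hLen n X).2.2.1 l
      have hlen0 : ((sub l X).length : ℝ≥0∞) ≠ 0 := by
        have : (sub l X).length ≠ 0 := by omega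
        exact_mod_cast this
      rw [ENNReal.div_le_iff hlen0 (ENNReal.natCast_ne_top _)]
      have := r1_sum (sub l X) (fun Y => R1 i (some Y)) (fun Y => decide (G i X < G i Y)) (1 * r)
        (4 * s * r) (fun Y hY hp => ?_) (fun Y hY => ?_)
      · refine this.trans ?_
        have hc : ((sub l X).countP (fun Y => decide (G i X < G i Y)) : ℝ≥0∞) ≤ 1 := by
          exact_mod_cast hGSub n i l X
        have hsl : (s : ℝ≥0∞) ≤ (sub l X).length := by
          have : s ≤ (sub l X).length := by omega
          exact_mod_cast this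
        calc ((sub l X).length : ℝ≥0∞) * (1 * r) +
              ((sub l X).countP (fun Y => decide (G i X < G i Y)) : ℝ≥0∞) * (4 * s * r) ≤
              ((sub l X).length : ℝ≥0∞) * (1 * r) + 1 * (4 * (sub l X).length * r) := by gcongr
          _ = 5 * r * (sub l X).length := by ring
      · have a1 : G i Y ≤ G i X := by simpa using hp
        have a2 : size (some Y) = s := (hSize n X).2.1 l Y hY
        have := key (some Y) 1 (by
          rw [a2, one_mul]
          exact Nat.mul_le_mul_right _ a1)
        simpa using this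
      · have a2 : size (some Y) = s := (hSize n X).2.1 l Y hY
        have a3 : G i Y + 2 ≤ 4 * (lvs Y).length := (hG n i Y).2.1
        have a4 : (lvs Y).length = s := a2
        have := key (some Y) (4 * s) (by
          rw [a2]
          have b0 : G' i (some Y) = G i Y := rfl
          have b1 : G' i (some Y) ≤ 4 * s * G i X := by
            rw [b0]
            calc G i Y ≤ 4 * s * 1 := by omega
              _ ≤ 4 * s * G i X := Nat.mul_le_mul_left _ hG1
          exact Nat.mul_le_mul_right _ b1)
        simpa using this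
    have S2 : (∑ l : Lit n, ((sub l X).map fun Y => R1 i (some Y)).sum / (sub l X).length) / (2 * n) ≤
        5 * r := by
      rw [ENNReal.div_le_iff h2n0 h2nt]
      calc ∑ l : Lit n, ((sub l X).map fun Y => R1 i (some Y)).sum / (sub l X).length ≤
            (Finset.univ : Finset (Lit n)).card • (5 * r) :=
            Finset.sum_le_card_nsmul _ _ _ (fun l _ => S1 l)
        _ = 5 * r * (2 * n) := by rw [hcard, nsmul_eq_mul]; push_cast; ring
    calc (3 : ℝ≥0∞)⁻¹ * ((∑ l : Lit n, ((ins l X).map fun Y => R1 i (some Y)).sum /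
            (ins l X).length) / (2 * n) + ((del X).map (R1 i)).sum / (del X).length +
            (∑ l : Lit n, ((sub l X).map fun Y => R1 i (some Y)).sum / (sub l X).length) / (2 * n))
          ≤ 1 * (5 * r + 18 * r + 5 * r) := by
            gcongr
            · rw [ENNReal.inv_le_one]; norm_num
      _ = 28 * r := by ring
      _ ≤ 100 * r := by gcongr; norm_num

end Pool.Agent.Q333.GPO
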