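import Pool.Agent.Q333.GPO.Stmts

/-!
# GPO.TaskR2
-/

set_option autoImplicit false

open scoped ENNReal

namespace Pool.Agent.Q333.GPO

private theorem taskR2_E_le_one {α : Type} (p : PMF α) (φ : α → ℝ≥0∞) (h : ∀ a, φ a ≤ 1) : E p φ ≤ 1 := by
  unfold E
  calc ∑' a, p a * φ a ≤ ∑' a, p a * 1 := ENNReal.tsum_le_tsum fun a => by gcongr; exact h a
  _ = 1 := by simp [p.tsum_coe]

private theorem taskR2_inv_le (k : ℕ) : 1 / ((k : ℝ≥0∞) + 1) ≤ 1 := by
  apply ENNReal.div_le_of_le_mul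
  rw [one_mul]
  exact le_add_self

private theorem taskR2_le_one {n : ℕ} (i : Fin n) (X : Tree n) : R2 i X ≤ 1 := by
  unfold R2
  exact pow_le_one' (taskR2_inv_le _) _

private theorem taskR2_pow {r : ℝ≥0∞} (h : r ≤ 1) {a b : ℕ} (hab : a ≤ b) : r ^ b ≤ r ^ a :=
  pow_le_pow_right_of_le_one' h hab

private theorem taskR2_sum {α : Type} (L : List α) (f : α → ℝ≥0∞) (p : α → Bool) (a b : ℝ≥0∞)
    (h1 : ∀ x ∈ L, p x = true → f x ≤ a) (h2 : ∀ x ∈ L, p x = false → f x ≤ b) :
    (L.map f).sum ≤ (L.countP p : ℝ≥0∞) * a + (L.length : ℝ≥0∞) * b := by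
  induction L with
  | nil => simp
  | cons x L ih =>
    have ih' := ih (fun y hy => h1 y (List.mem_cons_of_mem _ hy)) (fun y hy => h2 y (List.mem_cons_of_mem _ hy))
    rw [List.map_cons, List.sum_cons, List.countP_cons, List.length_cons]
    push_cast
    by_cases hx : p x = true
    · have := h1 x List.mem_cons_self hx
      simp only [hx, if_true, Nat.cast_one]
      calc f x + (L.map f).sum ≤ a + ((L.countP p : ℝ≥0∞) * a + (L.length : ℝ≥0∞) * b) :=
            add_le_add this ih'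
        _ ≤ ((L.countP p : ℝ≥0∞) + 1) * a + ((L.length : ℝ≥0∞) + 1) * b := by
            rw [add_mul, add_mul, one_mul, one_mul]
            calc a + ((L.countP p : ℝ≥0∞) * a + (L.length : ℝ≥0∞) * b)
                = (L.countP p : ℝ≥0∞) * a + a + ((L.length : ℝ≥0∞) * b + 0) := by ring
              _ ≤ _ := by gcongr; exact zero_le
    · have hx' : p x = false := by simpa using hx
      have := h2 x List.mem_cons_self hx'
      simp only [hx', Bool.false_eq_true, if_false, Nat.cast_zero, add_zero]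
      calc f x + (L.map f).sum ≤ b + ((L.countP p : ℝ≥0∞) * a + (L.length : ℝ≥0∞) * b) :=
            add_le_add this ih'
        _ = (L.countP p : ℝ≥0∞) * a + ((L.length : ℝ≥0∞) + 1) * b := by ring

private theorem taskR2_one_le (s k : ℕ) (h : s + 1 ≤ 2 * k) :
    1 ≤ 2 * (1 / ((s : ℝ≥0∞) + 1)) * (k : ℝ≥0∞) := by
  have h1 : (1 / ((s : ℝ≥0∞) + 1)) * ((s : ℝ≥0∞) + 1) = 1 := by
    rw [one_div]
    exact ENNReal.inv_mul_cancel (by simp) (by simp)
  have h2 : ((s : ℝ≥0∞) + 1) ≤ 2 * (k : ℝ≥0∞) := by exact_mod_cast h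
  calc (1 : ℝ≥0∞) = (1 / ((s : ℝ≥0∞) + 1)) * ((s : ℝ≥0∞) + 1) := h1.symm
    _ ≤ (1 / ((s : ℝ≥0∞) + 1)) * (2 * (k : ℝ≥0∞)) := by gcongr
    _ = _ := by ring

private theorem taskR2_avg {n : ℕ} [NeZero n] (i : Fin n) (s g : ℕ) (c q : ℝ≥0∞) (F : Lit n → ℝ≥0∞)
    (h : ∀ l, F l ≤ c * q + if l = (i, true) then 3 * (g : ℝ≥0∞) * (1 / ((s : ℝ≥0∞) + 1)) else 0) :
    (∑ l, F l) / (2 * n) ≤ c * q + 3 * ((g : ℝ≥0∞) / (n * (s + 1))) := by
  have hn : (n : ℝ≥0∞) ≠ 0 := by exact_mod_cast NeZero.ne n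
  apply ENNReal.div_le_of_le_mul
  calc (∑ l, F l) ≤ ∑ l : Lit n, (c * q + if l = (i, true) then 3 * (g : ℝ≥0∞) * (1 / ((s : ℝ≥0∞) + 1)) else 0) :=
        Finset.sum_le_sum fun l _ => h l
    _ = (n * 2 : ℕ) * (c * q) + 3 * (g : ℝ≥0∞) * (1 / ((s : ℝ≥0∞) + 1)) := by
        rw [Finset.sum_add_distrib, Finset.sum_const, Finset.sum_ite_eq' Finset.univ (i, true)]
        simp
    _ ≤ (n * 2 : ℕ) * (c * q) + 2 * (3 * (g : ℝ≥0∞) * (1 / ((s : ℝ≥0∞) + 1))) := by
        exact add_le_add le_rfl (le_mul_of_one_le_left zero_le (by norm_num))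
    _ = (c * q + 3 * ((g : ℝ≥0∞) / (n * (s + 1)))) * (2 * n) := by
        have e : (g : ℝ≥0∞) / (n * (s + 1)) * n = g * (1 / ((s : ℝ≥0∞) + 1)) := by
          rw [div_eq_mul_inv, ENNReal.mul_inv (Or.inl hn) (Or.inl (by simp)), one_div]
          calc (g : ℝ≥0∞) * ((n : ℝ≥0∞)⁻¹ * ((s : ℝ≥0∞) + 1)⁻¹) * n
              = g * ((s : ℝ≥0∞) + 1)⁻¹ * ((n : ℝ≥0∞)⁻¹ * n) := by ring
            _ = _ := by rw [ENNReal.inv_mul_cancel hn (by simp), mul_one]
        calc ((n * 2 : ℕ) : ℝ≥0∞) * (c * q) + 2 * (3 * (g : ℝ≥0∞) * (1 / ((s : ℝ≥0∞) + 1)))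
            = 2 * n * (c * q) + 2 * 3 * (g * (1 / ((s : ℝ≥0∞) + 1))) := by push_cast; ring
          _ = 2 * n * (c * q) + 2 * 3 * ((g : ℝ≥0∞) / (n * (s + 1)) * n) := by rw [e]
          _ = _ := by ring

theorem taskR2 (hHvl : TaskHvl) (hLen : TaskLen) (hSize : TaskSize) (hInsL : TaskInsL)
    (hDelL : TaskDelL) (hSubL : TaskSubL) (hMIns : TaskMIns) (hMDel : TaskMDel) (hMSet : TaskMSet)
    (hM : TaskM) (hGood : TaskGood) (hGoodSub : TaskGoodSub) (hG : TaskG) : TaskR2 := by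
  intro n _ i X
  have triv : R2 i X = 1 → E (hvl X) (R2 i) ≤ 100 * (R1 i X + R2 i X) := by
    intro h
    rw [h]
    refine (taskR2_E_le_one _ _ fun Y => taskR2_le_one i Y).trans ?_
    calc (1 : ℝ≥0∞) = 1 * (0 + 1) := by norm_num
      _ ≤ 100 * (R1 i X + 1) := by gcongr; · norm_num
                                   · exact zero_le
  rcases X with _ | T
  · apply triv
    simp [R2, size, leaves]
  by_cases hM0 : m i (lvs T) = 0
  · apply triv
    simp [R2, leaves, hM0]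
  obtain ⟨k, hk⟩ : ∃ k, m i (lvs T) = k + 1 := Nat.exists_eq_succ_of_ne_zero hM0
  have hk1 : k ≤ 1 := by
    have := (hM n i (lvs T)).1
    omega
  obtain ⟨hs1, hlenI, hlenS, hlenD⟩ := hLen n T
  obtain ⟨hszI, hszS, hszD⟩ := hSize n T
  obtain ⟨s, hs⟩ : ∃ s, (lvs T).length = s := ⟨_, rfl⟩
  rw [hs] at hs1 hlenI hlenS hlenD hszI hszS hszD
  obtain ⟨g, hg⟩ : ∃ g, G i T = g := ⟨_, rfl⟩
  have hg1 : 1 ≤ g := hg ▸ (hG n i T).1
  have hg1' : (1 : ℝ≥0∞) ≤ g := by exact_mod_cast hg1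
  obtain ⟨r, hr⟩ : ∃ r : ℝ≥0∞, r = 1 / ((s : ℝ≥0∞) + 1) := ⟨_, rfl⟩
  have hr1 : r ≤ 1 := hr ▸ taskR2_inv_le s
  have eR2 : R2 i (some T) = r ^ (k + 1) := by
    unfold R2 size leaves
    simp only [hs, hk, hr]
  have eR1 : R1 i (some T) = (g : ℝ≥0∞) / (n * (s + 1)) := by
    unfold R1 size leaves
    simp only [hs, hg]
  have hR2S : ∀ Y : Tr n, (lvs Y).length = s → R2 i (some Y) = r ^ m i (lvs Y) := by
    intro Y hY
    unfold R2 size leaves
    simp only [hY, hr]
  have hR2I : ∀ Y : Tr n, (lvs Y).length = s + 1 → R2 i (some Y) ≤ r ^ m i (lvs Y) := by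
    intro Y hY
    unfold R2 size leaves
    simp only [hY, hr]
    gcongr
    exact_mod_cast Nat.le_succ s
  -- INS
  have hI : ∀ l : Lit n, ((ins l T).map fun Y => R2 i (some Y)).sum / (ins l T).length ≤
      1 * r ^ (k + 1) + if l = (i, true) then 3 * (g : ℝ≥0∞) * (1 / ((s : ℝ≥0∞) + 1)) else 0 := by
    intro l
    apply ENNReal.div_le_of_le_mul
    by_cases hl : l = (i, true)
    · subst hl
      rw [if_pos rfl, ← hr]
      have h1 := taskR2_sum (ins (i, true) T) (fun Y => R2 i (some Y)) (fun Y => decide (m i (lvs Y) = 0)) 1 r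
        (fun Y _ _ => taskR2_le_one i _)
        (fun Y hY hp => by
          have hp' : m i (lvs Y) ≠ 0 := by simpa using hp
          refine (hR2I Y (hszI _ Y hY)).trans ?_
          calc r ^ m i (lvs Y) ≤ r ^ 1 := taskR2_pow hr1 (by omega)
            _ = r := pow_one r)
      rw [hGood n i T hM0, hg] at h1
      have h2 : 1 ≤ 2 * r * ((ins (i, true) T).length : ℝ≥0∞) :=
        hr ▸ taskR2_one_le s _ (by have := hlenI (i, true); omega)
      refine h1.trans ?_
      calc (g : ℝ≥0∞) * 1 + ((ins (i, true) T).length : ℝ≥0∞) * r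
          ≤ (g : ℝ≥0∞) * (2 * r * ((ins (i, true) T).length : ℝ≥0∞)) +
            (g : ℝ≥0∞) * (((ins (i, true) T).length : ℝ≥0∞) * r) := by
            refine add_le_add ?_ (le_mul_of_one_le_left zero_le hg1')
            gcongr
        _ = (0 + 3 * (g : ℝ≥0∞) * r) * ((ins (i, true) T).length : ℝ≥0∞) := by ring
        _ ≤ _ := by gcongr; exact zero_le
    · rw [if_neg hl, add_zero, one_mul]
      have h1 := taskR2_sum (ins l T) (fun Y => R2 i (some Y)) (fun _ => false) 0 (r ^ (k + 1))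
        (fun Y _ h => by simp at h)
        (fun Y hY _ => by
          refine (hR2I Y (hszI _ Y hY)).trans ?_
          obtain ⟨L1, L2, e1, e2⟩ := hInsL n l T Y hY
          apply taskR2_pow hr1
          rw [← hk, e1, e2]
          exact hMIns n i l L1 L2 hl)
      refine h1.trans ?_
      rw [mul_zero, zero_add, mul_comm]
  -- SUB
  have hS : ∀ l : Lit n, ((sub l T).map fun Y => R2 i (some Y)).sum / (sub l T).length ≤
      5 * r ^ (k + 1) + if l = (i, true) then 3 * (g : ℝ≥0∞) * (1 / ((s : ℝ≥0∞) + 1)) else 0 := by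
    intro l
    apply ENNReal.div_le_of_le_mul
    have h2 : 1 ≤ 2 * r * ((sub l T).length : ℝ≥0∞) :=
      hr ▸ taskR2_one_le s _ (by have := hlenS l; omega)
    by_cases hl : l = (i, true)
    · subst hl
      rw [if_pos rfl, ← hr]
      have h1 := taskR2_sum (sub (i, true) T) (fun Y => R2 i (some Y)) (fun Y => decide (m i (lvs Y) = 0)) 1 r
        (fun Y _ _ => taskR2_le_one i _)
        (fun Y hY hp => by
          have hp' : m i (lvs Y) ≠ 0 := by simpa using hp
          refine (hR2S Y (hszS _ Y hY)).le.trans ?_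
          calc r ^ m i (lvs Y) ≤ r ^ 1 := taskR2_pow hr1 (by omega)
            _ = r := pow_one r)
      have h3 : ((List.countP (fun Y => decide (m i (lvs Y) = 0)) (sub (i, true) T) : ℕ) : ℝ≥0∞) ≤ g := by
        exact_mod_cast hg ▸ hGoodSub n i T hM0
      refine h1.trans ?_
      calc _ ≤ (g : ℝ≥0∞) * 1 + ((sub (i, true) T).length : ℝ≥0∞) * r := by gcongr
        _ ≤ (g : ℝ≥0∞) * (2 * r * ((sub (i, true) T).length : ℝ≥0∞)) +
            (g : ℝ≥0∞) * (((sub (i, true) T).length : ℝ≥0∞) * r) := by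
            refine add_le_add ?_ (le_mul_of_one_le_left zero_le hg1')
            gcongr
        _ = (0 + 3 * (g : ℝ≥0∞) * r) * ((sub (i, true) T).length : ℝ≥0∞) := by ring
        _ ≤ _ := by gcongr; exact zero_le
    · rw [if_neg hl, add_zero]
      have e1 : ((sub l T).map fun Y => R2 i (some Y)).sum =
          (((sub l T).map lvs).map fun L => r ^ m i L).sum := by
        rw [List.map_map]
        congr 1
        apply List.map_congr_left
        intro Y hY
        exact hR2S Y (hszS l Y hY)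
      rw [e1, ((hSubL n l T).map _).sum_eq, hs, List.map_append, List.sum_append, List.map_replicate,
        List.sum_replicate, List.map_map, hk]
      have h4 := taskR2_sum (List.range s) (fun d => r ^ m i ((lvs T).set d l))
        (fun d => decide (m i ((lvs T).set d l) < m i (lvs T))) (r ^ k) (r ^ (k + 1))
        (fun d _ _ => taskR2_pow hr1 (by have := (hMSet n i l (lvs T) hl).1 d; omega))
        (fun d _ hp => by
          apply taskR2_pow hr1
          have : ¬ m i ((lvs T).set d l) < m i (lvs T) := by simpa using hp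
          omega)
      have h5 : ((List.countP (fun d => decide (m i ((lvs T).set d l) < m i (lvs T))) (List.range s) : ℕ) :
          ℝ≥0∞) ≤ 2 := by
        exact_mod_cast hs ▸ (hMSet n i l (lvs T) hl).2
      rw [List.length_range] at h4
      have h6 : ((s - 1 : ℕ) : ℝ≥0∞) + (s : ℝ≥0∞) = ((sub l T).length : ℝ≥0∞) := by
        have := hlenS l
        exact_mod_cast (by omega : (s - 1) + s = (sub l T).length)
      calc (s - 1) • r ^ (k + 1) + ((List.range s).map _).sum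
          ≤ ((s - 1 : ℕ) : ℝ≥0∞) * r ^ (k + 1) + (2 * r ^ k + (s : ℝ≥0∞) * r ^ (k + 1)) := by
            rw [nsmul_eq_mul]
            refine add_le_add le_rfl (h4.trans ?_)
            gcongr
        _ = 2 * r ^ k * 1 + (((s - 1 : ℕ) : ℝ≥0∞) + (s : ℝ≥0∞)) * r ^ (k + 1) := by ring
        _ ≤ 2 * r ^ k * (2 * r * ((sub l T).length : ℝ≥0∞)) + ((sub l T).length : ℝ≥0∞) * r ^ (k + 1) := by
            rw [h6]
            gcongr
        _ = 5 * r ^ (k + 1) * ((sub l T).length : ℝ≥0∞) := by ring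
  -- DEL
  have hD : ((del T).map (R2 i)).sum / (del T).length ≤ 12 * r ^ (k + 1) := by
    apply ENNReal.div_le_of_le_mul
    obtain ⟨t, ht⟩ : ∃ t : ℝ≥0∞, t = 1 / (s : ℝ≥0∞) := ⟨_, rfl⟩
    have hs0 : (s : ℝ≥0∞) ≠ 0 := by
      have : s ≠ 0 := by omega
      exact_mod_cast this
    have hts : t * s = 1 := by
      rw [ht, one_div]
      exact ENNReal.inv_mul_cancel hs0 (by simp)
    have ht1 : t ≤ 1 := by
      rw [ht]
      apply ENNReal.div_le_of_le_mul
      rw [one_mul]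
      exact_mod_cast hs1
    have ht2 : t ≤ 2 * r := by
      have h2 : 1 ≤ 2 * r * (s : ℝ≥0∞) := hr ▸ taskR2_one_le s s (by omega)
      rw [ht]
      exact ENNReal.div_le_of_le_mul h2
    have e1 : ((del T).map (R2 i)).sum = (((del T).map leaves).map fun L => t ^ m i L).sum := by
      rw [List.map_map]
      congr 1
      apply List.map_congr_left
      intro Y hY
      have h := hszD Y hY
      unfold R2
      show _ = t ^ m i (leaves Y)
      rw [ht]
      congr 2
      exact_mod_cast h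
    rw [e1, hDelL n T, hs, List.map_map, hlenD]
    have h4 := taskR2_sum (List.range s) (fun d => t ^ m i ((lvs T).eraseIdx d))
      (fun d => decide (m i ((lvs T).eraseIdx d) < m i (lvs T))) (t ^ k) (t ^ (k + 1))
      (fun d _ _ => taskR2_pow ht1 (by have := (hMDel n i (lvs T)).1 d; omega))
      (fun d _ hp => by
        apply taskR2_pow ht1
        have : ¬ m i ((lvs T).eraseIdx d) < m i (lvs T) := by simpa using hp
        omega)
    have h5 : ((List.countP (fun d => decide (m i ((lvs T).eraseIdx d) < m i (lvs T))) (List.range s) : ℕ) :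
        ℝ≥0∞) ≤ 2 := by
      exact_mod_cast hs ▸ (hMDel n i (lvs T)).2
    rw [List.length_range] at h4
    have h7 : t ^ (k + 1) ≤ 4 * r ^ (k + 1) := by
      calc t ^ (k + 1) ≤ (2 * r) ^ (k + 1) := by gcongr
        _ = 2 ^ (k + 1) * r ^ (k + 1) := mul_pow _ _ _
        _ ≤ 4 * r ^ (k + 1) := by
            gcongr
            interval_cases k <;> norm_num
    refine h4.trans ?_
    calc _ ≤ 2 * t ^ k + (s : ℝ≥0∞) * t ^ (k + 1) := by gcongr
      _ = 2 * t ^ k * (t * s) + (s : ℝ≥0∞) * t ^ (k + 1) := by rw [hts, mul_one]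
      _ = 3 * t ^ (k + 1) * s := by ring
      _ ≤ 3 * (4 * r ^ (k + 1)) * s := by gcongr
      _ = 12 * r ^ (k + 1) * s := by ring
  -- assembly
  rw [hHvl n T (R2 i), eR1, eR2]
  have a1 := taskR2_avg i s g 1 (r ^ (k + 1)) _ hI
  have a2 := taskR2_avg i s g 5 (r ^ (k + 1)) _ hS
  generalize (g : ℝ≥0∞) / (n * (s + 1)) = ρ at a1 a2 ⊢
  generalize r ^ (k + 1) = q at a1 a2 hD ⊢
  calc _ ≤ (3 : ℝ≥0∞)⁻¹ * ((1 * q + 3 * ρ) + 12 * q + (5 * q + 3 * ρ)) := by
        gcongr
    _ ≤ 1 * ((1 * q + 3 * ρ) + 12 * q + (5 * q + 3 * ρ)) := by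
        gcongr
        exact ENNReal.inv_le_one.2 (by norm_num)
    _ = 6 * ρ + 18 * q := by ring
    _ ≤ 100 * ρ + 100 * q := by gcongr <;> norm_num
    _ = 100 * (ρ + q) := by ring

end Pool.Agent.Q333.GPO
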