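import Pool.Agent.Q333.GPO.Stmts

set_option autoImplicit false

open scoped ENNReal

namespace Pool.Agent.Q333.GPO

theorem taskRk (h1 : TaskR1) (h2 : TaskR2) (hE : TaskEBind) : TaskRk := by
  intro n _ i k
  induction k with
  | zero =>
    intro X
    change E (PMF.pure X) (fun Y => R1 i Y + R2 i Y) ≤ _
    rw [hE.2.2, pow_zero, one_mul]
  | succ k ih =>
    intro X
    change E ((hvl X).bind (hvlK k)) (fun Y => R1 i Y + R2 i Y) ≤ _
    rw [hE.1]
    have a1 : E (hvl X) (fun a => E (hvlK k a) (fun Y => R1 i Y + R2 i Y)) ≤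
        E (hvl X) (fun a => 200 ^ k * (R1 i a + R2 i a)) :=
      ENNReal.tsum_le_tsum fun a => mul_le_mul_right (ih a) _
    have a2 : E (hvl X) (fun a => 200 ^ k * (R1 i a + R2 i a)) =
        200 ^ k * (E (hvl X) (R1 i) + E (hvl X) (R2 i)) := by
      unfold E
      rw [← ENNReal.tsum_add, ← ENNReal.tsum_mul_left]
      congr 1
      funext a
      ring
    refine a1.trans ?_
    rw [a2, pow_succ, mul_assoc]
    refine mul_le_mul_right ?_ _
    calc E (hvl X) (R1 i) + E (hvl X) (R2 i) ≤ 100 * R1 i X + 100 * (R1 i X + R2 i X) :=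
          add_le_add (h1 n i X) (h2 n i X)
      _ ≤ 200 * (R1 i X + R2 i X) := by
          have : 100 * R1 i X + 100 * (R1 i X + R2 i X) + 100 * R2 i X =
              200 * (R1 i X + R2 i X) := by ring
          rw [← this]
          exact le_self_add

end Pool.Agent.Q333.GPO
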