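import Pool.Agent.Q333.GPO.Stmts

open scoped ENNReal

namespace Pool.Agent.Q333.GPO

theorem taskSeries : TaskSeries := by
  have hs : Summable (fun j : ℕ => 200000 * ((400 : ℝ) ^ j / (j.factorial : ℝ))) :=
    (Real.summable_pow_div_factorial 400).mul_left _
  obtain ⟨M, hM⟩ := exists_nat_ge (∑' j : ℕ, 200000 * ((400 : ℝ) ^ j / (j.factorial : ℝ)))
  refine ⟨M, ?_⟩
  calc ∑' j : ℕ, ProbabilityTheory.poissonPMF 1 j * ((j + 1 : ℝ≥0∞) * (1000 * 200 ^ (j + 1)))
      ≤ ∑' j : ℕ, ENNReal.ofReal (200000 * ((400 : ℝ) ^ j / (j.factorial : ℝ))) := by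
        refine ENNReal.tsum_le_tsum fun j => ?_
        have e : ((j + 1 : ℝ≥0∞) * (1000 * 200 ^ (j + 1))) =
            ENNReal.ofReal (((j : ℝ) + 1) * (1000 * 200 ^ (j + 1))) := by
          rw [ENNReal.ofReal_mul (by positivity), ENNReal.ofReal_mul (by norm_num),
            ENNReal.ofReal_pow (by norm_num), ENNReal.ofReal_add (by positivity) (by norm_num)]
          simp
        have e2 : ProbabilityTheory.poissonPMF 1 j =
            ENNReal.ofReal (Real.exp (-1) * 1 ^ j / (j.factorial : ℝ)) := by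
          simp [ProbabilityTheory.poissonPMF, ProbabilityTheory.poissonPMFReal]
          try rfl
        rw [e, e2, ← ENNReal.ofReal_mul (by positivity)]
        refine ENNReal.ofReal_le_ofReal ?_
        have h1 : Real.exp (-1) ≤ 1 := Real.exp_le_one_iff.mpr (by norm_num)
        have h2 : ((j : ℝ) + 1) ≤ 2 ^ j := by
          have : j + 1 ≤ 2 ^ j := Nat.lt_two_pow_self
          exact_mod_cast this
        have h3 : (400 : ℝ) ^ j = 2 ^ j * 200 ^ j := by rw [← mul_pow]; norm_num
        have h4 : (0 : ℝ) < j.factorial := by positivity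
        rw [one_pow, mul_one, h3, pow_succ, div_mul_eq_mul_div, mul_div_assoc', div_le_div_iff_of_pos_right h4]
        have h5 : (0 : ℝ) < 200 ^ j := by positivity
        have h6 : Real.exp (-1) * (((j : ℝ) + 1) * (1000 * (200 ^ j * 200))) ≤
            1 * (2 ^ j * (1000 * (200 ^ j * 200))) := by gcongr
        linarith
    _ = ENNReal.ofReal (∑' j : ℕ, 200000 * ((400 : ℝ) ^ j / (j.factorial : ℝ))) :=
        (ENNReal.ofReal_tsum_of_nonneg (fun j => by positivity) hs).symm
    _ ≤ M := by
        rw [← ENNReal.ofReal_natCast]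
        exact ENNReal.ofReal_le_ofReal hM

end Pool.Agent.Q333.GPO
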