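import Pool.Agent.Q333.GPO.Stmts

set_option autoImplicit false

namespace Pool.Agent.Q333.GPO

theorem taskSize_ins (n : ℕ) (l : Lit n) (X : Tr n) :
    ∀ Y ∈ ins l X, (lvs Y).length = (lvs X).length + 1 := by
  induction X with
  | leaf a =>
    intro Y hY
    simp only [ins, List.mem_cons, List.not_mem_nil, or_false] at hY
    rcases hY with rfl | rfl <;> simp [lvs]
  | node A B hA hB =>
    intro Y hY
    simp only [ins, List.cons_append, List.nil_append, List.mem_cons, List.mem_append,
      List.mem_map] at hY
    rcases hY with rfl | rfl | ⟨A', hA', rfl⟩ | ⟨B', hB', rfl⟩
    · simp only [lvs, List.length_append, List.length_cons, List.length_nil]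
      omega
    · simp only [lvs, List.length_append, List.length_cons, List.length_nil]
    · have := hA A' hA'
      simp only [lvs, List.length_append]
      omega
    · have := hB B' hB'
      simp only [lvs, List.length_append]
      omega

theorem taskSize_sub (n : ℕ) (l : Lit n) (X : Tr n) :
    ∀ Y ∈ sub l X, (lvs Y).length = (lvs X).length := by
  induction X with
  | leaf a =>
    intro Y hY
    simp only [sub, List.mem_cons, List.not_mem_nil, or_false] at hY
    rw [hY]
    simp [lvs]
  | node A B hA hB =>
    intro Y hY
    simp only [sub, List.mem_cons, List.mem_append, List.mem_map] at hY
    rcases hY with rfl | ⟨A', hA', rfl⟩ | ⟨B', hB', rfl⟩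
    · rfl
    · have := hA A' hA'
      simp only [lvs, List.length_append]
      omega
    · have := hB B' hB'
      simp only [lvs, List.length_append]
      omega

theorem taskSize_del (n : ℕ) (X : Tr n) :
    ∀ Y ∈ del X, size Y + 1 = (lvs X).length := by
  induction X with
  | leaf a =>
    intro Y hY
    simp only [del, List.mem_cons, List.not_mem_nil, or_false] at hY
    rw [hY]
    simp [size, leaves, lvs]
  | node A B hA hB =>
    intro Y hY
    simp only [del, List.mem_append, List.mem_map] at hY
    rcases hY with ⟨o, ho, rfl⟩ | ⟨o, ho, rfl⟩
    · have := hA o ho
      cases o with
      | none =>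
        simp only [size, leaves, List.length_nil] at this
        simp only [size, leaves, lvs, List.length_append]
        omega
      | some A' =>
        simp only [size, leaves] at this
        simp only [size, leaves, lvs, List.length_append]
        omega
    · have := hB o ho
      cases o with
      | none =>
        simp only [size, leaves, List.length_nil] at this
        simp only [size, leaves, lvs, List.length_append]
        omega
      | some B' =>
        simp only [size, leaves] at this
        simp only [size, leaves, lvs, List.length_append]
        omega

theorem taskSize : TaskSize := fun n X =>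
  ⟨fun l => taskSize_ins n l X, fun l => taskSize_sub n l X, taskSize_del n X⟩

end Pool.Agent.Q333.GPO
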