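import Mathlib
import Pool.Agent.Q333.GPO.Stmts

set_option autoImplicit false

open scoped ENNReal

namespace Pool.Agent.Q333.GPO

theorem taskSmall_quarter (n a : ℕ) (hn : n ≠ 0) (S : ℝ≥0∞) (hS : (a : ℝ≥0∞) ≤ S) (h : n ≤ 2 * a) :
    1 / 4 ≤ S / (2 * n) := by
  have hn' : (n : ℝ≥0∞) ≠ 0 := by exact_mod_cast hn
  rw [ENNReal.le_div_iff_mul_le (Or.inl (by simp [hn'])) (Or.inl (by
    exact ENNReal.mul_ne_top (by norm_num) (ENNReal.natCast_ne_top n)))]
  refine le_trans ?_ hS
  rw [mul_comm, mul_one_div]
  refine ENNReal.div_le_of_le_mul ?_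
  have : 2 * n ≤ a * 4 := by omega
  exact_mod_cast this

theorem taskSmall (hHvl : TaskHvl) (hHvl0 : TaskHvl0) (hEB : TaskEBind) (hLen : TaskLen) (hG : TaskG)
    (hGood : TaskGood) (hFI : TaskFitIns) (hM : TaskM) : TaskSmall := by
  classical
  intro n _ X hfit hsz
  have hn : n ≠ 0 := NeZero.ne n
  have hp : ∀ ψ : Tree n → ℝ≥0∞, E (hvlK 1 X) ψ = E (hvl X) ψ := by
    intro ψ
    have h1 : hvlK 1 X = (hvl X).bind (hvlK 0) := rfl
    rw [h1, hEB.1]
    congr 1
    funext a
    have h2 : hvlK 0 a = PMF.pure a := rfl
    rw [h2, hEB.2.2]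
  unfold pimp
  rw [hp]
  cases X with
  | none =>
    rw [hHvl0]
    have hfit0 : fit (none : Tree n) = 0 := by
      unfold fit
      rw [Finset.card_eq_zero, Finset.filter_eq_empty_iff]
      rintro i - ⟨L1, L2, h, -⟩
      simp [leaves] at h
    have hS : ((n : ℕ) : ℝ≥0∞) ≤ ∑ l : Lit n,
        (if fit (none : Tree n) < fit (some (.leaf l)) then (1 : ℝ≥0∞) else 0) := by
      rw [Fintype.sum_prod_type]
      have : ((n : ℕ) : ℝ≥0∞) = ∑ i : Fin n, (1 : ℝ≥0∞) := by simp
      rw [this]
      refine Finset.sum_le_sum fun i _ => ?_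
      have h1 : fit (none : Tree n) < fit (some (.leaf (i, true))) := by
        rw [hfit0]
        unfold fit
        exact Finset.card_pos.2 ⟨i, Finset.mem_filter.2 ⟨Finset.mem_univ _, [], [], by
          simp [leaves, lvs]⟩⟩
      calc (1 : ℝ≥0∞) = if fit (none : Tree n) < fit (some (.leaf (i, true))) then (1 : ℝ≥0∞) else 0 := by
            rw [if_pos h1]
        _ ≤ _ := Finset.single_le_sum (f := fun b : Bool =>
            if fit (none : Tree n) < fit (some (.leaf (i, b))) then (1 : ℝ≥0∞) else 0)
            (fun _ _ => by positivity) (Finset.mem_univ true)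
    refine le_trans ?_ (taskSmall_quarter n n hn _ hS (by omega))
    exact ENNReal.div_le_div_left (by norm_num) 1
  | some X =>
    rw [hHvl]
    have hlen := (hLen n X).1
    have hsz' : 2 * (lvs X).length < n := by
      rcases hsz with h | h
      · exact h
      · simp only [size, leaves] at h
        omega
    set ψ : Tree n → ℝ≥0∞ := fun Y => if fit (some X) < fit Y then 1 else 0 with hψ
    set A : Finset (Fin n) := Finset.univ.filter fun i => ¬ Has i (lvs X) with hA
    have hcard : n ≤ 2 * A.card := by
      have h1 : (Finset.univ.filter fun i : Fin n => Has i (lvs X)).card ≤ (lvs X).length := by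
        have h2 : (Finset.univ.filter fun i : Fin n => Has i (lvs X)) ⊆
            ((lvs X).map Prod.fst).toFinset := by
          intro i hi
          obtain ⟨l, hl, hli⟩ := (Finset.mem_filter.1 hi).2
          rw [List.mem_toFinset, List.mem_map]
          exact ⟨l, hl, hli⟩
        refine (Finset.card_le_card h2).trans ((List.toFinset_card_le _).trans ?_)
        rw [List.length_map]
      have h3 : (Finset.univ.filter fun i : Fin n => Has i (lvs X)).card + A.card = n := by
        have := Finset.card_filter_add_card_filter_not (s := (Finset.univ : Finset (Fin n)))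
          (fun i => Has i (lvs X))
        rw [Finset.card_univ, Fintype.card_fin] at this
        refine Eq.trans ?_ this
        rw [hA]
      omega
    have hone : ∀ i ∈ A, ((ins (i, true) X).map fun Y => ψ (some Y)).sum / (ins (i, true) X).length = 1 := by
      intro i hi
      have hnh : ¬ Has i (lvs X) := (Finset.mem_filter.1 hi).2
      have hm : m i (lvs X) ≠ 0 := by
        intro h0
        obtain ⟨L1, L2, hL, -⟩ := (hM n i (lvs X)).2.1 h0
        exact hnh ⟨(i, true), by rw [hL]; simp, rfl⟩
      have hg1 := (hG n i X).2.2 hnh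
      have hg2 := (hLen n X).2.1 (i, true)
      have hg3 := hGood n i X hm
      have hall : (ins (i, true) X).countP (fun Y => decide (m i (lvs Y) = 0)) =
          (ins (i, true) X).length := by omega
      rw [List.countP_eq_length] at hall
      have hval : ((ins (i, true) X).map fun Y => ψ (some Y)) =
          (ins (i, true) X).map fun _ => (1 : ℝ≥0∞) := by
        refine List.map_congr_left fun Y hY => ?_
        have h1 := hall Y hY
        have h2 : m i (lvs Y) = 0 := by simpa using h1
        have h3 := hFI n i X Y hY hm h2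
        simp only [hψ]
        rw [if_pos h3]
      rw [hval]
      have hpos : (ins (i, true) X).length ≠ 0 := by omega
      have hsum : ((ins (i, true) X).map fun _ => (1 : ℝ≥0∞)).sum = ((ins (i, true) X).length : ℝ≥0∞) := by
        simp
      rw [hsum]
      exact ENNReal.div_self (by exact_mod_cast hpos) (ENNReal.natCast_ne_top _)
    have hS : ((A.card : ℕ) : ℝ≥0∞) ≤ ∑ l : Lit n,
        ((ins l X).map fun Y => ψ (some Y)).sum / (ins l X).length := by
      rw [Fintype.sum_prod_type]
      calc ((A.card : ℕ) : ℝ≥0∞) = ∑ i ∈ A, (1 : ℝ≥0∞) := by simp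
        _ ≤ ∑ i ∈ A, ∑ b : Bool, ((ins (i, b) X).map fun Y => ψ (some Y)).sum / (ins (i, b) X).length := by
            refine Finset.sum_le_sum fun i hi => ?_
            rw [← hone i hi]
            exact Finset.single_le_sum (f := fun b : Bool =>
              ((ins (i, b) X).map fun Y => ψ (some Y)).sum / (ins (i, b) X).length)
              (fun _ _ => by positivity) (Finset.mem_univ true)
        _ ≤ ∑ i : Fin n, ∑ b : Bool,
              ((ins (i, b) X).map fun Y => ψ (some Y)).sum / (ins (i, b) X).length :=
            Finset.sum_le_sum_of_subset (Finset.subset_univ _)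
    have hq := taskSmall_quarter n A.card hn _ hS hcard
    have h12 : (1 : ℝ≥0∞) / 12 = 3⁻¹ * (1 / 4) := by
      rw [one_div, one_div, ← ENNReal.mul_inv (by norm_num) (by norm_num)]
      norm_num
    rw [h12]
    refine mul_le_mul_right ?_ _
    refine hq.trans ?_
    rw [add_assoc]
    exact le_self_add

end Pool.Agent.Q333.GPO
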