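import Pool.Agent.Q333.GPO.Stmts

set_option autoImplicit false

open scoped ENNReal

namespace Pool.Agent.Q333.GPO

private lemma taskStep_add {α : Type} (p : PMF α) (φ ψ : α → ℝ≥0∞) : E p (fun a => φ a + ψ a) = E p φ + E p ψ := by
  unfold E
  rw [← ENNReal.tsum_add]
  exact tsum_congr fun a => mul_add _ _ _

private lemma taskStep_mul {α : Type} (p : PMF α) (φ : α → ℝ≥0∞) (c : ℝ≥0∞) : E p (fun a => φ a * c) = E p φ * c := by
  unfold E
  rw [← ENNReal.tsum_mul_right]
  exact tsum_congr fun a => (mul_assoc _ _ _).symm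

private lemma taskStep_one {α : Type} (p : PMF α) : E p (fun _ => 1) = 1 := by
  unfold E
  simp only [mul_one]
  exact p.tsum_coe

theorem taskStep (h : TaskEBind) : TaskStep := by
  intro n _ X φ
  obtain ⟨hb, hm, _⟩ := h
  have h1 : E (step X) φ = ∑' j : ℕ, ProbabilityTheory.poissonPMF 1 j *
      E (hvlK (j + 1) X) (fun Y => φ (if fit X < fit Y then Y else X)) := by
    have h2 := hm (Tree n) (Tree n) (mutate X) (fun Y => if fit X < fit Y then Y else X) φ
    have h3 := hb ℕ (Tree n) (ProbabilityTheory.poissonPMF 1) (fun j => hvlK (j + 1) X)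
      (fun Y => φ (if fit X < fit Y then Y else X))
    unfold step
    refine Eq.trans ?_ (h2.trans ?_)
    · congr 1
    · rw [mutate]
      exact h3
  rw [h1]
  refine tsum_congr fun j => ?_
  congr 1
  have h4 : (fun Y : Tree n => φ (if fit X < fit Y then Y else X)) =
      fun Y => (if fit X < fit Y then φ Y else 0) + (if fit X < fit Y then 0 else 1) * φ X := by
    funext Y
    split_ifs with hlt
    · simp
    · simp
  rw [h4, taskStep_add, taskStep_mul]
  congr 2
  have h5 : E (hvlK (j + 1) X) (fun Y => if fit X < fit Y then 0 else 1) + pimp (j + 1) X = 1 := by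
    refine Eq.trans ?_ (taskStep_one (hvlK (j + 1) X))
    unfold pimp
    rw [← taskStep_add]
    congr 1
    funext Y
    split_ifs with hlt
    · simp
    · simp
  have hfin : pimp (j + 1) X ≠ ∞ := by
    intro htop
    rw [htop] at h5
    simp at h5
  exact ENNReal.eq_sub_of_add_eq hfin h5

end Pool.Agent.Q333.GPO
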