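import Pool.Agent.Q333.GPO.Stmts

set_option autoImplicit false
set_option linter.all false

namespace Pool.Agent.Q333.GPO

private lemma taskSubL_pos {n : ℕ} (X : Tr n) : 1 ≤ (lvs X).length := by
  induction X with
  | leaf a => simp [lvs]
  | node A B hA hB => simp [lvs]; omega

theorem taskSubL : TaskSubL := by
  intro n l X
  induction X with
  | leaf a => simp [sub, lvs]
  | node A B hA hB =>
    have hp := taskSubL_pos A
    have hq := taskSubL_pos B
    set a := lvs A with ha
    set b := lvs B with hb
    have e0 : (sub l (.node A B)).map lvs = (a ++ b) :: ((((sub l A).map lvs).map (· ++ b)) ++
        (((sub l B).map lvs).map (a ++ ·))) := by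
      simp [sub, lvs, List.map_map, Function.comp_def, ha, hb]
    have e1 : List.replicate ((lvs (.node A B)).length - 1) (lvs (.node A B)) =
        (a ++ b) :: (List.replicate (a.length - 1) (a ++ b) ++ List.replicate (b.length - 1) (a ++ b)) := by
      rw [List.replicate_append_replicate, ← List.replicate_succ]
      have : (lvs (.node A B)).length = a.length + b.length := by simp [lvs, ha, hb]
      rw [this]
      have h2 : a.length + b.length - 1 = a.length - 1 + (b.length - 1) + 1 := by omega
      rw [h2]
      rfl
    have e2 : ((List.range (lvs (.node A B)).length).map fun d => (lvs (.node A B)).set d l) =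
        ((List.range a.length).map fun d => a.set d l ++ b) ++
          ((List.range b.length).map fun d => a ++ b.set d l) := by
      have : (lvs (.node A B)) = a ++ b := by simp [lvs, ha, hb]
      rw [this, List.length_append, List.range_add, List.map_append, List.map_map]
      congr 1
      · refine List.map_congr_left fun d hd => ?_
        rw [List.mem_range] at hd
        exact List.set_append_left _ _ hd
      · refine List.map_congr_left fun d hd => ?_
        show (a ++ b).set (a.length + d) l = a ++ b.set d l
        rw [List.set_append_right _ _ (Nat.le_add_right _ _), Nat.add_sub_cancel_left]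
    rw [e0, e1, e2]
    have h1 : ((((sub l A).map lvs).map (· ++ b))).Perm
        (List.replicate (a.length - 1) (a ++ b) ++ ((List.range a.length).map fun d => a.set d l ++ b)) := by
      have := hA.map (· ++ b)
      simpa [List.map_append, List.map_replicate, List.map_map, Function.comp_def] using this
    have h2 : ((((sub l B).map lvs).map (a ++ ·))).Perm
        (List.replicate (b.length - 1) (a ++ b) ++ ((List.range b.length).map fun d => a ++ b.set d l)) := by
      have := hB.map (a ++ ·)
      simpa [List.map_append, List.map_replicate, List.map_map, Function.comp_def] using this
    have h3 := (h1.append h2).cons (a ++ b)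
    refine h3.trans ?_
    rw [List.cons_append]
    refine List.Perm.cons _ ?_
    rw [List.append_assoc, List.append_assoc]
    refine List.Perm.append_left _ ?_
    exact List.perm_append_comm_assoc _ _ _

end Pool.Agent.Q333.GPO
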