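import Pool.Agent.Q333.GPO.Stmts

set_option autoImplicit false

open scoped ENNReal

namespace Pool.Agent.Q333.GPO

private theorem aux_has {n : ℕ} (i : Fin n) (L : List (Lit n)) :
    Has i L ↔ L.findIdx (fun l => decide (l.1 = i)) < L.length := by
  rw [List.findIdx_lt_length]
  unfold Has
  constructor
  · rintro ⟨l, hl, h⟩
    exact ⟨l, hl, by simp [h]⟩
  · rintro ⟨l, hl, h⟩
    exact ⟨l, hl, by simpa using h⟩

private theorem aux_G {n : ℕ} (i : Fin n) (X : Tr n) :
    (lvs X).findIdx (fun l => decide (l.1 = i)) + 1 ≤ G i X := by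
  induction X with
  | leaf a =>
    by_cases h : a.1 = i <;> simp [lvs, G, h, List.findIdx_cons]
  | node A B hA hB =>
    simp only [lvs, G, List.findIdx_append]
    by_cases h : Has i (lvs A)
    · have h' := (aux_has i (lvs A)).1 h
      rw [if_pos h', if_pos h]
      omega
    · have h' := fun hh => h ((aux_has i (lvs A)).2 hh)
      rw [if_neg h', if_neg h]
      have := not_lt.1 h'
      omega

private theorem aux_sum (T : Finset ℕ) : T.card ^ 2 ≤ 2 * ∑ x ∈ T, (x + 1) := by
  induction T using Finset.induction_on_max with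
  | empty => simp
  | insert a T' hT ih =>
    have ha : a ∉ T' := fun h => lt_irrefl _ (hT a h)
    rw [Finset.card_insert_of_notMem ha, Finset.sum_insert ha]
    have h1 : T'.card ≤ a := by
      have := Finset.card_le_card (fun x hx => Finset.mem_range.2 (hT x hx) : T' ⊆ Finset.range a)
      simpa using this
    nlinarith

private theorem aux_nat {n : ℕ} (hG : TaskG) (X : Tr n) (S : Finset (Fin n)) :
    S.card ^ 2 * ((lvs X).length + 1) ≤ 16 * ((lvs X).length + n) * ∑ i ∈ S, G i X := by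
  classical
  rcases S.eq_empty_or_nonempty with rfl | ⟨i0, _⟩
  · simp
  have hn : 1 ≤ n := by have := i0.2; omega
  set s := (lvs X).length with hs
  set S1 := S.filter (fun i => Has i (lvs X)) with hS1
  set S0 := S.filter (fun i => ¬ Has i (lvs X)) with hS0
  have hcard : S.card = S1.card + S0.card := (Finset.card_filter_add_card_filter_not _).symm
  have hsum : ∑ i ∈ S, G i X = ∑ i ∈ S1, G i X + ∑ i ∈ S0, G i X :=
    (Finset.sum_filter_add_sum_filter_not S _ _).symm
  have h0 : S0.card * (s + 1) ≤ ∑ i ∈ S0, G i X := by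
    rw [← smul_eq_mul]
    refine Finset.card_nsmul_le_sum _ _ _ ?_
    intro i hi
    have h1 := (hG n i X).2.2 (Finset.mem_filter.1 hi).2
    have h2 := (hG n i X).1
    omega
  have h1 : S1.card ^ 2 ≤ 2 * ∑ i ∈ S1, G i X := by
    have hinj : Set.InjOn (fun i : Fin n => (lvs X).findIdx (fun l => decide (l.1 = i))) S1 := by
      intro i hi j hj hij
      have hi' := (aux_has i (lvs X)).1 (Finset.mem_filter.1 hi).2
      have hj' := (aux_has j (lvs X)).1 (Finset.mem_filter.1 hj).2
      have e1 := List.findIdx_getElem (w := hi')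
      have e2 := List.findIdx_getElem (w := hj')
      simp only [decide_eq_true_eq] at e1 e2
      simp only at hij
      rw [← e1, ← e2]
      congr 2
    have h2 := aux_sum (S1.image (fun i : Fin n => (lvs X).findIdx (fun l => decide (l.1 = i))))
    rw [Finset.card_image_of_injOn hinj, Finset.sum_image hinj] at h2
    refine h2.trans (Nat.mul_le_mul_left _ (Finset.sum_le_sum fun i _ => aux_G i X))
  have hS0n : S0.card ≤ n := by
    simpa using Finset.card_le_univ S0
  rw [hcard, hsum]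
  set a := S0.card
  set b := S1.card
  set P := ∑ i ∈ S1, G i X
  set Q := ∑ i ∈ S0, G i X
  have e1 : (b + a) ^ 2 ≤ 2 * b ^ 2 + 2 * a ^ 2 := by nlinarith [sq_nonneg ((a : ℤ) - b), two_mul_le_add_sq a b]
  have e2 : 2 * b ^ 2 * (s + 1) ≤ 16 * (s + n) * P := by
    calc 2 * b ^ 2 * (s + 1) ≤ 2 * (2 * P) * (s + 1) := by gcongr
      _ = 4 * (s + 1) * P := by ring
      _ ≤ 16 * (s + n) * P := by gcongr; omega
  have e3 : 2 * a ^ 2 * (s + 1) ≤ 16 * (s + n) * Q := by
    calc 2 * a ^ 2 * (s + 1) = 2 * a * (a * (s + 1)) := by ring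
      _ ≤ 2 * n * Q := by gcongr
      _ ≤ 16 * (s + n) * Q := Nat.mul_le_mul_right _ (by omega)
  calc (b + a) ^ 2 * (s + 1) ≤ (2 * b ^ 2 + 2 * a ^ 2) * (s + 1) := by gcongr
    _ = 2 * b ^ 2 * (s + 1) + 2 * a ^ 2 * (s + 1) := by ring
    _ ≤ 16 * (s + n) * P + 16 * (s + n) * Q := add_le_add e2 e3
    _ = 16 * (s + n) * (P + Q) := by ring

theorem taskSumG (hG : TaskG) (hU : TaskU) (_hM : TaskM) : TaskSumG := by
  intro n X
  have hUc : U (some X) = (Finset.univ.filter (fun i : Fin n => m i (lvs X) ≠ 0)).card := by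
    rw [(hU n (some X)).2]
    rfl
  rcases Nat.eq_zero_or_pos n with hn | hn
  · have : U (some X) = 0 := by
      subst hn
      simp [U]
    rw [this]
    simp
  rw [hUc]
  set S := Finset.univ.filter (fun i : Fin n => m i (lvs X) ≠ 0) with hS
  have key := aux_nat hG X S
  set s := (lvs X).length with hs
  rw [show (∑ i ∈ S, (G i X : ℝ≥0∞) / (n * (s + 1))) = ((∑ i ∈ S, G i X : ℕ) : ℝ≥0∞) / (n * (s + 1)) by
    rw [Nat.cast_sum, ENNReal.div_eq_inv_mul, Finset.mul_sum]
    exact Finset.sum_congr rfl fun i _ => ENNReal.div_eq_inv_mul]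
  have hn' : (n : ℝ≥0∞) ≠ 0 := by exact_mod_cast hn.ne'
  have hb0 : (16 * n * (s + n) : ℝ≥0∞) ≠ 0 := by
    have : (16 * n * (s + n) : ℕ) ≠ 0 := by positivity
    exact_mod_cast this
  have hbt : (16 * n * (s + n) : ℝ≥0∞) ≠ ⊤ := by
    have := ENNReal.natCast_ne_top (16 * n * (s + n))
    push_cast at this
    exact this
  have hd0 : (n * (s + 1) : ℝ≥0∞) ≠ 0 := by
    have : (n * (s + 1) : ℕ) ≠ 0 := by positivity
    exact_mod_cast this
  have hdt : (n * (s + 1) : ℝ≥0∞) ≠ ⊤ := by
    have := ENNReal.natCast_ne_top (n * (s + 1))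
    push_cast at this
    exact this
  rw [ENNReal.div_le_iff hb0 hbt, ENNReal.div_eq_inv_mul, mul_assoc, mul_comm, ← div_eq_mul_inv, ENNReal.le_div_iff_mul_le (Or.inl hd0) (Or.inl hdt)]
  have key2 : S.card ^ 2 * (n * (s + 1)) ≤ (∑ i ∈ S, G i X) * (16 * n * (s + n)) := by
    calc S.card ^ 2 * (n * (s + 1)) = n * (S.card ^ 2 * (s + 1)) := by ring
      _ ≤ n * (16 * (s + n) * ∑ i ∈ S, G i X) := by gcongr
      _ = _ := by ring
  exact_mod_cast key2

end Pool.Agent.Q333.GPO
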