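import Pool.Agent.Q333.GPO.Stmts

set_option autoImplicit false

open scoped ENNReal

namespace Pool.Agent.Q333.GPO

private lemma taskTwo_arith (n s g : ℕ) (hn : 1 ≤ n) (hns : n ≤ 2 * s) (hg : 1 ≤ g) :
    (1 / ((s : ℝ≥0∞) + 1)) ^ 2 ≤ 2 * ((g : ℝ≥0∞) / (n * ((s : ℝ≥0∞) + 1))) := by
  obtain ⟨a, ha⟩ : ∃ a : ℝ≥0∞, a = (s : ℝ≥0∞) + 1 := ⟨_, rfl⟩
  have ha0 : a ≠ 0 := by rw [ha]; simp
  have ha1 : a ≠ ⊤ := by rw [ha]; simp
  have hn0 : (n : ℝ≥0∞) ≠ 0 := by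
    have : n ≠ 0 := by omega
    exact_mod_cast this
  have hn1 : (n : ℝ≥0∞) ≠ ⊤ := ENNReal.natCast_ne_top n
  rw [← ha]
  have h0 : (n : ℝ≥0∞) ≤ 2 * g * a := by
    rw [ha]
    have : n ≤ 2 * g * (s + 1) := by nlinarith
    exact_mod_cast this
  have h1 : 1 / a ≤ 2 * g / n := by
    rw [ENNReal.div_le_iff ha0 ha1]
    calc (1 : ℝ≥0∞) = n / n := (ENNReal.div_self hn0 hn1).symm
      _ ≤ (2 * g * a) / n := ENNReal.div_le_div_right h0 _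
      _ = 2 * g / n * a := by rw [ENNReal.mul_div_right_comm]
  calc (1 / a) ^ 2 = (1 / a) * (1 / a) := sq _
    _ ≤ (2 * g / n) * (1 / a) := mul_le_mul' h1 le_rfl
    _ = 2 * ((g : ℝ≥0∞) / (n * a)) := by
      simp only [div_eq_mul_inv, one_mul]
      rw [ENNReal.mul_inv (Or.inl hn0) (Or.inl hn1)]
      ring

theorem taskTwo (h : TaskG) : TaskTwo := by
  intro n X i hn hm
  have hg := (h n i X).1
  have hi : 1 ≤ n := by
    have := i.2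
    omega
  have e : R2 i (some X) = (1 / (((lvs X).length : ℝ≥0∞) + 1)) ^ 2 := by
    show (1 / (((lvs X).length : ℝ≥0∞) + 1)) ^ m i (lvs X) = _
    rw [hm]
  rw [e]
  exact taskTwo_arith n (lvs X).length (G i X) hi hn hg

end Pool.Agent.Q333.GPO
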