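import Pool.Agent.Q333.GPO.Stmts

set_option autoImplicit false

open scoped ENNReal

namespace Pool.Agent.Q333.GPO

theorem taskU (h : TaskM) : TaskU := by
  classical
  intro n X
  have hfit : fit X = (Finset.univ.filter fun i : Fin n => Expressed (leaves X) i).card := by
    unfold fit
    congr
  have hle : fit X ≤ n := by
    rw [hfit]
    refine (Finset.card_filter_le _ _).trans ?_
    simp
  have hadd : (Finset.univ.filter fun i : Fin n => Expressed (leaves X) i).card +
      (Finset.univ.filter fun i : Fin n => ¬ Expressed (leaves X) i).card = n := by
    rw [Finset.card_filter_add_card_filter_not]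
    simp
  have hm : (Finset.univ.filter fun i : Fin n => m i (leaves X) ≠ 0) =
      Finset.univ.filter fun i : Fin n => ¬ Expressed (leaves X) i := by
    refine Finset.filter_congr fun i _ => ?_
    exact not_congr (h n i (leaves X)).2
  refine ⟨?_, ?_⟩
  · unfold U
    omega
  · rw [hm]
    unfold U
    omega

end Pool.Agent.Q333.GPO
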