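import Pool.Agent.Q333.GPO.Stmts

set_option autoImplicit false

open scoped ENNReal

namespace Pool.Agent.Q333.GPO

open Classical in
theorem taskUnif_count {α : Type} (L : List α) (φ : α → ℝ≥0∞) :
    ∑' a, (L.count a : ℝ≥0∞) * φ a = (L.map φ).sum := by
  induction L with
  | nil => simp
  | cons b L ih =>
    have h : ∀ a, ((b :: L).count a : ℝ≥0∞) * φ a =
        (L.count a : ℝ≥0∞) * φ a + (if a = b then φ a else 0) := by
      intro a
      rw [List.count_cons]
      by_cases hab : a = b
      · subst hab
        simp [add_mul]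
      · have : (b == a) = false := by simpa using fun h => hab h.symm
        simp [this, hab]
    simp_rw [h]
    rw [ENNReal.tsum_add, ih, tsum_ite_eq, List.map_cons, List.sum_cons, add_comm]

theorem taskUnif : TaskUnif := by
  classical
  intro α L h φ
  unfold E unif
  have h1 : ∀ a, (PMF.ofMultiset (L : Multiset α) (by simpa using h)) a * φ a =
      (L.count a : ℝ≥0∞) * φ a * (L.length : ℝ≥0∞)⁻¹ := by
    intro a
    rw [PMF.ofMultiset_apply, Multiset.coe_count, Multiset.coe_card, div_eq_mul_inv]
    ring_nf
  simp_rw [h1]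
  rw [ENNReal.tsum_mul_right, div_eq_mul_inv, ← taskUnif_count]

end Pool.Agent.Q333.GPO
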