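import Pool.Agent.Q333.GPO.Stmts

set_option autoImplicit false

open scoped ENNReal

namespace Pool.Agent.Q333.GPO

private theorem taskUnion_exists (hM : TaskM) {n : ℕ} (X Y : Tree n) (h : fit X < fit Y) :
    ∃ i : Fin n, m i (leaves X) ≠ 0 ∧ m i (leaves Y) = 0 := by
  classical
  by_contra hc
  push Not at hc
  apply absurd h
  rw [not_lt]
  unfold fit
  apply Finset.card_le_card
  intro i hi
  simp only [Finset.mem_filter, Finset.mem_univ, true_and] at hi ⊢
  by_contra hx
  have h1 : m i (leaves X) ≠ 0 := fun h0 => hx ((hM n i (leaves X)).2.1 h0)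
  exact hc i h1 ((hM n i (leaves Y)).2.2 hi)

theorem taskUnion (hR : TaskRk) (hM : TaskM) : TaskUnion := by
  intro n _ k X
  have hpt : ∀ Y : Tree n, fit X < fit Y →
      (1 : ℝ≥0∞) ≤ ∑ i ∈ Finset.univ.filter (fun i : Fin n => m i (leaves X) ≠ 0),
        (R1 i Y + R2 i Y) := by
    intro Y hY
    obtain ⟨i, h1, h2⟩ := taskUnion_exists hM X Y hY
    have hi : i ∈ Finset.univ.filter (fun i : Fin n => m i (leaves X) ≠ 0) := by
      simp [h1]
    have h3 : R2 i Y = 1 := by
      unfold R2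
      rw [h2, pow_zero]
    calc (1 : ℝ≥0∞) = R2 i Y := h3.symm
      _ ≤ R1 i Y + R2 i Y := le_add_self
      _ ≤ _ := Finset.single_le_sum (f := fun i => R1 i Y + R2 i Y) (fun _ _ => bot_le) hi
  calc pimp k X ≤ ∑' Y, hvlK k X Y *
        ∑ i ∈ Finset.univ.filter (fun i : Fin n => m i (leaves X) ≠ 0), (R1 i Y + R2 i Y) := by
        unfold pimp E
        refine ENNReal.tsum_le_tsum fun Y => ?_
        refine mul_le_mul_right ?_ _
        beta_reduce
        split_ifs with h
        · exact hpt Y h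
        · exact bot_le
    _ = ∑' Y, ∑ i ∈ Finset.univ.filter (fun i : Fin n => m i (leaves X) ≠ 0),
          hvlK k X Y * (R1 i Y + R2 i Y) := tsum_congr fun Y => Finset.mul_sum _ _ _
    _ = ∑ i ∈ Finset.univ.filter (fun i : Fin n => m i (leaves X) ≠ 0),
          ∑' Y, hvlK k X Y * (R1 i Y + R2 i Y) :=
        Summable.tsum_finsetSum fun i _ => ENNReal.summable
    _ ≤ _ := Finset.sum_le_sum fun i _ => hR n i k X

end Pool.Agent.Q333.GPO
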